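import Pool.Agent.Helper904.GS.Good

set_option autoImplicit false

namespace Pool.Agent.Helper904.GS

open Finset

section fj

variable {k : Type} [Field k] {G : Type} [Group G] {ι : Type} [Fintype ι]

/-- The standard filtration. -/
noncomputable def FJ (g : ι → G) (K : Subgroup G) : ℕ → Submodule k (GA k G)
  | 0 => BK K
  | n + 1 => comb (fun i => dx (g i)) (fun _ => FJ g K n)

variable (g : ι → G) (K : Subgroup G)

lemma FJ_zero : (FJ g K 0 : Submodule k (GA k G)) = BK K := rfl

lemma FJ_succ {n : ℕ} {y : GA k G} : y ∈ (FJ g K (n + 1) : Submodule k (GA k G)) ↔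
    ∃ c : ι → GA k G, (∀ i, c i ∈ (FJ g K n : Submodule k (GA k G))) ∧ y = ∑ i, c i * dx (g i) :=
  Iff.rfl

lemma FJ_left (n : ℕ) : ∀ x ∈ (BK K : Submodule k (GA k G)),
    ∀ y ∈ (FJ g K n : Submodule k (GA k G)), x * y ∈ (FJ g K n : Submodule k (GA k G)) := by
  induction n with
  | zero => exact fun x hx y hy => mul_mem_BK hx hy
  | succ n ih =>
    intro x hx y hy
    obtain ⟨c, hc, rfl⟩ := (FJ_succ g K).1 hy
    refine (FJ_succ g K).2 ⟨fun i => x * c i, fun i => ih x hx _ (hc i), ?_⟩
    rw [Finset.mul_sum]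
    exact Finset.sum_congr rfl fun i _ => by rw [mul_assoc]

variable (hg : Subgroup.closure (Set.range g) = K)

include hg in
lemma g_mem (i : ι) : g i ∈ K := by
  rw [← hg]; exact Subgroup.subset_closure ⟨i, rfl⟩

include hg in
lemma FJ_anti' (n : ℕ) : (FJ g K (n + 1) : Submodule k (GA k G)) ≤ FJ g K n := by
  induction n with
  | zero =>
    intro y hy
    obtain ⟨c, hc, rfl⟩ := (FJ_succ g K).1 hy
    exact Submodule.sum_mem _ fun i _ => mul_mem_BK (hc i) (dx_mem_BK (g_mem g K hg i))
  | succ n ih =>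
    intro y hy
    obtain ⟨c, hc, rfl⟩ := (FJ_succ g K).1 hy
    exact (FJ_succ g K).2 ⟨c, fun i => ih (hc i), rfl⟩

include hg in
lemma dx_mem_FJ {h : G} (hh : h ∈ K) : (dx h : GA k G) ∈ (FJ g K 1 : Submodule k (GA k G)) := by
  classical
  have hh' := hh
  rw [← hg] at hh'
  induction hh' using Subgroup.closure_induction with
  | mem x hx =>
    obtain ⟨i, rfl⟩ := hx
    have h1 : (1 : GA k G) * dx (g i) ∈ comb (fun i => dx (g i)) (fun _ => FJ g K 0) :=
      single_mem_comb (fun i => dx (g i)) (fun _ => (FJ g K 0 : Submodule k (GA k G))) i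
        (one_mem_BK K)
    rwa [one_mul] at h1
  | one => rw [dx_one]; exact Submodule.zero_mem _
  | mul x y hx hy h1 h2 =>
    rw [hg] at hx hy
    rw [dx_mul]
    exact Submodule.add_mem _ (h1 hx) (FJ_left g K 1 _ (o_mem_BK hx) _ (h2 hy))
  | inv x hx h1 =>
    rw [hg] at hx
    rw [dx_inv]
    exact Submodule.neg_mem _ (FJ_left g K 1 _ (o_mem_BK (K.inv_mem hx)) _ (h1 hx))

include hg in
lemma FJ_right (n : ℕ) : ∀ x ∈ (FJ g K n : Submodule k (GA k G)),
    ∀ y ∈ (BK K : Submodule k (GA k G)), x * y ∈ (FJ g K n : Submodule k (GA k G)) := by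
  induction n with
  | zero => exact fun x hx y hy => mul_mem_BK hx hy
  | succ n ih =>
    intro x hx y hy
    obtain ⟨c, hc, rfl⟩ := (FJ_succ g K).1 hx
    rw [Finset.sum_mul]
    refine Submodule.sum_mem _ fun i _ => ?_
    have h1 : (dx (g i) : GA k G) * y ∈ (FJ g K 1 : Submodule k (GA k G)) := by
      unfold BK at hy
      induction hy using Submodule.span_induction with
      | mem x hx =>
        obtain ⟨h, hh, rfl⟩ := hx
        have e1 : (dx (g i) : GA k G) * o h = dx (g i * h) - dx h := by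
          rw [dx_mul']; abel
        rw [e1]
        exact Submodule.sub_mem _ (dx_mem_FJ g K hg (K.mul_mem (g_mem g K hg i) hh))
          (dx_mem_FJ g K hg hh)
      | zero => rw [mul_zero]; exact Submodule.zero_mem _
      | add x y _ _ h1 h2 => rw [mul_add]; exact Submodule.add_mem _ h1 h2
      | smul r x _ h => rw [mul_smul_comm]; exact Submodule.smul_mem _ _ h
    obtain ⟨b, hb, he⟩ := (FJ_succ g K).1 h1
    rw [mul_assoc, he]
    refine (FJ_succ g K).2 ⟨fun j => c i * b j, fun j => ih _ (hc i) _ (hb j), ?_⟩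
    rw [Finset.mul_sum]
    exact Finset.sum_congr rfl fun j _ => by rw [mul_assoc]

include hg in
lemma FJ_mul (n m : ℕ) : ∀ x y : GA k G, x ∈ (FJ g K n : Submodule k (GA k G)) →
    y ∈ (FJ g K m : Submodule k (GA k G)) → x * y ∈ (FJ g K (n + m) : Submodule k (GA k G)) := by
  induction m with
  | zero => exact fun x y hx hy => FJ_right g K hg n x hx y hy
  | succ m ih =>
    intro x y hx hy
    obtain ⟨c, hc, rfl⟩ := (FJ_succ g K).1 hy
    rw [← Nat.add_assoc]
    refine (FJ_succ g K).2 ⟨fun i => x * c i, fun i => ih x (c i) hx (hc i), ?_⟩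
    rw [Finset.mul_sum]
    exact Finset.sum_congr rfl fun i _ => by rw [mul_assoc]

include hg in
/-- The certificate of a free generating family. -/
theorem freeCert (hfree : ∀ s : ι → GA k G, (∀ i, s i ∈ (BK K : Submodule k (GA k G))) →
    ∑ i, s i * dx (g i) = 0 → ∀ i, s i = 0) (hKn : K.Normal) :
    ∃ C : Cert k K, (∀ t : ℝ, C.D t = Fintype.card ι * t - 1) ∧ (∀ h, C.InvAt h) := by
  have hinvBK : ∀ (h : G) (x : GA k G), x ∈ (BK K : Submodule k (GA k G)) →
      o h * x * o h⁻¹ ∈ (BK K : Submodule k (GA k G)) := by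
    intro h x hx
    unfold BK at hx ⊢
    induction hx using Submodule.span_induction with
    | mem x hx =>
      obtain ⟨a, ha, rfl⟩ := hx
      rw [← o_mul, ← o_mul]
      exact Submodule.subset_span ⟨_, hKn.conj_mem a ha h, rfl⟩
    | zero => simp
    | add x y _ _ h1 h2 => rw [mul_add, add_mul]; exact Submodule.add_mem _ h1 h2
    | smul c x _ h => rw [mul_smul_comm, smul_mul_assoc]; exact Submodule.smul_mem _ _ h
  refine ⟨{
    ι := ι
    κ := Empty
    fι := inferInstance
    fκ := inferInstance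
    g := g
    e := fun _ => 1
    r := fun a => a.elim
    d := fun a => a.elim
    J := FJ g K
    g_mem := g_mem g K hg
    e_pos := fun _ => le_rfl
    J_zero := rfl
    J_anti := antitone_nat_of_succ_le (FJ_anti' g K hg)
    J_mul := FJ_mul g K hg
    x_mem := fun i => dx_mem_FJ g K hg (g_mem g K hg i)
    one := fun h hh => dx_mem_FJ g K hg hh
    gen := ?_
    r_mem := fun a => a.elim
    r_syz := fun a => a.elim
    r_gen := ?_ }, ?_, ?_⟩
  · intro n hn x hx
    obtain ⟨m, rfl⟩ : ∃ m, n = m + 1 := ⟨n - 1, by omega⟩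
    exact (FJ_succ g K).1 hx
  · intro s hs h
    refine ⟨fun a => a.elim, fun a => a.elim, fun i => ?_⟩
    rw [hfree s hs h i]; simp
  · intro t
    simp [Cert.D, Cert.W, Cert.WR]
  · intro h n
    change ∀ x ∈ (FJ g K n : Submodule k (GA k G)), o h * x * o h⁻¹ ∈ (FJ g K n : Submodule k (GA k G))
    induction n with
    | zero => exact fun x hx => hinvBK h x hx
    | succ n ih =>
      intro x hx
      obtain ⟨c, hc, rfl⟩ := (FJ_succ g K).1 hx
      rw [Finset.mul_sum, Finset.sum_mul]
      refine Submodule.sum_mem _ fun i _ => ?_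
      have e1 : (o h : GA k G) * (c i * dx (g i)) * o h⁻¹
          = (o h * c i * o h⁻¹) * dx (h * g i * h⁻¹) := by
        rw [dx_conj]
        have : (o h : GA k G) * (c i * dx (g i)) * o h⁻¹
          = o h * c i * 1 * dx (g i) * o h⁻¹ := by noncomm_ring
        rw [this, ← o_inv_mul h]; noncomm_ring
      rw [e1]
      exact FJ_mul g K hg n 1 _ _ (ih _ (hc i))
        (dx_mem_FJ g K hg (hKn.conj_mem _ (g_mem g K hg i) h))

end fj

section fox

variable {k : Type} [Field k] {ι : Type} [DecidableEq ι]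

/-- The affine action. -/
noncomputable def rho (j : ι) : FreeGroup ι →* Equiv.Perm (GA k (FreeGroup ι)) :=
  FreeGroup.lift fun i =>
    { toFun := fun x => o (FreeGroup.of i) * x + (if i = j then 1 else 0)
      invFun := fun x => o (FreeGroup.of i)⁻¹ * (x - (if i = j then 1 else 0))
      left_inv := fun x => by
        simp only [add_sub_cancel_right]
        rw [← mul_assoc, o_inv_mul, one_mul]
      right_inv := fun x => by
        simp only
        rw [← mul_assoc, o_mul_inv, one_mul, sub_add_cancel] }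

lemma rho_apply (j : ι) (g : FreeGroup ι) : ∀ x : GA k (FreeGroup ι),
    rho j g x = o g * x + rho j g 0 := by
  induction g using FreeGroup.induction_on with
  | C1 => intro x; simp [o_one]
  | of i => intro x; simp [rho]
  | inv_of i _ =>
    intro x
    simp only [rho, map_inv, FreeGroup.lift_apply_of]
    change o (FreeGroup.of i)⁻¹ * (x - _) = o (FreeGroup.of i)⁻¹ * x + o (FreeGroup.of i)⁻¹ * (0 - _)
    noncomm_ring
  | mul a b h1 h2 =>
    intro x
    rw [map_mul, Equiv.Perm.mul_apply, Equiv.Perm.mul_apply, h2 x, h1 (o b * x + _), h1 (rho j b 0),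
      o_mul]
    noncomm_ring

/-- The Fox derivative on group elements. -/
noncomputable def fx (j : ι) (g : FreeGroup ι) : GA k (FreeGroup ι) := rho j g 0

lemma fx_mul (j : ι) (a b : FreeGroup ι) :
    (fx j (a * b) : GA k (FreeGroup ι)) = o a * fx j b + fx j a := by
  unfold fx
  rw [map_mul, Equiv.Perm.mul_apply, rho_apply]

lemma fx_one (j : ι) : (fx j 1 : GA k (FreeGroup ι)) = 0 := by
  simp [fx]

lemma fx_of (j i : ι) : (fx j (FreeGroup.of i) : GA k (FreeGroup ι)) = if i = j then 1 else 0 := by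
  simp [fx, rho]

/-- The Fox derivative. -/
noncomputable def fox (j : ι) : GA k (FreeGroup ι) →ₗ[k] GA k (FreeGroup ι) :=
  (MonoidAlgebra.basis (FreeGroup ι) k).constr k (fun g => fx j g)

lemma fox_o (j : ι) (g : FreeGroup ι) : fox j (o g : GA k (FreeGroup ι)) = fx j g := by
  have : (o g : GA k (FreeGroup ι)) = MonoidAlgebra.basis (FreeGroup ι) k g := by
    simp [o, MonoidAlgebra.of]
  unfold fox
  rw [this, Module.Basis.constr_basis]

lemma fox_mul_dx (j i : ι) (x : GA k (FreeGroup ι)) :
    fox j (x * dx (FreeGroup.of i)) = if i = j then x else 0 := by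
  induction x using MonoidAlgebra.induction_linear with
  | zero => simp
  | add x y h1 h2 =>
    rw [add_mul, map_add, h1, h2]
    by_cases h : i = j <;> simp [h]
  | single m r =>
    have e : (MonoidAlgebra.single m r : GA k (FreeGroup ι)) = r • o m := by simp [o]
    rw [e, smul_mul_assoc, map_smul, dx, mul_sub, mul_one, map_sub, ← o_mul, fox_o, fox_o, fx_mul,
      fx_of]
    by_cases h : i = j <;> simp [h]

lemma free_F [Fintype ι] (s : ι → GA k (FreeGroup ι))
    (h : ∑ i, s i * dx (FreeGroup.of i) = 0) (j : ι) : s j = 0 := by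
  have h1 := congrArg (fox j) h
  rw [map_sum, map_zero] at h1
  simp only [fox_mul_dx] at h1
  simpa using h1

lemma free_G [Fintype ι] {G : Type} [Group G] (f : FreeGroup ι →* G)
    (hf : Function.Injective f) (s : ι → GA k G) (hs : ∀ i, s i ∈ (BK f.range : Submodule k (GA k G)))
    (h : ∑ i, s i * dx (f (FreeGroup.of i)) = 0) (j : ι) : s j = 0 := by
  have h1 : ∀ i, ∃ s' : GA k (FreeGroup ι), ph f s' = s i := by
    intro i
    have h2 := hs i
    rw [MonoidHom.range_eq_map, ← map_BK] at h2
    obtain ⟨y, -, hy⟩ := h2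
    exact ⟨y, hy⟩
  choose s' hs' using h1
  have hinj : Function.Injective (ph f : GA k (FreeGroup ι) → GA k G) :=
    MonoidAlgebra.mapDomain_injective hf
  have h3 : ∑ i, s' i * dx (FreeGroup.of i) = 0 := by
    apply hinj
    rw [map_zero, map_sum]
    simp only [map_mul, ph_dx, hs']
    exact h
  rw [← hs' j, free_F s' h3 j, map_zero]

end fox

end Pool.Agent.Helper904.GS
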