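import Pool.Agent.Helper904.GS.Base

set_option autoImplicit false

namespace Pool.Agent.Helper904.GS

open Finset

/-- The free group. -/
abbrev FF : Type := FreeGroup (Fin 10)

lemma theta_sq (x : FF) : (FreeGroup.lift (fun i : Fin 10 => (FreeGroup.of i)⁻¹) : FF →* FF)
    ((FreeGroup.lift (fun i : Fin 10 => (FreeGroup.of i)⁻¹) : FF →* FF) x) = x := by
  have h : ((FreeGroup.lift (fun i : Fin 10 => (FreeGroup.of i)⁻¹) : FF →* FF).comp
      (FreeGroup.lift (fun i : Fin 10 => (FreeGroup.of i)⁻¹) : FF →* FF)) = MonoidHom.id FF := by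
    ext i
    simp
  exact DFunLike.congr_fun h x

/-- The automorphism inverting the generators. -/
def theta : MulAut FF :=
  { toFun := (FreeGroup.lift (fun i : Fin 10 => (FreeGroup.of i)⁻¹) : FF →* FF)
    invFun := (FreeGroup.lift (fun i : Fin 10 => (FreeGroup.of i)⁻¹) : FF →* FF)
    left_inv := theta_sq
    right_inv := theta_sq
    map_mul' := fun x y => map_mul _ x y }

lemma theta_of (i : Fin 10) : theta (FreeGroup.of i) = (FreeGroup.of i)⁻¹ := by
  change (FreeGroup.lift (fun i : Fin 10 => (FreeGroup.of i)⁻¹) : FF →* FF) (FreeGroup.of i) = _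
  simp

lemma theta_mul : theta * theta = 1 := by
  apply MulEquiv.ext
  intro x
  exact theta_sq x

lemma theta_ne : theta ≠ 1 := by
  intro h
  have h1 := theta_of 0
  rw [h, MulAut.one_apply] at h1
  have h2 : (FreeGroup.of (0 : Fin 10)) * FreeGroup.of 0 = 1 := by
    nth_rewrite 1 [h1]
    rw [inv_mul_cancel]
  have h3 := congrArg (FreeGroup.lift (fun _ : Fin 10 => Multiplicative.ofAdd (1 : ℤ))) h2
  simp only [map_mul, FreeGroup.lift_apply_of, map_one] at h3
  rw [← ofAdd_add] at h3
  exact absurd (ofAdd_eq_one.1 h3) (by norm_num)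

/-- The acting group. -/
abbrev ZZ : Type := Subgroup.zpowers theta

/-- The base group. -/
abbrev G0 : Type := SemidirectProduct FF ZZ (Subgroup.zpowers theta).subtype

instance : Countable G0 := (SemidirectProduct.equivProd (φ := (Subgroup.zpowers theta).subtype)).countable_iff.2 inferInstance

/-- The involution. -/
def sg : G0 := SemidirectProduct.inr ⟨theta, Subgroup.mem_zpowers theta⟩

/-- The generators. -/
def x0 (i : Fin 10) : G0 := SemidirectProduct.inl (FreeGroup.of i)

/-- The free subgroup. -/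
def F0 : Subgroup G0 := (SemidirectProduct.inl : FF →* G0).range

lemma F0_eq : F0 = (SemidirectProduct.rightHom : G0 →* ZZ).ker :=
  SemidirectProduct.range_inl_eq_ker_rightHom

instance F0_normal : F0.Normal := by rw [F0_eq]; infer_instance

lemma sg_mul : sg * sg = 1 := by
  unfold sg
  rw [← map_mul]
  have : (⟨theta, Subgroup.mem_zpowers theta⟩ : ZZ) * ⟨theta, Subgroup.mem_zpowers theta⟩ = 1 :=
    Subtype.ext theta_mul
  rw [this, map_one]

lemma F0_index : F0.index = 2 := by
  rw [F0_eq, Subgroup.index_ker, MonoidHom.range_eq_top.2 SemidirectProduct.rightHom_surjective,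
    Subgroup.card_top, Nat.card_zpowers]
  exact orderOf_eq_prime (by rw [pow_two]; exact theta_mul) theta_ne

lemma sg_notMem : sg ∉ F0 := by
  rw [F0_eq, MonoidHom.mem_ker, sg, SemidirectProduct.rightHom_inr]
  intro h
  exact theta_ne (congrArg Subtype.val h)

lemma F0_closure : Subgroup.closure (Set.range x0) = F0 := by
  have h1 : Set.range x0 = (SemidirectProduct.inl : FF →* G0) '' Set.range FreeGroup.of := by
    rw [← Set.range_comp]; rfl
  rw [h1, ← MonoidHom.map_closure, FreeGroup.closure_range_of, ← MonoidHom.range_eq_map]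
  rfl

lemma sg_conj (i : Fin 10) : sg * x0 i * sg⁻¹ = (x0 i)⁻¹ := by
  unfold sg x0
  rw [← map_inv SemidirectProduct.inr, ← SemidirectProduct.inl_aut]
  change SemidirectProduct.inl (theta (FreeGroup.of i)) = _
  rw [theta_of, map_inv]

lemma gen_G0 {A : Subgroup G0} (h1 : ∀ i, x0 i ∈ A) (h2 : sg ∈ A) : A = ⊤ := by
  have h3 : F0 ≤ A := by
    rw [← F0_closure, Subgroup.closure_le]
    rintro _ ⟨i, rfl⟩
    exact h1 i
  rw [eq_top_iff]
  intro x _
  rw [← SemidirectProduct.inl_left_mul_inr_right x]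
  refine A.mul_mem (h3 ⟨x.left, rfl⟩) ?_
  obtain ⟨n, hn⟩ := Subgroup.mem_zpowers_iff.1 x.right.2
  have h4 : x.right = (⟨theta, Subgroup.mem_zpowers theta⟩ : ZZ) ^ n := Subtype.ext (by
    rw [← hn]; simp)
  rw [h4, map_zpow]
  exact A.zpow_mem h2 n

lemma FG_G0 : Group.FG G0 := by
  rw [Group.fg_iff]
  refine ⟨Set.range x0 ∪ {sg}, gen_G0 (fun i => ?_) ?_, (Set.finite_range _).union (Set.finite_singleton _)⟩
  · exact Subgroup.subset_closure (Or.inl ⟨i, rfl⟩)
  · exact Subgroup.subset_closure (Or.inr rfl)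

/-- The base of the construction. -/
theorem base : ∃ N : Subgroup G0, N.Normal ∧ ∀ (G' : Type) [Group G'] (f : G0 →* G'),
    Function.Surjective f → f.ker = N → Good (ZMod 3) 3 (f sg) (F0.map f) := by
  have : Fact (Nat.Prime 3) := ⟨Nat.prime_three⟩
  obtain ⟨C, hD, hinv⟩ := freeCert (k := ZMod 3) x0 F0 F0_closure
    (fun s hs h => free_G (SemidirectProduct.inl : FF →* G0) SemidirectProduct.inl_injective s hs h)
    F0_normal
  refine ⟨Subgroup.normalClosure (Set.range (fun i => x0 i ^ 3)), Subgroup.normalClosure_normal,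
    fun G' _ f hf hker => ?_⟩
  have hx0 : ∀ i, x0 i ∈ F0 := fun i => by
    rw [← F0_closure]; exact Subgroup.subset_closure ⟨i, rfl⟩
  have hkF : f.ker ≤ F0 := by
    rw [hker]
    refine Subgroup.normalClosure_le_normal ?_
    rintro _ ⟨a, rfl⟩
    exact F0.pow_mem (hx0 a) 3
  have hrange : f.range = ⊤ := MonoidHom.range_eq_top.2 hf
  obtain ⟨C', -, hD', -, hinv'⟩ := C.kill f hf (by rw [F0_index]; norm_num) hinv
    (fun i => x0 i ^ 3) hker (fun i => F0.pow_mem (hx0 i) 3) (fun _ => 3) (fun _ => by norm_num)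
    (fun i => by
      rw [dx_pow_char (k := ZMod 3) 3]
      have h1 := pow_mem_J C (C.one _ (hx0 i)) 3
      exact h1)
  have hidx : (F0.map f).index = 2 := by
    rw [Subgroup.index_map, hrange, Subgroup.index_top, mul_one, sup_eq_left.2 hkF, F0_index]
  refine ⟨F0.map f, C', 1 / 5, ?_, ?_, F0_normal.map f hf, hidx, ?_, le_rfl,
    F0_normal.map f hf, by rw [hidx]; norm_num, fun x hx => ⟨0, by simpa using hx⟩, hinv',
    by norm_num, by norm_num, ?_⟩
  · rw [← map_mul, sg_mul, map_one]
  · rintro ⟨x, hx, hxσ⟩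
    refine sg_notMem ?_
    have h1 : sg * x⁻¹ ∈ f.ker := by
      rw [MonoidHom.mem_ker, map_mul, map_inv, hxσ, mul_inv_cancel]
    have h2 := F0.mul_mem (hkF h1) hx
    simpa using h2
  · set A : Subgroup G' := Subgroup.normalClosure {f sg} with hA
    have hAn : A.Normal := Subgroup.normalClosure_normal
    have hσA : f sg ∈ A := Subgroup.subset_normalClosure rfl
    have h1 : A.comap f = ⊤ := by
      refine gen_G0 (fun i => ?_) hσA
      rw [Subgroup.mem_comap]
      have h2 : f (x0 i) ^ 3 = 1 := by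
        rw [← map_pow, ← MonoidHom.mem_ker, hker]
        exact Subgroup.subset_normalClosure ⟨i, rfl⟩
      have h3 : f sg * f (x0 i) * (f sg)⁻¹ = (f (x0 i))⁻¹ := by
        rw [← map_inv f sg, ← map_mul, ← map_mul, sg_conj, map_inv]
      have h4 : f (x0 i) * (f sg) * (f (x0 i))⁻¹ * (f sg)⁻¹ ∈ A :=
        A.mul_mem (hAn.conj_mem _ hσA _) (A.inv_mem hσA)
      have h5 : f (x0 i) * (f sg) * (f (x0 i))⁻¹ * (f sg)⁻¹ = f (x0 i) ^ 2 := by
        have h6 : f sg * (f (x0 i))⁻¹ * (f sg)⁻¹ = f (x0 i) := by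
          have := congrArg (fun z => z⁻¹) h3
          simp only [mul_inv_rev, inv_inv] at this
          rw [← mul_assoc] at this
          exact this
        calc f (x0 i) * (f sg) * (f (x0 i))⁻¹ * (f sg)⁻¹
            = f (x0 i) * (f sg * (f (x0 i))⁻¹ * (f sg)⁻¹) := by group
          _ = f (x0 i) ^ 2 := by rw [h6, pow_two]
      rw [h5] at h4
      have h7 : f (x0 i) = (f (x0 i) ^ 2) ^ 2 := by
        calc f (x0 i) = f (x0 i) ^ 3 * f (x0 i) := by rw [h2, one_mul]
          _ = _ := by group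
      rw [h7]
      exact A.pow_mem h4 2
    have h2 := Subgroup.map_comap_eq_self_of_surjective hf A
    rw [h1, Subgroup.map_top_of_surjective _ hf] at h2
    exact h2.symm
  · rw [hD', hD, F0_index]
    simp
    norm_num

end Pool.Agent.Helper904.GS
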