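import Mathlib

set_option autoImplicit false

namespace Pool.Agent.Helper904.GS

open Finset

/-- The group algebra over the field `k`. -/
abbrev GA (k : Type) [Field k] (G : Type) [Group G] : Type := MonoidAlgebra k G

section basic

variable {k : Type} [Field k] {G : Type} [Group G]

/-- A group element inside the group algebra. -/
noncomputable def o (g : G) : GA k G := MonoidAlgebra.of k G g

/-- `g - 1` inside the group algebra. -/
noncomputable def dx (g : G) : GA k G := o g - 1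

lemma o_one : (o (1 : G) : GA k G) = 1 := by simp [o, MonoidAlgebra.one_def]

lemma o_mul (g h : G) : (o (g * h) : GA k G) = o g * o h := by
  simp only [o, map_mul]

lemma o_pow (g : G) (n : ℕ) : (o (g ^ n) : GA k G) = o g ^ n := by
  simp only [o, map_pow]

lemma o_mul_inv (g : G) : (o g : GA k G) * o g⁻¹ = 1 := by
  rw [← o_mul, mul_inv_cancel, o_one]

lemma o_inv_mul (g : G) : (o g⁻¹ : GA k G) * o g = 1 := by
  rw [← o_mul, inv_mul_cancel, o_one]

lemma dx_one : (dx (1 : G) : GA k G) = 0 := by rw [dx, o_one, sub_self]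

lemma o_eq (g : G) : (o g : GA k G) = 1 + dx g := by rw [dx]; abel

lemma dx_mul (g h : G) : (dx (g * h) : GA k G) = dx g + o g * dx h := by
  simp only [dx, o_mul]; noncomm_ring

lemma dx_mul' (g h : G) : (dx (g * h) : GA k G) = dx g * o h + dx h := by
  simp only [dx, o_mul]; noncomm_ring

lemma dx_inv (g : G) : (dx g⁻¹ : GA k G) = - (o g⁻¹ * dx g) := by
  simp only [dx, mul_sub, o_inv_mul]; noncomm_ring

/-- The augmentation. -/
noncomputable def aug : GA k G →ₐ[k] k :=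
  MonoidAlgebra.lift k k G (1 : G →* k)

lemma aug_o (g : G) : aug (o g : GA k G) = 1 := by
  simp [aug, o]

lemma aug_dx (g : G) : aug (dx g : GA k G) = 0 := by
  simp [dx, aug_o]

/-- The group algebra of a subgroup, inside the big group algebra. -/
noncomputable def BK (K : Subgroup G) : Submodule k (GA k G) :=
  Submodule.span k (o '' (K : Set G))

lemma o_mem_BK {K : Subgroup G} {g : G} (h : g ∈ K) : (o g : GA k G) ∈ BK K :=
  Submodule.subset_span ⟨g, h, rfl⟩

lemma one_mem_BK (K : Subgroup G) : (1 : GA k G) ∈ BK K := by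
  rw [← o_one]; exact o_mem_BK K.one_mem

lemma dx_mem_BK {K : Subgroup G} {g : G} (h : g ∈ K) : (dx g : GA k G) ∈ BK K :=
  Submodule.sub_mem _ (o_mem_BK h) (one_mem_BK K)

lemma BK_mono {K L : Subgroup G} (h : K ≤ L) : (BK K : Submodule k (GA k G)) ≤ BK L :=
  Submodule.span_mono (Set.image_mono h)

lemma mul_mem_BK {K : Subgroup G} {x y : GA k G} (hx : x ∈ BK K) (hy : y ∈ BK K) :
    x * y ∈ BK K := by
  unfold BK at *
  induction hx, hy using Submodule.span_induction₂ with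
  | mem_mem x y hx hy =>
    obtain ⟨g, hg, rfl⟩ := hx
    obtain ⟨h, hh, rfl⟩ := hy
    rw [← o_mul]
    exact Submodule.subset_span ⟨g * h, K.mul_mem hg hh, rfl⟩
  | zero_left y hy => rw [zero_mul]; exact Submodule.zero_mem _
  | zero_right x hx => rw [mul_zero]; exact Submodule.zero_mem _
  | add_left x y z _ _ _ h1 h2 => rw [add_mul]; exact Submodule.add_mem _ h1 h2
  | add_right x y z _ _ _ h1 h2 => rw [mul_add]; exact Submodule.add_mem _ h1 h2
  | smul_left r x y _ _ h => rw [smul_mul_assoc]; exact Submodule.smul_mem _ _ h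
  | smul_right r x y _ _ h => rw [mul_smul_comm]; exact Submodule.smul_mem _ _ h

/-- Left combinations of the elements `x i` with coefficients from `S i`. -/
def comb {ι : Type} [Fintype ι] (x : ι → GA k G) (S : ι → Submodule k (GA k G)) :
    Submodule k (GA k G) where
  carrier := {y | ∃ c : ι → GA k G, (∀ i, c i ∈ S i) ∧ y = ∑ i, c i * x i}
  zero_mem' := ⟨fun _ => 0, fun i => (S i).zero_mem, by simp⟩
  add_mem' := by
    rintro a b ⟨c, hc, rfl⟩ ⟨d, hd, rfl⟩
    refine ⟨fun i => c i + d i, fun i => (S i).add_mem (hc i) (hd i), ?_⟩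
    simp [add_mul, Finset.sum_add_distrib]
  smul_mem' := by
    rintro t a ⟨c, hc, rfl⟩
    refine ⟨fun i => t • c i, fun i => (S i).smul_mem t (hc i), ?_⟩
    simp [Finset.smul_sum]

lemma mem_comb {ι : Type} [Fintype ι] (x : ι → GA k G) (S : ι → Submodule k (GA k G))
    (y : GA k G) : y ∈ comb x S ↔ ∃ c : ι → GA k G, (∀ i, c i ∈ S i) ∧ y = ∑ i, c i * x i :=
  Iff.rfl

lemma single_mem_comb {ι : Type} [Fintype ι] (x : ι → GA k G)
    (S : ι → Submodule k (GA k G)) (i : ι) {c : GA k G} (hc : c ∈ S i) :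
    c * x i ∈ comb x S := by
  classical
  refine ⟨Pi.single i c, fun j => ?_, ?_⟩
  · by_cases h : j = i
    · subst h; simpa using hc
    · simp [h]
  · rw [Finset.sum_eq_single i]
    · simp
    · intro j _ hj; simp [hj]
    · simp

end basic

/-- A filtered presentation of the augmentation ideal of the group algebra of `K`. -/
structure Cert (k : Type) [Field k] {G : Type} [Group G] (K : Subgroup G) where
  ι : Type
  κ : Type
  fι : Fintype ι
  fκ : Fintype κ
  g : ι → G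
  e : ι → ℕ
  r : κ → ι → GA k G
  d : κ → ℕ
  J : ℕ → Submodule k (GA k G)
  g_mem : ∀ i, g i ∈ K
  e_pos : ∀ i, 1 ≤ e i
  J_zero : J 0 = BK K
  J_anti : Antitone J
  J_mul : ∀ a b x y, x ∈ J a → y ∈ J b → x * y ∈ J (a + b)
  x_mem : ∀ i, dx (g i) ∈ J (e i)
  one : ∀ h ∈ K, dx h ∈ J 1
  gen : ∀ n, 1 ≤ n → ∀ x ∈ J n, ∃ c : ι → GA k G,
    (∀ i, c i ∈ J (n - e i)) ∧ x = ∑ i, c i * dx (g i)
  r_mem : ∀ a i, r a i ∈ J (d a - e i)
  r_syz : ∀ a, ∑ i, r a i * dx (g i) = 0
  r_gen : ∀ s : ι → GA k G, (∀ i, s i ∈ J 0) → ∑ i, s i * dx (g i) = 0 →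
    ∃ c : κ → GA k G, (∀ a, c a ∈ J 0) ∧ ∀ i, s i = ∑ a, c a * r a i

attribute [instance] Cert.fι Cert.fκ

namespace Cert

variable {k : Type} [Field k] {G : Type} [Group G] {K : Subgroup G} (C : Cert k K)

lemma J_le {a b : ℕ} (h : a ≤ b) {x : GA k G} (hx : x ∈ C.J b) : x ∈ C.J a := C.J_anti h hx

lemma J_sub0 {n : ℕ} {x : GA k G} (hx : x ∈ C.J n) : x ∈ C.J 0 := C.J_anti (Nat.zero_le n) hx

lemma J_mul' {a b n : ℕ} (h : n ≤ a + b) {x y : GA k G} (hx : x ∈ C.J a) (hy : y ∈ C.J b) :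
    x * y ∈ C.J n := C.J_anti h (C.J_mul a b x y hx hy)

lemma one_mem : (1 : GA k G) ∈ C.J 0 := by rw [C.J_zero]; exact one_mem_BK K

lemma o_mem {a : G} (h : a ∈ K) : (o a : GA k G) ∈ C.J 0 := by rw [C.J_zero]; exact o_mem_BK h

lemma mul_left_mem {n : ℕ} {x y : GA k G} (hx : x ∈ C.J 0) (hy : y ∈ C.J n) :
    x * y ∈ C.J n := C.J_mul' (by omega) hx hy

lemma mul_right_mem {n : ℕ} {x y : GA k G} (hx : x ∈ C.J n) (hy : y ∈ C.J 0) :
    x * y ∈ C.J n := C.J_mul' (by omega) hx hy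

lemma aug_zero {x : GA k G} (hx : x ∈ C.J 1) : aug x = 0 := by
  obtain ⟨c, -, rfl⟩ := C.gen 1 le_rfl x hx
  simp [map_sum, aug_dx]

/-- Weight of the generators. -/
noncomputable def W (t : ℝ) : ℝ := ∑ i, t ^ C.e i

/-- Weight of the relations. -/
noncomputable def WR (t : ℝ) : ℝ := ∑ a, t ^ C.d a

/-- The excess. -/
noncomputable def D (t : ℝ) : ℝ := C.W t - 1 - C.WR t

/-- The dimension subgroup of level `n`. -/
def DS (n : ℕ) : Subgroup G where
  carrier := {a | a ∈ K ∧ dx a ∈ C.J n}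
  one_mem' := ⟨K.one_mem, by rw [dx_one]; exact Submodule.zero_mem _⟩
  mul_mem' := by
    rintro a b ⟨ha, ha'⟩ ⟨hb, hb'⟩
    refine ⟨K.mul_mem ha hb, ?_⟩
    rw [dx_mul]
    exact Submodule.add_mem _ ha' (C.mul_left_mem (C.o_mem ha) hb')
  inv_mem' := by
    rintro a ⟨ha, ha'⟩
    refine ⟨K.inv_mem ha, ?_⟩
    rw [dx_inv]
    exact Submodule.neg_mem _ (C.mul_left_mem (C.o_mem (K.inv_mem ha)) ha')

lemma mem_DS {n : ℕ} {a : G} : a ∈ C.DS n ↔ a ∈ K ∧ dx a ∈ C.J n := Iff.rfl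

lemma DS_le (n : ℕ) : C.DS n ≤ K := fun _ h => h.1

lemma DS_anti {m n : ℕ} (h : m ≤ n) : C.DS n ≤ C.DS m := fun _ hk => ⟨hk.1, C.J_anti h hk.2⟩

lemma DS_one : C.DS 1 = K := le_antisymm (C.DS_le 1) fun k hk => ⟨hk, C.one k hk⟩

end Cert

end Pool.Agent.Helper904.GS
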