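import Pool.Agent.Helper904.GS.Level

set_option autoImplicit false

namespace Pool.Agent.Helper904.GS

open Finset

lemma index_pow {G : Type} [Group G] {p : ℕ} [Fact p.Prime] {M L : Subgroup G}
    (hn : (L.subgroupOf M).Normal) (hfin : (L.subgroupOf M).index ≠ 0)
    (hpow : ∀ m ∈ M, m ^ p ∈ L) : ∃ s, (L.subgroupOf M).index = p ^ s := by
  have : Finite (M ⧸ L.subgroupOf M) := Nat.finite_of_card_ne_zero hfin
  have h1 : IsPGroup p (M ⧸ L.subgroupOf M) := by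
    intro x
    obtain ⟨m, rfl⟩ := QuotientGroup.mk_surjective x
    refine ⟨1, ?_⟩
    rw [pow_one, ← QuotientGroup.mk_pow, QuotientGroup.eq_one_iff, Subgroup.mem_subgroupOf]
    exact hpow m m.2
  exact IsPGroup.iff_card.1 h1

namespace Cert

variable {k : Type} [Field k] {G : Type} [Group G] {K : Subgroup G} (C : Cert k K)

lemma DS_conj {n : ℕ} {h x : G} (hh : h ∈ K) (hx : x ∈ C.DS n) : h * x * h⁻¹ ∈ C.DS n := by
  refine ⟨K.mul_mem (K.mul_mem hh hx.1) (K.inv_mem hh), ?_⟩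
  rw [dx_conj]
  exact C.mul_right_mem (C.mul_left_mem (C.o_mem hh) hx.2) (C.o_mem (K.inv_mem hh))

lemma DS_inv {σ : G} (hσK : ∀ h ∈ K, σ * h * σ⁻¹ ∈ K) (hinv : C.InvAt σ) {n : ℕ} {x : G}
    (hx : x ∈ C.DS n) : σ * x * σ⁻¹ ∈ C.DS n := by
  refine ⟨hσK _ hx.1, ?_⟩
  rw [dx_conj]
  exact hinv n _ hx.2

lemma DS_comm {n : ℕ} (hn : 1 ≤ n) {a b : G} (ha : a ∈ C.DS n) (hb : b ∈ C.DS n) :
    a * b * a⁻¹ * b⁻¹ ∈ C.DS (n + 1) := by
  refine ⟨K.mul_mem (K.mul_mem (K.mul_mem ha.1 hb.1) (K.inv_mem ha.1)) (K.inv_mem hb.1), ?_⟩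
  have e1 : (dx (a * b * a⁻¹ * b⁻¹) : GA k G) = (dx a * dx b - dx b * dx a) * o (a⁻¹ * b⁻¹) := by
    have e2 : (o (a * b * a⁻¹ * b⁻¹) : GA k G) = o a * o b * o (a⁻¹ * b⁻¹) := by
      rw [← o_mul, ← o_mul]; congr 1; group
    have e3 : (1 : GA k G) = o b * o a * o (a⁻¹ * b⁻¹) := by
      rw [← o_mul, ← o_mul, ← o_one]; congr 1; group
    rw [dx, e2, dx, dx]
    conv_lhs => rw [e3]
    noncomm_ring
  rw [e1]
  exact C.mul_right_mem (Submodule.sub_mem _ (C.J_mul' (by omega) ha.2 hb.2)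
    (C.J_mul' (by omega) hb.2 ha.2)) (C.o_mem (K.mul_mem (K.inv_mem ha.1) (K.inv_mem hb.1)))

lemma DS_pow {p : ℕ} [Fact p.Prime] [CharP k p] {n : ℕ} (hn : 1 ≤ n) {a : G}
    (ha : a ∈ C.DS n) : a ^ p ∈ C.DS (n + 1) := by
  have hp2 : 2 ≤ p := (Fact.out : p.Prime).two_le
  refine ⟨K.pow_mem ha.1 p, ?_⟩
  rw [dx_pow_char]
  refine C.J_le ?_ (pow_mem_J C ha.2 p)
  nlinarith

/-- The dimension subgroups have finite index. -/
lemma DS_fin [Finite k] (n : ℕ) : ((C.DS n).subgroupOf K).index ≠ 0 := by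
  have hQ : Finite (C.Q n) := Module.finite_of_finite k
  let f : K → C.Q n := fun h => C.mq n ⟨o (h : G), o_mem_BK h.2⟩
  have hf : ∀ a b : K, f a = f b → (a : K ⧸ (C.DS n).subgroupOf K) = b := by
    intro a b hab
    rw [QuotientGroup.eq, Subgroup.mem_subgroupOf]
    refine ⟨(a⁻¹ * b).2, ?_⟩
    have h1 : C.mq n (⟨o (b : G), o_mem_BK b.2⟩ - ⟨o (a : G), o_mem_BK a.2⟩) = 0 := by
      rw [map_sub, sub_eq_zero]; exact hab.symm
    rw [mq_eq_zero] at h1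
    have h2 : (dx ((a⁻¹ * b : K) : G) : GA k G) = o (a : G)⁻¹ * (o (b : G) - o (a : G)) := by
      rw [mul_sub, o_inv_mul, ← o_mul, dx]; simp
    rw [h2]
    exact C.mul_left_mem (C.o_mem (K.inv_mem a.2)) h1
  have hfin : Finite (K ⧸ (C.DS n).subgroupOf K) := by
    refine Finite.of_surjective (α := Set.range f)
      (fun y => ((y.2.choose : K) : K ⧸ (C.DS n).subgroupOf K)) ?_
    intro x
    obtain ⟨a, rfl⟩ := QuotientGroup.mk_surjective x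
    refine ⟨⟨f a, a, rfl⟩, ?_⟩
    exact hf _ _ (Set.mem_range.1 (⟨f a, a, rfl⟩ : Set.range f).2).choose_spec
  have : (C.DS n).subgroupOf K |>.FiniteIndex := Subgroup.finiteIndex_of_finite_quotient
  exact this.index_ne_zero

/-- The elements fixed by `σ` modulo the next level. -/
def DSp (σ : G) (hσK : ∀ h ∈ K, σ * h * σ⁻¹ ∈ K) (hinv : C.InvAt σ) (n : ℕ) : Subgroup G where
  carrier := {h | h ∈ C.DS n ∧ h⁻¹ * (σ * h * σ⁻¹) ∈ C.DS (n + 1)}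
  one_mem' := ⟨(C.DS n).one_mem, by simpa using (C.DS (n + 1)).one_mem⟩
  mul_mem' := by
    rintro a b ⟨ha, ha'⟩ ⟨hb, hb'⟩
    refine ⟨(C.DS n).mul_mem ha hb, ?_⟩
    have e : (a * b)⁻¹ * (σ * (a * b) * σ⁻¹) =
        (b⁻¹ * (a⁻¹ * (σ * a * σ⁻¹)) * b⁻¹⁻¹) * (b⁻¹ * (σ * b * σ⁻¹)) := by group
    change (a * b)⁻¹ * (σ * (a * b) * σ⁻¹) ∈ C.DS (n + 1)
    rw [e]
    exact (C.DS (n + 1)).mul_mem (C.DS_conj (K.inv_mem hb.1) ha') hb'
  inv_mem' := by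
    rintro a ⟨ha, ha'⟩
    refine ⟨(C.DS n).inv_mem ha, ?_⟩
    have e : (a⁻¹)⁻¹ * (σ * a⁻¹ * σ⁻¹) = a * (a⁻¹ * (σ * a * σ⁻¹))⁻¹ * a⁻¹ := by group
    change (a⁻¹)⁻¹ * (σ * a⁻¹ * σ⁻¹) ∈ C.DS (n + 1)
    rw [e]
    exact C.DS_conj ha.1 ((C.DS (n + 1)).inv_mem ha')

section chain

variable (σ : G) (hσK : ∀ h ∈ K, σ * h * σ⁻¹ ∈ K) (hinv : C.InvAt σ)

lemma DSp_le (n : ℕ) : C.DSp σ hσK hinv n ≤ C.DS n := fun _ h => h.1

lemma le_DSp (n : ℕ) : C.DS (n + 1) ≤ C.DSp σ hσK hinv n := fun h hh =>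
  ⟨C.DS_anti (Nat.le_succ n) hh,
    (C.DS (n + 1)).mul_mem ((C.DS (n + 1)).inv_mem hh) (C.DS_inv hσK hinv hh)⟩

lemma rel_fin [Finite k] (n : ℕ) : ((C.DS (n + 1)).subgroupOf (C.DS n)).index ≠ 0 := by
  have h1 : (C.DS (n + 1)).relIndex (C.DS n) * (C.DS n).relIndex K = (C.DS (n + 1)).relIndex K :=
    Subgroup.relIndex_mul_relIndex _ _ K (C.DS_anti (Nat.le_succ n)) (C.DS_le n)
  have h2 : (C.DS (n + 1)).relIndex K ≠ 0 := C.DS_fin (n + 1)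
  intro h3
  apply h2
  rw [← h1]
  change ((C.DS (n + 1)).subgroupOf (C.DS n)).index * _ = 0
  rw [h3, zero_mul]

lemma exists_oq [Finite k] {p : ℕ} [Fact p.Prime] [CharP k p] (n : ℕ) (hn : 1 ≤ n) :
    ∃ o q : ℕ, ((C.DSp σ hσK hinv n).subgroupOf (C.DS n)).Normal ∧
      ((C.DSp σ hσK hinv n).subgroupOf (C.DS n)).index = p ^ o ∧
      ((C.DS (n + 1)).subgroupOf (C.DSp σ hσK hinv n)).Normal ∧
      ((C.DS (n + 1)).subgroupOf (C.DSp σ hσK hinv n)).index = p ^ q := by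
  have h1 : (C.DS (n + 1)).relIndex (C.DSp σ hσK hinv n) * (C.DSp σ hσK hinv n).relIndex (C.DS n)
      = (C.DS (n + 1)).relIndex (C.DS n) :=
    Subgroup.relIndex_mul_relIndex _ _ _ (C.le_DSp σ hσK hinv n) (C.DSp_le σ hσK hinv n)
  have h2 : (C.DS (n + 1)).relIndex (C.DS n) ≠ 0 := C.rel_fin n
  have hn1 : ((C.DSp σ hσK hinv n).subgroupOf (C.DS n)).Normal := by
    refine ⟨fun x hx g => ?_⟩
    rw [Subgroup.mem_subgroupOf] at hx ⊢
    have e : ((g * x * g⁻¹ : C.DS n) : G) = ((g : G) * x * (g : G)⁻¹ * (x : G)⁻¹) * x := by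
      simp
    rw [e]
    exact Subgroup.mul_mem _ (C.le_DSp σ hσK hinv n (C.DS_comm hn g.2 x.2)) hx
  have hn2 : ((C.DS (n + 1)).subgroupOf (C.DSp σ hσK hinv n)).Normal := by
    refine ⟨fun x hx g => ?_⟩
    rw [Subgroup.mem_subgroupOf] at hx ⊢
    exact C.DS_conj g.2.1.1 hx
  obtain ⟨a, ha⟩ := index_pow (p := p) hn1 (fun h => h2 (by
      rw [← h1]
      change _ * ((C.DSp σ hσK hinv n).subgroupOf (C.DS n)).index = 0
      rw [h, mul_zero]))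
    (fun m hm => C.le_DSp σ hσK hinv n (C.DS_pow hn hm))
  obtain ⟨b, hb⟩ := index_pow (p := p) hn2 (fun h => h2 (by
      rw [← h1]
      change ((C.DS (n + 1)).subgroupOf (C.DSp σ hσK hinv n)).index * _ = 0
      rw [h, zero_mul]))
    (fun m hm => C.DS_pow hn hm.1)
  exact ⟨a, b, hn1, ha, hn2, hb⟩

/-- The chain through the levels. -/
theorem chain [Finite k] {p : ℕ} [Fact p.Prime] [CharP k p] :
    ∃ o q : ℕ → ℕ,
      (∀ n, 1 ≤ n → ((C.DSp σ hσK hinv n).subgroupOf (C.DS n)).index = p ^ o n) ∧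
      ∀ m, ∃ C' : Cert k (C.DS (m + 1)), (∀ n, C'.J n = C.J n ⊓ BK (C.DS (m + 1))) ∧
      (∀ t : ℝ, 0 < t → t ≤ 1 → 0 ≤ C.D t →
        (∏ n ∈ range m, Sf p (n + 1) t ^ o (n + 1)) * (∏ n ∈ range m, Sf p (n + 1) t ^ q (n + 1))
          * C.D t ≤ C'.D t) ∧
      (∀ (Γ : Subgroup G) (t δ : ℝ), 0 < t → t ≤ 1 → 0 ≤ δ → (∀ γ ∈ Γ, σ * γ * σ⁻¹ = γ) →
        YF C Γ t δ → YF C' Γ t ((∏ n ∈ range m, Sf p (n + 1) t ^ q (n + 1)) * δ)) := by
  have hp1 : 1 ≤ p := (Fact.out : p.Prime).one_lt.le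
  have hex : ∀ n, ∃ o q : ℕ, 1 ≤ n → ((C.DSp σ hσK hinv n).subgroupOf (C.DS n)).Normal ∧
      ((C.DSp σ hσK hinv n).subgroupOf (C.DS n)).index = p ^ o ∧
      ((C.DS (n + 1)).subgroupOf (C.DSp σ hσK hinv n)).Normal ∧
      ((C.DS (n + 1)).subgroupOf (C.DSp σ hσK hinv n)).index = p ^ q := by
    intro n
    by_cases hn : 1 ≤ n
    · obtain ⟨o, q, h⟩ := C.exists_oq σ hσK hinv n hn
      exact ⟨o, q, fun _ => h⟩
    · exact ⟨0, 0, fun h => absurd h hn⟩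
  choose oo qq hoq using hex
  refine ⟨oo, qq, fun n hn => (hoq n hn).2.1, ?_⟩
  intro m
  induction m with
  | zero =>
    have h1 : C.DS (0 + 1) = K := C.DS_one
    rw [h1]
    refine ⟨C, fun n => ?_, fun t _ _ _ => by simp, fun Γ t δ _ _ _ _ h => by simpa using h⟩
    rw [← C.J_zero]
    exact (inf_eq_left.2 (C.J_anti (Nat.zero_le n))).symm
  | succ m ih =>
    obtain ⟨C1, hJ1, hD1, hY1⟩ := ih
    obtain ⟨n1, i1, n2, i2⟩ := hoq (m + 1) (by omega)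
    have l1 : ∀ h ∈ C.DS (m + 1), dx h ∈ C1.J (m + 1) := fun h hh => by
      rw [hJ1]; exact ⟨hh.2, dx_mem_BK hh⟩
    have l2 : ∀ h ∈ C.DS (m + 1), dx h ∈ C1.J (m + 1 + 1) → h ∈ C.DSp σ hσK hinv (m + 1) :=
      fun h hh h1 => by
        rw [hJ1] at h1
        exact C.le_DSp σ hσK hinv (m + 1) ⟨hh.1, h1.1⟩
    obtain ⟨C2, hJ2, hD2, -, hY2⟩ := level (p := p) (oo (m + 1)) C1
      (C.DSp_le σ hσK hinv (m + 1)) n1 i1 (by omega) l1 l2
    have l3 : ∀ h ∈ C.DSp σ hσK hinv (m + 1), dx h ∈ C2.J (m + 1) := fun h hh => by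
      rw [hJ2]; exact ⟨l1 h hh.1, dx_mem_BK hh⟩
    have l4 : ∀ h ∈ C.DSp σ hσK hinv (m + 1), dx h ∈ C2.J (m + 1 + 1) → h ∈ C.DS (m + 1 + 1) :=
      fun h hh h1 => by
        rw [hJ2, hJ1] at h1
        exact ⟨hh.1.1, h1.1.1⟩
    obtain ⟨C3, hJ3, hD3, hY3, -⟩ := level (p := p) (qq (m + 1)) C2
      (C.le_DSp σ hσK hinv (m + 1)) n2 i2 (by omega) l3 l4
    refine ⟨C3, fun n => ?_, fun t t0 t1 hD => ?_, fun Γ t δ t0 t1 hδ hΓ Y => ?_⟩
    · rw [hJ3, hJ2, hJ1, inf_assoc, inf_assoc,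
        inf_eq_right.2 (BK_mono (C.le_DSp σ hσK hinv (m + 1))),
        inf_eq_right.2 (BK_mono (C.DS_anti (Nat.le_succ (m + 1))))]
    · have hS := Sf_ge_one hp1 (m + 1) t0
      have hpr1 : 0 ≤ ∏ n ∈ range m, Sf p (n + 1) t ^ oo (n + 1) :=
        Finset.prod_nonneg fun n _ => pow_nonneg (by have := Sf_ge_one hp1 (n + 1) t0; linarith) _
      have hpr2 : 0 ≤ ∏ n ∈ range m, Sf p (n + 1) t ^ qq (n + 1) :=
        Finset.prod_nonneg fun n _ => pow_nonneg (by have := Sf_ge_one hp1 (n + 1) t0; linarith) _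
      have h1 := hD1 t t0 t1 hD
      have h2 : 0 ≤ C1.D t := le_trans (by positivity) h1
      have h3 := hD2 t t0 t1 h2
      have h4 : 0 ≤ C2.D t := le_trans (by positivity) h3
      have h5 := hD3 t t0 t1 h4
      rw [Finset.prod_range_succ, Finset.prod_range_succ]
      have h6 : Sf p (m + 1) t ^ qq (m + 1) * (Sf p (m + 1) t ^ oo (m + 1) * C1.D t)
          ≤ Sf p (m + 1) t ^ qq (m + 1) * C2.D t := mul_le_mul_of_nonneg_left h3 (by positivity)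
      have h7 : Sf p (m + 1) t ^ qq (m + 1) * (Sf p (m + 1) t ^ oo (m + 1) *
          ((∏ n ∈ range m, Sf p (n + 1) t ^ oo (n + 1)) *
            (∏ n ∈ range m, Sf p (n + 1) t ^ qq (n + 1)) * C.D t))
          ≤ Sf p (m + 1) t ^ qq (m + 1) * (Sf p (m + 1) t ^ oo (m + 1) * C1.D t) :=
        mul_le_mul_of_nonneg_left (mul_le_mul_of_nonneg_left h1 (by positivity)) (by positivity)
      calc _ = Sf p (m + 1) t ^ qq (m + 1) * (Sf p (m + 1) t ^ oo (m + 1) *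
          ((∏ n ∈ range m, Sf p (n + 1) t ^ oo (n + 1)) *
            (∏ n ∈ range m, Sf p (n + 1) t ^ qq (n + 1)) * C.D t)) := by ring
        _ ≤ _ := h7.trans (h6.trans h5)
    · have hpr2 : 0 ≤ ∏ n ∈ range m, Sf p (n + 1) t ^ qq (n + 1) :=
        Finset.prod_nonneg fun n _ => pow_nonneg (by have := Sf_ge_one hp1 (n + 1) t0; linarith) _
      have h1 := hY1 Γ t δ t0 t1 hδ hΓ Y
      have h2 : Γ ⊓ C.DS (m + 1) ≤ C.DSp σ hσK hinv (m + 1) := by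
        rintro γ ⟨hγ, hγ'⟩
        refine ⟨hγ', ?_⟩
        rw [hΓ γ hγ, inv_mul_cancel]
        exact Subgroup.one_mem _
      have h3 := hY2 Γ t _ h2 h1
      have h4 := hY3 Γ t _ t0 t1 (mul_nonneg hpr2 hδ) h3
      refine h4.mono (le_of_eq ?_)
      rw [Finset.prod_range_succ]; ring

end chain

end Cert

end Pool.Agent.Helper904.GS
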