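import Pool.Agent.Helper904.GS.Chain

set_option autoImplicit false

namespace Pool.Agent.Helper904.GS

open Finset
open scoped commutatorElement

/-- A form of the theorem of Schur. -/
lemma schur_bound {H : Type} [Group H] [Finite H] (A : Subgroup H) (hA : A ≤ Subgroup.center H)
    (I : ℕ) (hI : A.index ≤ I) : Nat.card (commutator H) ≤ I ^ (I * (I * I) + 1) := by
  have hZ : (Subgroup.center H).index ≤ A.index :=
    Nat.le_of_dvd (Nat.pos_of_ne_zero Subgroup.FiniteIndex.index_ne_zero)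
      (Subgroup.index_dvd_of_le hA)
  have hZI := hZ.trans hI
  have hpos : 0 < (Subgroup.center H).index := Nat.pos_of_ne_zero Subgroup.FiniteIndex.index_ne_zero
  have h1 := Subgroup.card_commutator_dvd_index_center_pow H
  have h2 : Nat.card (commutatorSet H) ≤ (Subgroup.center H).index * (Subgroup.center H).index := by
    let F : (H ⧸ Subgroup.center H) × (H ⧸ Subgroup.center H) → commutatorSet H := fun x =>
      ⟨⁅x.1.out, x.2.out⁆, commutator_mem_commutatorSet _ _⟩
    have hF : Function.Surjective F := by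
      rintro ⟨g, hg⟩
      obtain ⟨a, b, rfl⟩ := hg
      refine ⟨((a : H ⧸ Subgroup.center H), (b : H ⧸ Subgroup.center H)), Subtype.ext ?_⟩
      obtain ⟨z, hz⟩ := QuotientGroup.mk_out_eq_mul (Subgroup.center H) a
      obtain ⟨w, hw⟩ := QuotientGroup.mk_out_eq_mul (Subgroup.center H) b
      change ⁅Quotient.out (a : H ⧸ Subgroup.center H), Quotient.out (b : H ⧸ Subgroup.center H)⁆ = ⁅a, b⁆
      have hz' := Subgroup.mem_center_iff.1 z.2
      have hw' := Subgroup.mem_center_iff.1 w.2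
      have e1 : (Quotient.out (a : H ⧸ Subgroup.center H)) = a * z := hz
      have e2 : (Quotient.out (b : H ⧸ Subgroup.center H)) = b * w := hw
      rw [e1, e2, commutatorElement_def, commutatorElement_def, mul_inv_rev, mul_inv_rev]
      calc a * (z : H) * (b * w) * ((z : H)⁻¹ * a⁻¹) * ((w : H)⁻¹ * b⁻¹)
          = a * ((z : H) * (b * w)) * (z : H)⁻¹ * a⁻¹ * ((w : H)⁻¹ * b⁻¹) := by group
        _ = a * ((b * w) * z) * (z : H)⁻¹ * a⁻¹ * ((w : H)⁻¹ * b⁻¹) := by rw [hz' (b * w)]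
        _ = a * b * ((w : H) * (a⁻¹ * (w : H)⁻¹)) * b⁻¹ := by group
        _ = a * b * a⁻¹ * b⁻¹ := by
          have : (w : H) * (a⁻¹ * (w : H)⁻¹) = a⁻¹ := by
            rw [← mul_assoc, ← hw' a⁻¹]; group
          rw [this]
    calc Nat.card (commutatorSet H) ≤ Nat.card ((H ⧸ Subgroup.center H) × (H ⧸ Subgroup.center H)) :=
          Nat.card_le_card_of_surjective F hF
      _ = _ := by rw [Nat.card_prod]; rfl
  refine (Nat.le_of_dvd (pow_pos hpos _) h1).trans ?_
  calc (Subgroup.center H).index ^ ((Subgroup.center H).index * Nat.card (commutatorSet H) + 1)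
      ≤ I ^ ((Subgroup.center H).index * Nat.card (commutatorSet H) + 1) :=
        Nat.pow_le_pow_left hZI _
    _ ≤ I ^ (I * (I * I) + 1) := by
        refine Nat.pow_le_pow_right (by omega) ?_
        have h3 : Nat.card (commutatorSet H) ≤ I * I := h2.trans (Nat.mul_le_mul hZI hZI)
        have := Nat.mul_le_mul hZI h3
        omega

/-- The order of a finite group generated by the conjugates of an involution. -/
lemma card_le_two_mul {H : Type} [Group H] [Finite H] (τ : H) (hτ : τ * τ = 1)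
    (hnc : Subgroup.normalClosure {τ} = ⊤) : Nat.card H ≤ Nat.card (commutator H) * 2 := by
  have hN : ((commutator H) ⊔ Subgroup.zpowers τ).Normal := by
    refine ⟨fun x hx g => ?_⟩
    have e : g * x * g⁻¹ = ⁅g, x⁆ * x := by rw [commutatorElement_def]; group
    rw [e]
    refine Subgroup.mul_mem _ (Subgroup.mem_sup_left ?_) hx
    exact Subgroup.commutator_mem_commutator (Subgroup.mem_top g) (Subgroup.mem_top x)
  have htop : (commutator H) ⊔ Subgroup.zpowers τ = ⊤ := by
    rw [eq_top_iff, ← hnc]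
    refine Subgroup.normalClosure_le_normal ?_
    rintro x rfl
    exact Subgroup.mem_sup_right (Subgroup.mem_zpowers _)
  let F : (commutator H) × Bool → H := fun x => (x.1 : H) * (if x.2 then τ else 1)
  have hF : Function.Surjective F := by
    intro h
    have hh : h ∈ (commutator H) ⊔ Subgroup.zpowers τ := by rw [htop]; trivial
    rw [Subgroup.mem_sup_of_normal_left] at hh
    obtain ⟨c, hc, z, hz, rfl⟩ := hh
    obtain ⟨n, rfl⟩ := Subgroup.mem_zpowers_iff.1 hz
    have hτ2 : τ ^ (2 : ℤ) = 1 := by rw [zpow_two, hτ]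
    rcases Int.even_or_odd' n with ⟨m, rfl | rfl⟩
    · exact ⟨(⟨c, hc⟩, false), by simp [F, zpow_mul, hτ2]⟩
    · exact ⟨(⟨c, hc⟩, true), by simp [F, zpow_add, zpow_mul, hτ2]⟩
  calc Nat.card H ≤ Nat.card ((commutator H) × Bool) := Nat.card_le_card_of_surjective F hF
    _ = _ := by rw [Nat.card_prod]; simp

lemma card_bound {H : Type} [Group H] [Finite H] (τ : H) (hτ : τ * τ = 1)
    (hnc : Subgroup.normalClosure {τ} = ⊤) (A : Subgroup H) [hAn : A.Normal] (I : ℕ)
    (hI : A.index ≤ I) (hA : ∀ a ∈ A, τ * a = a * τ) :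
    Nat.card H ≤ I ^ (I * (I * I) + 1) * 2 := by
  have hc : A ≤ Subgroup.center H := by
    have h1 : Subgroup.normalClosure {τ} ≤ Subgroup.centralizer (A : Set H) := by
      refine Subgroup.normalClosure_le_normal ?_
      rintro x rfl
      rw [SetLike.mem_coe, Subgroup.mem_centralizer_iff]
      exact fun a ha => (hA a ha).symm
    intro a ha
    rw [Subgroup.mem_center_iff]
    intro g
    have h2 : g ∈ Subgroup.centralizer (A : Set H) := h1 (by rw [hnc]; trivial)
    rw [Subgroup.mem_centralizer_iff] at h2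
    exact (h2 a ha).symm
  exact (card_le_two_mul τ hτ hnc).trans (Nat.mul_le_mul_right 2 (schur_bound A hc I hI))

/-- Generators of an elementary abelian section. -/
lemma gen_list {G : Type} [Group G] {p : ℕ} [Fact p.Prime] (s : ℕ) : ∀ {K L : Subgroup G}
    (_ : L ≤ K) (_ : (L.subgroupOf K).Normal) (_ : (L.subgroupOf K).index = p ^ s)
    (_ : ∀ a ∈ K, ∀ b ∈ K, a * b * a⁻¹ * b⁻¹ ∈ L),
    ∃ τ : Fin s → G, (∀ i, τ i ∈ K) ∧ K ≤ L ⊔ Subgroup.closure (Set.range τ) := by
  induction s with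
  | zero =>
    intro K L hLK hn hi hc
    have h1 : K ≤ L := by
      rwa [pow_zero, Subgroup.index_eq_one, Subgroup.subgroupOf_eq_top] at hi
    exact ⟨fun i => i.elim0, fun i => i.elim0, h1.trans le_sup_left⟩
  | succ s ih =>
    intro K L hLK hn hi hc
    obtain ⟨M, hLM, hMK, hMn, hMi, hLi⟩ := exists_mid hLK hn s hi hc
    have hLn : (L.subgroupOf M).Normal := by
      refine ⟨fun x hx g => ?_⟩
      rw [Subgroup.mem_subgroupOf] at hx ⊢
      exact hn.conj_mem ⟨x, hMK x.2⟩ (Subgroup.mem_subgroupOf.2 hx) ⟨g, hMK g.2⟩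
    obtain ⟨τ, hτM, hτ⟩ := ih hLM hLn hLi (fun a ha b hb => hc a (hMK ha) b (hMK hb))
    have hp : p.Prime := Fact.out
    obtain ⟨x, hxK, hxM⟩ : ∃ x ∈ K, x ∉ M := by
      by_contra hcon
      push Not at hcon
      have h1 : M.subgroupOf K = ⊤ := Subgroup.subgroupOf_eq_top.2 hcon
      rw [h1, Subgroup.index_top] at hMi
      exact hp.one_lt.ne hMi
    obtain ⟨hcov, -, -, -⟩ := idx_facts hMK hMn hMi hxK hxM
    refine ⟨Fin.cons x τ, fun i => ?_, ?_⟩
    · refine Fin.cases ?_ (fun i => ?_) i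
      · exact hxK
      · exact hMK (hτM i)
    · intro h hh
      obtain ⟨l, hl, i, -, rfl⟩ := hcov h hh
      refine Subgroup.mul_mem _ ?_ (Subgroup.mem_sup_right (Subgroup.pow_mem _ ?_ i))
      · refine sup_le_sup_left ?_ L (hτ hl)
        refine Subgroup.closure_mono ?_
        rintro _ ⟨i, rfl⟩
        exact ⟨i.succ, by simp⟩
      · exact Subgroup.subset_closure ⟨0, by simp⟩

namespace Cert

variable {k : Type} [Field k] {G : Type} [Group G] {K : Subgroup G} (C : Cert k K)

lemma c_le_index (n : ℕ) (L : Subgroup G) (hfin : (L.subgroupOf K).index ≠ 0)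
    (hL : ∀ l ∈ L, dx l ∈ C.J n) : C.c n ≤ (L.subgroupOf K).index := by
  have : (L.subgroupOf K).FiniteIndex := ⟨hfin⟩
  have : Fintype (K ⧸ L.subgroupOf K) := Fintype.ofFinite _
  let b : (K ⧸ L.subgroupOf K) → C.Q n := fun x => C.mq n ⟨o ((x.out : K) : G), o_mem_BK x.out.2⟩
  have hb : ∀ x : K, C.mq n ⟨o (x : G), o_mem_BK x.2⟩ = b (x : K ⧸ L.subgroupOf K) := by
    intro x
    obtain ⟨l, hl⟩ := QuotientGroup.mk_out_eq_mul (L.subgroupOf K) x
    have e1 : (Quotient.out (x : K ⧸ L.subgroupOf K)) = x * l := hl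
    change _ = C.mq n ⟨o ((Quotient.out (x : K ⧸ L.subgroupOf K) : K) : G), _⟩
    rw [← sub_eq_zero, ← map_sub, mq_eq_zero]
    have e2 : ((x : G) : G) = (x : G) := rfl
    change (o (x : G) : GA k G) - o ((Quotient.out (x : K ⧸ L.subgroupOf K) : K) : G) ∈ C.J n
    rw [e1, Subgroup.coe_mul, o_mul]
    have e3 : (o (x : G) : GA k G) - o (x : G) * o ((l : K) : G) = - (o (x : G) * dx ((l : K) : G)) := by
      rw [dx]; noncomm_ring
    rw [e3]
    exact Submodule.neg_mem _ (C.mul_left_mem (C.o_mem x.2) (hL _ (Subgroup.mem_subgroupOf.1 l.2)))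
  have hspan : Submodule.span k (Set.range b) = ⊤ := by
    rw [eq_top_iff]
    intro y _
    obtain ⟨⟨y, hy⟩, rfl⟩ := C.mq_surj n y
    have key : ∀ z (hz : z ∈ (BK K : Submodule k (GA k G))), C.mq n ⟨z, hz⟩ ∈ Submodule.span k (Set.range b) := by
      intro z hz
      have hz' := hz
      unfold BK at hz'
      induction hz' using Submodule.span_induction with
      | mem x hx =>
        obtain ⟨g, hg, rfl⟩ := hx
        rw [hb ⟨g, hg⟩]
        exact Submodule.subset_span ⟨_, rfl⟩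
      | zero =>
        have : (⟨0, hz⟩ : (BK K : Submodule k (GA k G))) = 0 := rfl
        rw [this, map_zero]; exact Submodule.zero_mem _
      | add x y hx hy h1 h2 =>
        have : (⟨x + y, hz⟩ : (BK K : Submodule k (GA k G))) = ⟨x, hx⟩ + ⟨y, hy⟩ := rfl
        rw [this, map_add]
        exact Submodule.add_mem _ (h1 hx) (h2 hy)
      | smul r x hx h =>
        have : (⟨r • x, hz⟩ : (BK K : Submodule k (GA k G))) = r • ⟨x, hx⟩ := rfl
        rw [this, map_smul]
        exact Submodule.smul_mem _ _ (h hx)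
    exact key y hy
  have h1 : Set.finrank k (Set.range b) ≤ Fintype.card (K ⧸ L.subgroupOf K) := finrank_range_le_card b
  rw [Set.finrank, hspan, finrank_top] at h1
  rw [c, Subgroup.index_eq_card, Nat.card_eq_fintype_card]
  exact h1

lemma inv_map {G' : Type} [Group G'] (f : G →* G') (hf : Function.Surjective f)
    (hinv : ∀ g, C.InvAt g) {K' : Subgroup G'} (C' : Cert k K')
    (hJ : ∀ n, C'.J n = (C.J n).map (ph f).toLinearMap) : ∀ g, C'.InvAt g := by
  intro g n x hx
  obtain ⟨g, rfl⟩ := hf g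
  rw [hJ] at hx ⊢
  obtain ⟨x, hx, rfl⟩ := hx
  refine ⟨o g * x * o g⁻¹, hinv g n x hx, ?_⟩
  simp only [AlgHom.toLinearMap_apply, map_mul, ph_o, map_inv]

/-- Killing a finite family of elements, together with all conjugates. -/
theorem kill {G' : Type} [Group G'] (f : G →* G') (hf : Function.Surjective f) [hKn : K.Normal]
    (hKi : K.index ≠ 0) (hinv : ∀ g, C.InvAt g) {α : Type} [Fintype α] (s : α → G)
    (hker : f.ker = Subgroup.normalClosure (Set.range s)) (hsK : ∀ a, s a ∈ K)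
    (de : α → ℕ) (hde : ∀ a, 1 ≤ de a) (hs : ∀ a, dx (s a) ∈ C.J (de a)) :
    ∃ C' : Cert k (K.map f), (∀ n, C'.J n = (C.J n).map (ph f).toLinearMap) ∧
      (∀ t : ℝ, C'.D t = C.D t - K.index * ∑ a, t ^ de a) ∧
      ∑ i, (C'.e i : ℝ) = ∑ i, (C.e i : ℝ) ∧ ∀ g, C'.InvAt g := by
  have : K.FiniteIndex := ⟨hKi⟩
  have : Fintype (G ⧸ K) := Fintype.ofFinite _
  let S : (G ⧸ K) × α → G := fun x => x.1.out * s x.2 * x.1.out⁻¹
  have hSK : ∀ x, S x ∈ K := fun x => hKn.conj_mem _ (hsK x.2) _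
  have h0 : ∀ x, f (S x) = 1 := by
    intro x
    rw [← MonoidHom.mem_ker, hker]
    have h1 : s x.2 ∈ Subgroup.normalClosure (Set.range s) :=
      Subgroup.subset_normalClosure (Set.mem_range_self x.2)
    exact Subgroup.normalClosure_normal.conj_mem _ h1 _
  have hker' : ∀ n, f n = 1 → n ∈ Subgroup.closure {x | ∃ h ∈ K, ∃ a, x = h * S a * h⁻¹} := by
    intro n hn
    rw [← MonoidHom.mem_ker, hker, Subgroup.normalClosure] at hn
    refine Subgroup.closure_mono ?_ hn
    intro x hx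
    obtain ⟨y, ⟨a, rfl⟩, hy⟩ := Group.mem_conjugatesOfSet_iff.1 hx
    obtain ⟨g, rfl⟩ := isConj_iff.1 hy
    obtain ⟨h, hh⟩ := QuotientGroup.mk_out_eq_mul K g
    have e1 : (Quotient.out (g : G ⧸ K)) = g * h := hh
    refine ⟨g * (h : G)⁻¹ * g⁻¹, hKn.conj_mem _ (K.inv_mem h.2) _, ((g : G ⧸ K), a), ?_⟩
    change g * s a * g⁻¹ = g * (h : G)⁻¹ * g⁻¹ * ((Quotient.out (g : G ⧸ K)) * s a * (Quotient.out (g : G ⧸ K))⁻¹) * (g * (h : G)⁻¹ * g⁻¹)⁻¹
    rw [e1]; group
  obtain ⟨C', hJ, hD, he⟩ := C.quot f hf S hSK h0 hker' (fun x => de x.2) (fun x => hde x.2)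
    (fun x => by
      change dx (x.1.out * s x.2 * x.1.out⁻¹) ∈ _
      rw [dx_conj]
      exact hinv _ _ _ (hs x.2))
  refine ⟨C', hJ, fun t => ?_, he, C.inv_map f hf hinv C' hJ⟩
  rw [hD, Fintype.sum_prod_type]
  simp only [Finset.sum_const, Finset.card_univ, nsmul_eq_mul]
  rw [Subgroup.index_eq_card, Nat.card_eq_fintype_card]

end Cert

end Pool.Agent.Helper904.GS
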