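import Pool.Agent.Helper904.GS.Div1

set_option autoImplicit false

namespace Pool.Agent.Helper904.GS

open Finset
open scoped commutatorElement

/-- The elements commuting with `σ` modulo `P`. -/
def cen {G : Type} [Group G] (P : Subgroup G) [P.Normal] (σ : G) : Subgroup G :=
  (Subgroup.centralizer {(QuotientGroup.mk' P) σ}).comap (QuotientGroup.mk' P)

lemma mem_cen {G : Type} [Group G] (P : Subgroup G) [P.Normal] (σ x : G) :
    x ∈ cen P σ ↔ x⁻¹ * (σ * x * σ⁻¹) ∈ P := by
  rw [cen, Subgroup.mem_comap, Subgroup.mem_centralizer_singleton_iff,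
    ← QuotientGroup.eq_one_iff (N := P)]
  simp only [QuotientGroup.mk'_apply, QuotientGroup.mk_mul, QuotientGroup.mk_inv]
  constructor
  · intro h
    rw [← h]; group
  · intro h
    rw [inv_mul_eq_one, eq_mul_inv_iff_mul_eq] at h
    exact h

lemma le_cen {G : Type} [Group G] (P : Subgroup G) [hP : P.Normal] (σ : G) : P ≤ cen P σ := by
  intro x hx
  rw [mem_cen]
  exact P.mul_mem (P.inv_mem hx) (hP.conj_mem x hx σ)

namespace Cert

variable {k : Type} [Field k] {G : Type} [Group G] {K : Subgroup G} (C : Cert k K)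

lemma DS_normal [hK : K.Normal] (hinv : ∀ g, C.InvAt g) (n : ℕ) : (C.DS n).Normal :=
  ⟨fun x hx g => C.DS_inv (fun h hh => hK.conj_mem h hh g) (hinv g) hx⟩

lemma DS_pow_pow {p : ℕ} [Fact p.Prime] [CharP k p] {n : ℕ} (hn : 1 ≤ n) {a : G}
    (ha : a ∈ C.DS n) (j : ℕ) : a ^ (p ^ j) ∈ C.DS (n + j) := by
  induction j with
  | zero => simpa using ha
  | succ j ih =>
    rw [pow_succ, pow_mul]
    exact C.DS_pow (n := n + j) (by omega) ih

/-- The bound for the killed quotient. -/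
lemma div_aux [Finite k] {p : ℕ} [Fact p.Prime] [CharP k p] (hp2 : p ≠ 2)
    [hKn : K.Normal] (hKi : K.index ≠ 0) (hinv : ∀ g, C.InvAt g) (σ : G) (hσ2 : σ * σ = 1)
    (hnc : Subgroup.normalClosure {σ} = ⊤) (hσK : ∀ h ∈ K, σ * h * σ⁻¹ ∈ K)
    (oo : ℕ → ℕ)
    (hoo : ∀ n, 1 ≤ n → ((C.DSp σ hσK (hinv σ) n).subgroupOf (C.DS n)).index = p ^ oo n)
    (t : ℝ) (t0 : 0 < t) (t1 : t ≤ 1) (m0 M : ℕ) (hM : m0 + 1 ≤ M)
    (hcost : K.index * ∑ n ∈ Finset.Ico m0 M, (oo (n + 1) : ℝ) * t ^ (n + 1) ≤ C.D t) :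
    1 ≤ (((C.DS (m0 + 1)).index ^ ((C.DS (m0 + 1)).index * ((C.DS (m0 + 1)).index *
      (C.DS (m0 + 1)).index) + 1) * 2 : ℕ) : ℝ) * (∑ i, (C.e i : ℝ)) * t ^ M := by
  classical
  have hp : p.Prime := Fact.out
  have hDSi : ∀ n, (C.DS n).index ≠ 0 := by
    intro n h
    have h1 := Subgroup.relIndex_mul_index (C.DS_le n)
    rw [h] at h1
    rcases Nat.mul_eq_zero.1 h1 with h2 | h2
    · exact C.DS_fin n h2
    · exact hKi h2
  -- generators
  have hgen : ∀ n, ∃ τ : Fin (oo (n + 1)) → G, (∀ i, τ i ∈ C.DS (n + 1)) ∧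
      C.DS (n + 1) ≤ C.DSp σ hσK (hinv σ) (n + 1) ⊔ Subgroup.closure (Set.range τ) := by
    intro n
    obtain ⟨-, -, hn1, -, -, -⟩ := C.exists_oq σ hσK (hinv σ) (p := p) (n + 1) (by omega)
    exact gen_list (p := p) (oo (n + 1)) (C.DSp_le σ hσK (hinv σ) (n + 1)) hn1 (hoo (n + 1) (by omega))
      (fun a ha b hb => C.le_DSp σ hσK (hinv σ) (n + 1) (C.DS_comm (by omega) ha hb))
  choose τ hτ hτg using hgen
  let α : Type := Σ n : (Finset.Ico m0 M), Fin (oo ((n : ℕ) + 1))
  let s : α → G := fun x => (τ x.1 x.2)⁻¹ * (σ * τ x.1 x.2 * σ⁻¹)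
  have hsDS : ∀ x : α, s x ∈ C.DS ((x.1 : ℕ) + 1) := fun x =>
    (C.DS _).mul_mem ((C.DS _).inv_mem (hτ x.1 x.2)) (C.DS_inv hσK (hinv σ) (hτ x.1 x.2))
  set N : Subgroup G := Subgroup.normalClosure (Set.range s) with hN
  have hNn : N.Normal := Subgroup.normalClosure_normal
  have hDSn : ∀ n, (C.DS n).Normal := C.DS_normal hinv
  obtain ⟨C', hJ', hD', he', hinv'⟩ := C.kill (QuotientGroup.mk' N) (QuotientGroup.mk'_surjective N)
    hKi hinv s (by rw [QuotientGroup.ker_mk']) (fun x => (hsDS x).1) (fun x => (x.1 : ℕ) + 1)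
    (fun x => by omega) (fun x => (hsDS x).2)
  have hsum : ∑ x : α, t ^ ((x.1 : ℕ) + 1) = ∑ n ∈ Finset.Ico m0 M, (oo (n + 1) : ℝ) * t ^ (n + 1) := by
    rw [Fintype.sum_sigma]
    simp only [Finset.sum_const, Finset.card_univ, Fintype.card_fin, nsmul_eq_mul]
    exact Finset.sum_coe_sort (Finset.Ico m0 M) (fun n => (oo (n + 1) : ℝ) * t ^ (n + 1))
  have hD0 : 0 ≤ C'.D t := by
    rw [hD', hsum]; linarith
  have hgrow := C'.growth t t0 t1 hD0 M (by omega)
  rw [he'] at hgrow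
  -- the subgroup of level M
  set P : Subgroup G := N ⊔ C.DS M with hP
  have hPn : P.Normal := Subgroup.sup_normal N (C.DS M)
  have hPi : P.index ≠ 0 := by
    intro h
    exact hDSi M (Nat.eq_zero_of_zero_dvd (h ▸ Subgroup.index_dvd_of_le (le_sup_right : C.DS M ≤ P)))
  have hc : C'.c M ≤ P.index := by
    set L : Subgroup (G ⧸ N) := (C.DS M).map (QuotientGroup.mk' N) with hL
    have hLn : L.Normal := (hDSn M).map _ (QuotientGroup.mk'_surjective N)
    have hLi : L.index = P.index := by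
      rw [← Subgroup.index_comap_of_surjective L (QuotientGroup.mk'_surjective N), hL,
        Subgroup.comap_map_eq, QuotientGroup.ker_mk', sup_comm]
    have h1 : L.relIndex (K.map (QuotientGroup.mk' N)) ∣ L.index :=
      Subgroup.relIndex_dvd_index_of_normal _ _
    have h2 : L.relIndex (K.map (QuotientGroup.mk' N)) ≠ 0 := fun h =>
      hPi (by rw [← hLi]; rw [h] at h1; exact Nat.eq_zero_of_zero_dvd h1)
    refine (C'.c_le_index M L h2 ?_).trans ?_
    · rintro _ ⟨l, hl, rfl⟩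
      rw [hJ']
      exact ⟨dx l, hl.2, ph_dx _ _⟩
    · rw [← hLi]
      exact Nat.le_of_dvd (Nat.pos_of_ne_zero (by rw [hLi]; exact hPi)) h1
  -- first commutation claim
  have step1 : ∀ n, m0 ≤ n → n < M → ∀ x ∈ C.DS (n + 1), x⁻¹ * (σ * x * σ⁻¹) ∈ N ⊔ C.DS (n + 2) := by
    intro n h1 h2 x hx
    have hQn : (N ⊔ C.DS (n + 2)).Normal := Subgroup.sup_normal N (C.DS (n + 2))
    have h3 : C.DS (n + 1) ≤ cen (N ⊔ C.DS (n + 2)) σ := by
      refine (hτg n).trans (sup_le ?_ ?_)
      · intro y hy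
        rw [mem_cen]
        exact Subgroup.mem_sup_right hy.2
      · rw [Subgroup.closure_le]
        rintro _ ⟨i, rfl⟩
        rw [SetLike.mem_coe, mem_cen]
        refine Subgroup.mem_sup_left (Subgroup.subset_normalClosure ?_)
        exact ⟨⟨⟨n, Finset.mem_Ico.2 ⟨h1, h2⟩⟩, i⟩, rfl⟩
    have h4 := h3 hx
    rwa [mem_cen] at h4
  have step2 : ∀ j, ∀ n, m0 + 1 ≤ n → n + j = M → C.DS n ≤ cen P σ := by
    intro j
    induction j with
    | zero =>
      intro n h1 h2
      rw [Nat.add_zero] at h2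
      subst h2
      exact le_sup_right.trans (le_cen P σ)
    | succ j ih =>
      intro n h1 h2 x hx
      have ihn := ih (n + 1) (by omega) (by omega)
      obtain ⟨n', rfl⟩ : ∃ n', n = n' + 1 := ⟨n - 1, by omega⟩
      have h3 := step1 n' (by omega) (by omega) x hx
      have h4 : x⁻¹ * (σ * x * σ⁻¹) ∈ cen P σ :=
        sup_le (le_sup_left.trans (le_cen P σ)) ihn h3
      rw [Subgroup.mem_sup_of_normal_left] at h3
      obtain ⟨ν, hν, y, hy, hxy⟩ := h3
      rw [mem_cen] at h4 ⊢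
      -- pass to the quotient
      rw [← QuotientGroup.eq_one_iff (N := P)] at h4 ⊢
      set q := QuotientGroup.mk' P with hq
      have hy1 : (q y) = q (x⁻¹ * (σ * x * σ⁻¹)) := by
        rw [← hxy, map_mul]
        have : q ν = 1 := (QuotientGroup.eq_one_iff ν).2 (Subgroup.mem_sup_left hν)
        rw [this, one_mul]
      have hy2 : (q y) ^ (p ^ j) = 1 := by
        rw [← map_pow]
        refine (QuotientGroup.eq_one_iff _).2 (Subgroup.mem_sup_right ?_)
        have := C.DS_pow_pow (p := p) (by omega) hy j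
        have e : n' + 2 + j = M := by omega
        rwa [e] at this
      have hσq : q σ * q σ = 1 := by rw [← map_mul, hσ2, map_one]
      have hσi : (q σ)⁻¹ = q σ := inv_eq_of_mul_eq_one_left hσq
      have h5 : (q y)⁻¹ * (q σ * q y * (q σ)⁻¹) = 1 := by
        rw [hy1]
        exact h4
      have h6 : (q x)⁻¹ * (q σ * q x * (q σ)⁻¹) = q y := by
        rw [hy1]; simp only [map_mul, map_inv]
      have hy3 : q y * q y = 1 := by
        rw [hσi] at h5 h6
        have h7 : q σ * q y * q σ = q y := by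
          rw [inv_mul_eq_one] at h5; exact h5.symm
        have h8 : q σ * q x * q σ = q x * q y := by rw [← h6]; group
        have h9 : q x = q x * (q y * q y) := by
          calc q x = q σ * q σ * q x * (q σ * q σ) := by rw [hσq]; group
            _ = q σ * (q σ * q x * q σ) * q σ := by group
            _ = q σ * (q x * q y) * q σ := by rw [h8]
            _ = (q σ * q x * q σ) * (q σ * q y * q σ) := by
              have : q σ * (q x * q y) * q σ = q σ * q x * 1 * q y * q σ := by group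
              rw [this, ← hσq]; group
            _ = q x * (q y * q y) := by rw [h8, h7]; group
        have h10 : q x * 1 = q x * (q y * q y) := by rw [mul_one]; exact h9
        exact (mul_left_cancel h10).symm
      have h11 : orderOf (q y) ∣ 2 := orderOf_dvd_of_pow_eq_one (by rw [pow_two]; exact hy3)
      have h12 : orderOf (q y) ∣ p ^ j := orderOf_dvd_of_pow_eq_one hy2
      have h13 : Nat.Coprime 2 (p ^ j) := by
        refine Nat.Coprime.pow_right j ?_
        exact (Nat.coprime_primes Nat.prime_two hp).2 (Ne.symm hp2)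
      have h14 : orderOf (q y) = 1 := Nat.dvd_one.1 (h13 ▸ Nat.dvd_gcd h11 h12)
      have h15 : q y = 1 := orderOf_eq_one_iff.1 h14
      change q (x⁻¹ * (σ * x * σ⁻¹)) = 1
      rw [← hy1, h15]
  have hfin : Finite (G ⧸ P) := by
    have : P.FiniteIndex := ⟨hPi⟩
    infer_instance
  have hcard : Nat.card (G ⧸ P) ≤ (C.DS (m0 + 1)).index ^ ((C.DS (m0 + 1)).index *
      ((C.DS (m0 + 1)).index * (C.DS (m0 + 1)).index) + 1) * 2 := by
    have hAn : ((C.DS (m0 + 1)).map (QuotientGroup.mk' P)).Normal :=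
      (hDSn (m0 + 1)).map _ (QuotientGroup.mk'_surjective P)
    refine card_bound (QuotientGroup.mk' P σ) (by rw [← map_mul, hσ2, map_one]) ?_
      ((C.DS (m0 + 1)).map (QuotientGroup.mk' P)) _ ?_ ?_
    · have := Subgroup.map_normalClosure {σ} (QuotientGroup.mk' P) (QuotientGroup.mk'_surjective P)
      rw [hnc, Set.image_singleton, Subgroup.map_top_of_surjective _
        (QuotientGroup.mk'_surjective P)] at this
      exact this.symm
    · exact Nat.le_of_dvd (Nat.pos_of_ne_zero (hDSi _))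
        (Subgroup.index_map_dvd _ (QuotientGroup.mk'_surjective P))
    · rintro _ ⟨x, hx, rfl⟩
      have h1 := step2 (M - (m0 + 1)) (m0 + 1) le_rfl (by omega) hx
      have h2 := Subgroup.mem_centralizer_singleton_iff.1 (Subgroup.mem_comap.1 h1)
      exact h2.symm
  have hE : 0 ≤ ∑ i, (C.e i : ℝ) := Finset.sum_nonneg fun i _ => by positivity
  have hcc : (C'.c M : ℝ) ≤ (((C.DS (m0 + 1)).index ^ ((C.DS (m0 + 1)).index * ((C.DS (m0 + 1)).index *
      (C.DS (m0 + 1)).index) + 1) * 2 : ℕ) : ℝ) := by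
    exact_mod_cast hc.trans hcard
  refine hgrow.trans ?_
  exact mul_le_mul_of_nonneg_right (mul_le_mul_of_nonneg_right hcc hE) (by positivity)

/-- The product over the untouched steps diverges. -/
theorem diverge [Finite k] {p : ℕ} [Fact p.Prime] [CharP k p] (hp2 : p ≠ 2)
    [hKn : K.Normal] (hKi : K.index ≠ 0) (hinv : ∀ g, C.InvAt g) (σ : G) (hσ2 : σ * σ = 1)
    (hnc : Subgroup.normalClosure {σ} = ⊤) (hσK : ∀ h ∈ K, σ * h * σ⁻¹ ∈ K)
    (oo : ℕ → ℕ)
    (hoo : ∀ n, 1 ≤ n → ((C.DSp σ hσK (hinv σ) n).subgroupOf (C.DS n)).index = p ^ oo n)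
    (t : ℝ) (t0 : 0 < t) (t1 : t < 1) (hD : 0 < C.D t) (B : ℝ) :
    ∃ m, B < ∏ n ∈ range m, Sf p (n + 1) t ^ oo (n + 1) := by
  by_contra hcon
  push Not at hcon
  have hp : p.Prime := Fact.out
  have hSf : ∀ n, 1 + t ^ (n + 1) ≤ Sf p (n + 1) t := by
    intro n
    have h1 : ∑ i ∈ range 2, t ^ (i * (n + 1)) ≤ ∑ i ∈ range p, t ^ (i * (n + 1)) :=
      Finset.sum_le_sum_of_subset_of_nonneg (Finset.range_subset_range.2 hp.two_le)
        (fun i _ _ => by positivity)
    rw [Finset.sum_range_succ, Finset.sum_range_one] at h1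
    simpa [Sf] using h1
  have hprod : ∀ m, 1 + ∑ n ∈ range m, (oo (n + 1) : ℝ) * t ^ (n + 1) ≤
      ∏ n ∈ range m, Sf p (n + 1) t ^ oo (n + 1) := by
    intro m
    induction m with
    | zero => simp
    | succ m ih =>
      rw [Finset.sum_range_succ, Finset.prod_range_succ]
      have h1 : 1 + (oo (m + 1) : ℝ) * t ^ (m + 1) ≤ Sf p (m + 1) t ^ oo (m + 1) := by
        refine le_trans ?_ (pow_le_pow_left₀ (by positivity) (hSf m) _)
        refine one_add_mul_le_pow ?_ _
        have : 0 < t ^ (m + 1) := by positivity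
        linarith
      have h2 : 0 ≤ ∑ n ∈ range m, (oo (n + 1) : ℝ) * t ^ (n + 1) :=
        Finset.sum_nonneg fun n _ => by positivity
      have h3 : (0 : ℝ) ≤ (oo (m + 1) : ℝ) * t ^ (m + 1) := by positivity
      calc 1 + (∑ n ∈ range m, (oo (n + 1) : ℝ) * t ^ (n + 1) + (oo (m + 1) : ℝ) * t ^ (m + 1))
          ≤ (1 + ∑ n ∈ range m, (oo (n + 1) : ℝ) * t ^ (n + 1)) *
            (1 + (oo (m + 1) : ℝ) * t ^ (m + 1)) := by nlinarith
        _ ≤ _ := mul_le_mul ih h1 (by positivity) (by linarith)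
  set a : ℕ → ℝ := fun n => (oo (n + 1) : ℝ) * t ^ (n + 1) with ha
  have ha0 : ∀ n, 0 ≤ a n := fun n => by positivity
  have hsum : Summable a := summable_of_sum_range_le (c := B) ha0 (fun m => by
    have := (hprod m).trans (hcon m)
    simp only [ha]; linarith)
  have hKpos : (0 : ℝ) < K.index := by exact_mod_cast Nat.pos_of_ne_zero hKi
  have hlim := hsum.hasSum.tendsto_sum_nat
  have hev : ∀ᶠ n in Filter.atTop, (∑' n, a n) - C.D t / K.index < ∑ i ∈ range n, a i :=
    hlim.eventually (lt_mem_nhds (by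
      have : 0 < C.D t / K.index := by positivity
      linarith))
  obtain ⟨m0, hm0⟩ := hev.exists
  have hcost : ∀ M, m0 ≤ M → K.index * ∑ n ∈ Finset.Ico m0 M, a n ≤ C.D t := by
    intro M hM
    have h1 : ∑ n ∈ Finset.Ico m0 M, a n = ∑ i ∈ range M, a i - ∑ i ∈ range m0, a i :=
      Finset.sum_Ico_eq_sub _ hM
    have h2 : ∑ i ∈ range M, a i ≤ ∑' n, a n := hsum.sum_le_tsum _ (fun n _ => ha0 n)
    have h3 : ∑ n ∈ Finset.Ico m0 M, a n ≤ C.D t / K.index := by rw [h1]; linarith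
    calc K.index * ∑ n ∈ Finset.Ico m0 M, a n ≤ K.index * (C.D t / K.index) :=
          mul_le_mul_of_nonneg_left h3 hKpos.le
      _ = C.D t := by field_simp
  set X : ℝ := (((C.DS (m0 + 1)).index ^ ((C.DS (m0 + 1)).index * ((C.DS (m0 + 1)).index *
      (C.DS (m0 + 1)).index) + 1) * 2 : ℕ) : ℝ) * (∑ i, (C.e i : ℝ)) with hX
  have hall : ∀ M, m0 + 1 ≤ M → 1 ≤ X * t ^ M := fun M hM =>
    C.div_aux hp2 hKi hinv σ hσ2 hnc hσK oo hoo t t0 t1.le m0 M hM (hcost M (by omega))
  have hlim2 : Filter.Tendsto (fun M : ℕ => X * t ^ M) Filter.atTop (nhds (X * 0)) :=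
    (tendsto_pow_atTop_nhds_zero_of_lt_one t0.le t1).const_mul X
  rw [mul_zero] at hlim2
  have h1 := (hlim2.eventually (gt_mem_nhds (one_pos))).and (Filter.eventually_ge_atTop (m0 + 1))
  obtain ⟨M, hM1, hM2⟩ := h1.exists
  linarith [hall M hM2]

end Cert

end Pool.Agent.Helper904.GS
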