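import Pool.Agent.Helper904.GS.Limit

set_option autoImplicit false

namespace Pool.Agent.Helper904.GS

/-- The group of the construction. -/
structure Ex (G : Type) [Group G] (σ : G) (F : Subgroup G) : Prop where
  hσ2 : σ * σ = 1
  hσF : σ ∉ F
  hFn : F.Normal
  hFi : F.index = 2
  hnc : Subgroup.normalClosure {σ} = ⊤
  tor : ∀ g : G, ∃ n, 0 < n ∧ g ^ n = 1
  hp : ∀ g ∈ F, ∃ n, g ^ (3 ^ n) = 1
  inf : Infinite G
  fg : Group.FG G
  cen : ∀ Y : Set G, Y.Finite → (∀ y ∈ Y, σ * y = y * σ) → Finite (Subgroup.closure Y)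

theorem exists_group : ∃ (G : Type) (_ : Group G) (σ : G) (F : Subgroup G), Ex G σ F := by
  classical
  obtain ⟨N, hN, h1, h2, h3, h4, h5, h6⟩ := limit
  have hsurj := QuotientGroup.mk'_surjective N
  have hker : (QuotientGroup.mk' N).ker = N := QuotientGroup.ker_mk' N
  have hrange : (QuotientGroup.mk' N).range = ⊤ := MonoidHom.range_eq_top.2 hsurj
  refine ⟨G0 ⧸ N, inferInstance, QuotientGroup.mk' N sg, F0.map (QuotientGroup.mk' N), ?_, ?_,
    F0_normal.map _ hsurj, ?_, h5 _ _ hsurj hker.ge, ?_, ?_, ?_, ?_, ?_⟩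
  · rw [← map_mul, sg_mul, map_one]
  · rintro ⟨x, hx, hxσ⟩
    refine sg_notMem ?_
    have h7 : sg * x⁻¹ ∈ (QuotientGroup.mk' N).ker := by
      rw [MonoidHom.mem_ker, map_mul, map_inv, hxσ, mul_inv_cancel]
    rw [hker] at h7
    have h8 := F0.mul_mem (h3 h7) hx
    simpa using h8
  · rw [Subgroup.index_map, hrange, Subgroup.index_top, mul_one, hker, sup_eq_left.2 h3, F0_index]
  · intro g
    obtain ⟨g, rfl⟩ := hsurj g
    obtain ⟨n, hn, hg⟩ := h1 g
    exact ⟨n, hn, by rw [← map_pow]; exact (QuotientGroup.eq_one_iff _).2 hg⟩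
  · rintro _ ⟨g, hg, rfl⟩
    obtain ⟨n, hn⟩ := h2 g hg
    exact ⟨n, by rw [← map_pow]; exact (QuotientGroup.eq_one_iff _).2 hn⟩
  · by_contra hfin
    rw [not_infinite_iff_finite] at hfin
    have : N.FiniteIndex := Subgroup.finiteIndex_of_finite_quotient
    exact this.index_ne_zero h4
  · have := FG_G0
    exact Group.fg_of_surjective hsurj
  · intro Y hY hYσ
    choose lf hlf using hsurj
    set Z : Finset G0 := hY.toFinset.image lf with hZ
    have e1 : (QuotientGroup.mk' N) '' (Z : Set G0) = Y := by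
      ext y
      constructor
      · rintro ⟨z, hz, rfl⟩
        rw [hZ, Finset.coe_image] at hz
        obtain ⟨y, hy, rfl⟩ := hz
        rw [hlf]
        simpa using hy
      · intro hy
        refine ⟨lf y, ?_, hlf y⟩
        rw [hZ, Finset.coe_image]
        exact ⟨y, by simpa using hy, rfl⟩
    have h7 := h6 Z (fun z hz => by
      have h8 : QuotientGroup.mk' N z ∈ Y := by rw [← e1]; exact ⟨z, hz, rfl⟩
      have h9 := hYσ _ h8
      refine (QuotientGroup.eq_one_iff (N := N) _).1 ?_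
      change QuotientGroup.mk' N (sg * z * sg⁻¹ * z⁻¹) = 1
      simp only [map_mul, map_inv]
      rw [h9]; group)
    have h8 := h7 (G0 ⧸ N) (QuotientGroup.mk' N) hker.ge
    rwa [MonoidHom.map_closure, e1] at h8

namespace Ex

variable {G : Type} [Group G] {σ : G} {F : Subgroup G} (H : Ex G σ F)

include H

lemma inv_σ : σ⁻¹ = σ := inv_eq_of_mul_eq_one_left H.hσ2

lemma not_locfin : ¬ (∀ s : Set G, s.Finite → Finite (Subgroup.closure s)) := by
  intro h
  obtain ⟨S, hS, hSf⟩ := Group.fg_iff.1 H.fg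
  have h1 := h S hSf
  rw [hS] at h1
  have h2 : Finite G := Finite.of_equiv _ (Subgroup.topEquiv (G := G)).toEquiv
  have := H.inf
  exact not_finite G

lemma odd_order {x : G} (hx : x ∈ F) {m : ℕ} (h : x ^ (2 ^ m) = 1) : x = 1 := by
  obtain ⟨n, hn⟩ := H.hp x hx
  have h1 : orderOf x ∣ 2 ^ m := orderOf_dvd_of_pow_eq_one h
  have h2 : orderOf x ∣ 3 ^ n := orderOf_dvd_of_pow_eq_one hn
  have h3 : Nat.Coprime (2 ^ m) (3 ^ n) := Nat.Coprime.pow _ _ (by norm_num)
  exact orderOf_eq_one_iff.1 (Nat.dvd_one.1 (h3 ▸ Nat.dvd_gcd h1 h2))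

lemma σ_ne : σ ≠ 1 := fun h => H.hσF (by rw [h]; exact F.one_mem)

lemma order_σ : orderOf σ = 2 := orderOf_eq_prime (by rw [pow_two]; exact H.hσ2) H.σ_ne

/-- Square roots in the odd part. -/
lemma exists_half {x : G} (hx : x ∈ F) : ∃ l : ℕ, (x ^ l) * (x ^ l) = x := by
  obtain ⟨n, hn⟩ := H.hp x hx
  have hodd : Odd (3 ^ n) := Odd.pow (by decide)
  obtain ⟨m, hm⟩ := hodd
  refine ⟨m + 1, ?_⟩
  rw [← pow_add]
  have e : m + 1 + (m + 1) = 3 ^ n + 1 := by omega
  rw [e, pow_succ, hn, one_mul]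

lemma sylow_card (Cn : Subgroup G) (hCn : Cn = Subgroup.centralizer ({σ} : Set G))
    (P : Sylow 2 Cn) : Nat.card (P : Subgroup Cn) = 2 := by
  have hσC : σ ∈ Cn := by rw [hCn, Subgroup.mem_centralizer_singleton_iff]
  obtain ⟨τ, hτσ⟩ : ∃ τ : Cn, (τ : G) = σ := ⟨⟨σ, hσC⟩, rfl⟩
  have hcomm : ∀ x : Cn, x * τ = τ * x := fun x => Subtype.ext (by
    have h1 : (x : G) ∈ Subgroup.centralizer ({σ} : Set G) := by rw [← hCn]; exact x.2
    rw [Subgroup.coe_mul, Subgroup.coe_mul, hτσ]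
    exact Subgroup.mem_centralizer_singleton_iff.1 h1)
  have hn : (Subgroup.zpowers τ).Normal := by
    refine ⟨fun x hx g => ?_⟩
    obtain ⟨n, rfl⟩ := Subgroup.mem_zpowers_iff.1 hx
    have h1 : Commute g (τ ^ n) := Commute.zpow_right (hcomm g) n
    rw [h1.eq, mul_assoc, mul_inv_cancel, mul_one]
    exact hx
  have hord : orderOf τ = 2 := by
    rw [← Subgroup.orderOf_coe τ, hτσ]; exact H.order_σ
  have hp2 : IsPGroup 2 (Subgroup.zpowers τ) := by
    apply IsPGroup.of_card (n := 1)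
    rw [Nat.card_zpowers, hord, pow_one]
  have hsup : IsPGroup 2 ((P : Subgroup Cn) ⊔ Subgroup.zpowers τ : Subgroup Cn) :=
    P.isPGroup'.to_sup_of_normal_right hp2
  have hle : Subgroup.zpowers τ ≤ (P : Subgroup Cn) := by
    have h1 := P.is_maximal' hsup le_sup_left
    rw [← h1]
    exact le_sup_right
  have hge : (P : Subgroup Cn) ≤ Subgroup.zpowers τ := by
    intro x hx
    have hτP : τ ∈ (P : Subgroup Cn) := hle (Subgroup.mem_zpowers τ)
    have key : ∀ y ∈ (P : Subgroup Cn), (y : G) ∈ F → y = 1 := by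
      intro y hy hyF
      obtain ⟨m, hm⟩ := P.isPGroup' ⟨y, hy⟩
      have h1 : (y : G) ^ (2 ^ m) = 1 := by
        have h2 := congrArg (fun z : (P : Subgroup Cn) => ((z : Cn) : G)) hm
        simpa using h2
      exact Subtype.ext (H.odd_order hyF h1)
    by_cases hxF : (x : G) ∈ F
    · rw [key x hx hxF]; exact Subgroup.one_mem _
    · have h1 : ((x * τ : Cn) : G) ∈ F := by
        rw [Subgroup.coe_mul, Subgroup.mul_mem_iff_of_index_two H.hFi]
        refine iff_of_false hxF ?_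
        rw [hτσ]; exact H.hσF
      have h2 := key (x * τ) ((P : Subgroup Cn).mul_mem hx hτP) h1
      have h3 : x = τ⁻¹ := eq_inv_of_mul_eq_one_left h2
      rw [h3]
      exact Subgroup.inv_mem _ (Subgroup.mem_zpowers τ)
  rw [le_antisymm hge hle, Nat.card_zpowers, hord]

end Ex

end Pool.Agent.Helper904.GS
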