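import Pool.Agent.Helper904.GS.Div2

set_option autoImplicit false

namespace Pool.Agent.Helper904.GS

open Finset

/-- The data attached to a good group. -/
structure Dat (k : Type) [Field k] (p : ℕ) {G : Type} [Group G] (σ : G) (F K : Subgroup G)
    (C : Cert k K) (t : ℝ) : Prop where
  hσ2 : σ * σ = 1
  hσF : σ ∉ F
  hFn : F.Normal
  hFi : F.index = 2
  hnc : Subgroup.normalClosure {σ} = ⊤
  hKF : K ≤ F
  hKn : K.Normal
  hKi : K.index ≠ 0
  hpow : ∀ x ∈ F, ∃ n, x ^ (p ^ n) ∈ K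
  hinv : ∀ g, C.InvAt g
  t0 : 0 < t
  t1 : t < 1
  hD : 0 < C.D t

/-- A good group. -/
def Good (k : Type) [Field k] (p : ℕ) {G : Type} [Group G] (σ : G) (F : Subgroup G) : Prop :=
  ∃ (K : Subgroup G) (C : Cert k K) (t : ℝ), Dat k p σ F K C t

variable {k : Type} [Field k] {p : ℕ} {G : Type} [Group G] {σ : G} {F K : Subgroup G}
  {C : Cert k K} {t : ℝ}

/-- Killing a cheap family keeps the group good. -/
theorem Dat.kill (H : Dat k p σ F K C t) {G' : Type} [Group G'] (f : G →* G')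
    (hf : Function.Surjective f) {α : Type} [Fintype α] (s : α → G)
    (hker : f.ker = Subgroup.normalClosure (Set.range s)) (hsK : ∀ a, s a ∈ K)
    (de : α → ℕ) (hde : ∀ a, 1 ≤ de a) (hs : ∀ a, dx (s a) ∈ C.J (de a))
    (hcost : K.index * ∑ a, t ^ de a < C.D t) : Good k p (f σ) (F.map f) := by
  have := H.hKn
  have hkK : f.ker ≤ K := by
    rw [hker]
    refine Subgroup.normalClosure_le_normal ?_
    rintro _ ⟨a, rfl⟩
    exact hsK a
  have hkF : f.ker ≤ F := hkK.trans H.hKF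
  obtain ⟨C', hJ, hD, -, hinv⟩ := C.kill f hf H.hKi H.hinv s hker hsK de hde hs
  have hrange : f.range = ⊤ := MonoidHom.range_eq_top.2 hf
  refine ⟨K.map f, C', t, ?_, ?_, H.hFn.map f hf, ?_, ?_, Subgroup.map_mono H.hKF,
    H.hKn.map f hf, ?_, ?_, hinv, H.t0, H.t1, ?_⟩
  · rw [← map_mul, H.hσ2, map_one]
  · rintro ⟨x, hx, hxσ⟩
    refine H.hσF ?_
    have h1 : σ * x⁻¹ ∈ f.ker := by
      rw [MonoidHom.mem_ker, map_mul, map_inv, hxσ, mul_inv_cancel]
    have h2 := F.mul_mem (hkF h1) hx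
    simpa using h2
  · rw [Subgroup.index_map, hrange, Subgroup.index_top, mul_one, sup_eq_left.2 hkF, H.hFi]
  · have := Subgroup.map_normalClosure {σ} f hf
    rw [H.hnc, Set.image_singleton, Subgroup.map_top_of_surjective _ hf] at this
    exact this.symm
  · rw [Subgroup.index_map, hrange, Subgroup.index_top, mul_one, sup_eq_left.2 hkK]
    exact H.hKi
  · rintro _ ⟨x, hx, rfl⟩
    obtain ⟨n, hn⟩ := H.hpow x hx
    exact ⟨n, _, hn, map_pow _ _ _⟩
  · rw [hD]; linarith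

/-- A good group is infinite. -/
theorem Good.infinite (H : Good k p σ F) : Infinite G := by
  obtain ⟨K, C, t, H⟩ := H
  by_contra hfin
  rw [not_infinite_iff_finite] at hfin
  have h1 : ((⊥ : Subgroup G).subgroupOf K).index ≠ 0 := Subgroup.FiniteIndex.index_ne_zero
  have h2 : ∀ M, C.c M ≤ ((⊥ : Subgroup G).subgroupOf K).index := fun M =>
    C.c_le_index M ⊥ h1 (fun l hl => by
      rw [Subgroup.mem_bot.1 hl, dx_one]; exact Submodule.zero_mem _)
  have hE : 0 ≤ ∑ i, (C.e i : ℝ) := Finset.sum_nonneg fun i _ => by positivity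
  set X : ℝ := (((⊥ : Subgroup G).subgroupOf K).index : ℝ) * ∑ i, (C.e i : ℝ)
  have hall : ∀ M, 1 ≤ M → 1 ≤ X * t ^ M := fun M hM => by
    refine (C.growth t H.t0 H.t1.le H.hD.le M hM).trans ?_
    have h3 : (C.c M : ℝ) ≤ (((⊥ : Subgroup G).subgroupOf K).index : ℝ) := by exact_mod_cast h2 M
    have := H.t0
    exact mul_le_mul_of_nonneg_right (mul_le_mul_of_nonneg_right h3 hE) (by positivity)
  have hlim2 : Filter.Tendsto (fun M : ℕ => X * t ^ M) Filter.atTop (nhds (X * 0)) :=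
    (tendsto_pow_atTop_nhds_zero_of_lt_one H.t0.le H.t1).const_mul X
  rw [mul_zero] at hlim2
  have h1 := (hlim2.eventually (gt_mem_nhds (one_pos))).and (Filter.eventually_ge_atTop 1)
  obtain ⟨M, hM1, hM2⟩ := h1.exists
  linarith [hall M hM2]

lemma dx_pow_char_pow [Fact p.Prime] [CharP k p] (g : G) (n : ℕ) :
    (dx (g ^ (p ^ n)) : GA k G) = dx g ^ (p ^ n) := by
  induction n with
  | zero => simp
  | succ n ih => rw [pow_succ, pow_mul, dx_pow_char, ih, ← pow_mul]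

/-- Giving an element finite order. -/
theorem Good.taskA [Fact p.Prime] [CharP k p] (H : Good k p σ F) (g : G) :
    ∃ N : Subgroup G, N.Normal ∧ (∀ (G' : Type) [Group G'] (f : G →* G'),
      Function.Surjective f → f.ker = N → Good k p (f σ) (F.map f)) ∧
      (∃ n, 0 < n ∧ g ^ n ∈ N) ∧ (g ∈ F → ∃ n, g ^ (p ^ n) ∈ N) := by
  obtain ⟨K, C, t, H⟩ := H
  have hp : p.Prime := Fact.out
  have := H.hKn
  have := H.t0
  obtain ⟨m, hm0, hmK, hmF⟩ : ∃ m, 0 < m ∧ g ^ m ∈ K ∧ (g ∈ F → ∃ n, m = p ^ n) := by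
    by_cases hg : g ∈ F
    · obtain ⟨n, hn⟩ := H.hpow g hg
      exact ⟨p ^ n, pow_pos hp.pos n, hn, fun _ => ⟨n, rfl⟩⟩
    · obtain ⟨m, hm0, -, hm⟩ := Subgroup.exists_pow_mem_of_index_ne_zero H.hKi g
      exact ⟨m, hm0, hm, fun h => absurd h hg⟩
  have hlim : Filter.Tendsto (fun n : ℕ => (K.index : ℝ) * t ^ (p ^ n)) Filter.atTop
      (nhds ((K.index : ℝ) * 0)) :=
    ((tendsto_pow_atTop_nhds_zero_of_lt_one H.t0.le H.t1).comp
      (tendsto_pow_atTop_atTop_of_one_lt hp.one_lt)).const_mul _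
  rw [mul_zero] at hlim
  obtain ⟨n, hn⟩ := (hlim.eventually (gt_mem_nhds H.hD)).exists
  refine ⟨Subgroup.normalClosure (Set.range (fun _ : Unit => (g ^ m) ^ (p ^ n))),
    Subgroup.normalClosure_normal, fun G' _ f hf hker => ?_, ⟨m * p ^ n, ?_, ?_⟩, fun hg => ?_⟩
  · refine H.kill f hf _ hker (fun _ => K.pow_mem hmK _) (fun _ => p ^ n)
      (fun _ => Nat.one_le_pow _ _ hp.pos) (fun _ => ?_) ?_
    · rw [dx_pow_char_pow]
      have h1 := pow_mem_J C (C.one _ hmK) (p ^ n)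
      rwa [mul_one] at h1
    · simpa using hn
  · exact Nat.mul_pos hm0 (pow_pos hp.pos n)
  · rw [pow_mul]
    exact Subgroup.subset_normalClosure ⟨(), rfl⟩
  · obtain ⟨n', rfl⟩ := hmF hg
    refine ⟨n' + n, ?_⟩
    rw [pow_add, pow_mul]
    exact Subgroup.subset_normalClosure ⟨(), rfl⟩

end Pool.Agent.Helper904.GS
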