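import Pool.Agent.Helper904.GS.Basic

set_option autoImplicit false

namespace Pool.Agent.Helper904.GS

open Finset

/-- The numerical part of the growth inequality. -/
lemma growth_num {ι κ : Type} [Fintype ι] [Fintype κ] (e : ι → ℕ) (d : κ → ℕ) (c : ℕ → ℕ)
    (c0 : c 0 = 0) (mono : Monotone c)
    (h : ∀ n, 1 ≤ n → ∑ i, c (n - e i) + 1 ≤ c n + ∑ a, c (n - d a))
    (t : ℝ) (t0 : 0 < t) (t1 : t ≤ 1) (hD : 0 ≤ ∑ i, t ^ e i - 1 - ∑ a, t ^ d a)
    (M : ℕ) (hM : 1 ≤ M) : 1 ≤ (c M : ℝ) * (∑ i, (e i : ℝ)) * t ^ M := by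
  set S : ℕ → ℝ := fun j => ∑ n ∈ range (M + 1), t ^ n * (c (n - j) : ℝ) with hS
  have key : ∀ j, t * S j = S (j + 1) + t ^ (M + 1) * (c (M - j) : ℝ) := by
    intro j
    have h1 : ∑ n ∈ range (M + 2), t ^ n * (c (n - (j + 1)) : ℝ) = t * S j := by
      rw [Finset.sum_range_succ', hS, Finset.mul_sum]
      simp only [Nat.zero_sub, c0, Nat.cast_zero, mul_zero, add_zero]
      refine Finset.sum_congr rfl fun n _ => ?_
      rw [Nat.add_sub_add_right, pow_succ]; ring
    rw [Finset.sum_range_succ] at h1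
    rw [← h1, Nat.add_sub_add_right]
  have Snn : ∀ j, 0 ≤ S j := fun j => Finset.sum_nonneg fun n _ => by positivity
  have up : ∀ j, S j ≤ t ^ j * S 0 := by
    intro j
    induction j with
    | zero => simp
    | succ j ih =>
      have h2 := key j
      have h3 : 0 ≤ t ^ (M + 1) * (c (M - j) : ℝ) := by positivity
      have h4 : t * S j ≤ t * (t ^ j * S 0) := mul_le_mul_of_nonneg_left ih t0.le
      rw [pow_succ]; nlinarith
  have lo : ∀ j, t ^ j * S 0 ≤ S j + (j : ℝ) * ((c M : ℝ) * t ^ (M + 1)) := by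
    intro j
    induction j with
    | zero => simp
    | succ j ih =>
      have h2 := key j
      have h3 : (c (M - j) : ℝ) ≤ c M := by exact_mod_cast mono (Nat.sub_le _ _)
      have h5 : 0 < t ^ (M + 1) := by positivity
      have h6 : t ^ (M + 1) * (c (M - j) : ℝ) ≤ t ^ (M + 1) * c M :=
        mul_le_mul_of_nonneg_left h3 h5.le
      have h7 : t * (t ^ j * S 0) ≤ t * (S j + (j : ℝ) * ((c M : ℝ) * t ^ (M + 1))) :=
        mul_le_mul_of_nonneg_left ih t0.le
      have h8 : 0 ≤ (j : ℝ) * ((c M : ℝ) * t ^ (M + 1)) := by positivity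
      have h9 : t * ((j : ℝ) * ((c M : ℝ) * t ^ (M + 1))) ≤ 1 * ((j : ℝ) * ((c M : ℝ) * t ^ (M + 1))) :=
        mul_le_mul_of_nonneg_right t1 h8
      push_cast
      rw [pow_succ]; nlinarith
  have main : ∑ i, S (e i) + t ≤ S 0 + ∑ a, S (d a) := by
    have h1 : ∀ n ∈ range (M + 1), t ^ n * (∑ i, (c (n - e i) : ℝ)) + (if n = 1 then t else 0)
        ≤ t ^ n * (c (n - 0) : ℝ) + t ^ n * (∑ a, (c (n - d a) : ℝ)) := by
      intro n hn
      rcases Nat.eq_zero_or_pos n with rfl | hn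
      · simp [c0]
      · have h2 := h n hn
        have h3 : (∑ i, (c (n - e i) : ℝ)) + 1 ≤ c n + ∑ a, (c (n - d a) : ℝ) := by
          exact_mod_cast h2
        have h4 : 0 < t ^ n := by positivity
        have h5 : (if n = 1 then t else 0) ≤ t ^ n := by
          split_ifs with h6
          · subst h6; simp
          · exact h4.le
        have h6 := mul_le_mul_of_nonneg_left h3 h4.le
        simp only [Nat.sub_zero]
        nlinarith
    have h2 := Finset.sum_le_sum h1
    rw [Finset.sum_add_distrib, Finset.sum_add_distrib] at h2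
    have h3 : ∑ n ∈ range (M + 1), (if n = 1 then t else 0) = t := by
      rw [Finset.sum_ite_eq' (range (M + 1)) 1]
      simp; omega
    rw [h3] at h2
    have h4 : ∑ n ∈ range (M + 1), t ^ n * (∑ i, (c (n - e i) : ℝ)) = ∑ i, S (e i) := by
      simp only [hS, Finset.mul_sum]
      rw [Finset.sum_comm]
    have h5 : ∑ n ∈ range (M + 1), t ^ n * (∑ a, (c (n - d a) : ℝ)) = ∑ a, S (d a) := by
      simp only [hS, Finset.mul_sum]
      rw [Finset.sum_comm]
    rw [h4, h5] at h2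
    exact h2
  have h1 : (∑ i, t ^ e i) * S 0 ≤ ∑ i, S (e i) + (∑ i, (e i : ℝ)) * ((c M : ℝ) * t ^ (M + 1)) := by
    rw [Finset.sum_mul, Finset.sum_mul, ← Finset.sum_add_distrib]
    exact Finset.sum_le_sum fun i _ => lo (e i)
  have h2 : ∑ a, S (d a) ≤ (∑ a, t ^ d a) * S 0 := by
    rw [Finset.sum_mul]
    exact Finset.sum_le_sum fun a _ => up (d a)
  have h3 := mul_nonneg hD (Snn 0)
  have h4 : t ≤ (∑ i, (e i : ℝ)) * ((c M : ℝ) * t ^ (M + 1)) := by nlinarith
  have h5 : t * 1 ≤ t * ((c M : ℝ) * (∑ i, (e i : ℝ)) * t ^ M) := by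
    rw [pow_succ] at h4; nlinarith
  exact le_of_mul_le_mul_left h5 t0

namespace Cert

variable {k : Type} [Field k] {G : Type} [Group G] {K : Subgroup G} (C : Cert k K)

/-- The filtration inside the type of the group algebra of `K`. -/
noncomputable def Jn (n : ℕ) : Submodule k (BK K : Submodule k (GA k G)) :=
  (C.J n).comap (BK K).subtype

lemma mem_Jn {n : ℕ} {x : (BK K : Submodule k (GA k G))} :
    x ∈ C.Jn n ↔ (x : GA k G) ∈ C.J n := Iff.rfl

/-- Right multiplication. -/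
noncomputable def mr (y : GA k G) (hy : y ∈ BK K) :
    (BK K : Submodule k (GA k G)) →ₗ[k] (BK K : Submodule k (GA k G)) where
  toFun x := ⟨x.1 * y, mul_mem_BK x.2 hy⟩
  map_add' a b := by ext1; simp [add_mul]
  map_smul' a b := by ext1; simp

/-- The quotient of level `n`. -/
def Q (n : ℕ) : Type := (BK K : Submodule k (GA k G)) ⧸ C.Jn n

noncomputable instance (n : ℕ) : AddCommGroup (C.Q n) :=
  inferInstanceAs (AddCommGroup ((BK K : Submodule k (GA k G)) ⧸ C.Jn n))

noncomputable instance (n : ℕ) : Module k (C.Q n) :=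
  inferInstanceAs (Module k ((BK K : Submodule k (GA k G)) ⧸ C.Jn n))

/-- The projection. -/
noncomputable def mq (n : ℕ) : (BK K : Submodule k (GA k G)) →ₗ[k] C.Q n :=
  (C.Jn n).mkQ

lemma mq_surj (n : ℕ) : Function.Surjective (C.mq n) := Submodule.mkQ_surjective _

lemma mq_eq_zero {n : ℕ} {x : (BK K : Submodule k (GA k G))} :
    C.mq n x = 0 ↔ (x : GA k G) ∈ C.J n := by
  exact (Submodule.Quotient.mk_eq_zero (C.Jn n) (x := x))

/-- Induced right multiplication. -/
noncomputable def qm (a b : ℕ) (y : GA k G) (hy : y ∈ BK K)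
    (h : ∀ x ∈ C.J a, x * y ∈ C.J b) : C.Q a →ₗ[k] C.Q b :=
  Submodule.mapQ (C.Jn a) (C.Jn b) (mr y hy) (fun x hx => h x hx)

lemma qm_mk (a b : ℕ) (y : GA k G) (hy : y ∈ BK K)
    (h : ∀ x ∈ C.J a, x * y ∈ C.J b) (x : (BK K : Submodule k (GA k G))) :
    C.qm a b y hy h (C.mq a x) = C.mq b (mr y hy x) := rfl

lemma mem_BK_of {n : ℕ} {x : GA k G} (hx : x ∈ C.J n) : x ∈ BK K := by
  rw [← C.J_zero]; exact C.J_sub0 hx

/-- The map of generators. -/
noncomputable def phi (n : ℕ) : (∀ i, C.Q (n - C.e i)) →ₗ[k] C.Q n :=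
  ∑ i, (C.qm (n - C.e i) n (dx (C.g i)) (C.mem_BK_of (C.x_mem i))
    (fun _ hx => C.J_mul' (by omega) hx (C.x_mem i))) ∘ₗ LinearMap.proj i

lemma phi_mk (n : ℕ) (b : C.ι → (BK K : Submodule k (GA k G)))
    (h : ∑ i, (b i : GA k G) * dx (C.g i) ∈ BK K) :
    C.phi n (fun i => C.mq _ (b i)) =
      C.mq n ⟨∑ i, (b i : GA k G) * dx (C.g i), h⟩ := by
  unfold phi
  rw [LinearMap.sum_apply]
  simp only [LinearMap.comp_apply, LinearMap.proj_apply, qm_mk]
  have : (⟨∑ i, (b i : GA k G) * dx (C.g i), h⟩ : (BK K : Submodule k (GA k G)))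
      = ∑ i, mr (dx (C.g i)) (C.mem_BK_of (C.x_mem i)) (b i) := by
    ext1
    simp [mr]
  rw [this, map_sum]

/-- The map of relations. -/
noncomputable def psi (n : ℕ) : (∀ a, C.Q (n - C.d a)) →ₗ[k] (∀ i, C.Q (n - C.e i)) :=
  LinearMap.pi fun i => ∑ a, (C.qm (n - C.d a) (n - C.e i) (C.r a i) (C.mem_BK_of (C.r_mem a i))
    (fun _ hx => C.J_mul' (by omega) hx (C.r_mem a i))) ∘ₗ LinearMap.proj a

lemma psi_mk (n : ℕ) (b : C.κ → (BK K : Submodule k (GA k G))) (i : C.ι)
    (h : ∑ a, (b a : GA k G) * C.r a i ∈ BK K) :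
    C.psi n (fun a => C.mq _ (b a)) i =
      C.mq _ ⟨∑ a, (b a : GA k G) * C.r a i, h⟩ := by
  unfold psi
  rw [LinearMap.pi_apply, LinearMap.sum_apply]
  simp only [LinearMap.comp_apply, LinearMap.proj_apply, qm_mk]
  have : (⟨∑ a, (b a : GA k G) * C.r a i, h⟩ : (BK K : Submodule k (GA k G)))
      = ∑ a, mr (C.r a i) (C.mem_BK_of (C.r_mem a i)) (b a) := by
    ext1
    simp [mr]
  rw [this, map_sum]

lemma ker_le (n : ℕ) (hn : 1 ≤ n) : LinearMap.ker (C.phi n) ≤ LinearMap.range (C.psi n) := by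
  intro q hq
  rw [LinearMap.mem_ker] at hq
  choose b hb using fun i => C.mq_surj _ (q i)
  have hq' : q = fun i => C.mq _ (b i) := by
    funext i; exact (hb i).symm
  have hsum : ∑ i, (b i : GA k G) * dx (C.g i) ∈ BK K :=
    Submodule.sum_mem _ fun i _ => mul_mem_BK (b i).2 (dx_mem_BK (C.g_mem i))
  rw [hq', C.phi_mk n b hsum, mq_eq_zero] at hq
  obtain ⟨c, hc, hce⟩ := C.gen n hn _ hq
  obtain ⟨f, hf, hfe⟩ := C.r_gen (fun i => (b i : GA k G) - c i)
    (fun i => Submodule.sub_mem _ (by rw [C.J_zero]; exact (b i).2) (C.J_sub0 (hc i)))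
    (by
      simp only [sub_mul, Finset.sum_sub_distrib]
      rw [sub_eq_zero]; exact hce)
  refine ⟨fun a => C.mq _ ⟨f a, by rw [← C.J_zero]; exact hf a⟩, ?_⟩
  funext i
  have hs : ∑ a, f a * C.r a i ∈ BK K :=
    Submodule.sum_mem _ fun a _ => mul_mem_BK (by rw [← C.J_zero]; exact hf a)
      (C.mem_BK_of (C.r_mem a i))
  rw [C.psi_mk n (fun a => ⟨f a, by rw [← C.J_zero]; exact hf a⟩) i hs, hq']
  rw [← sub_eq_zero, ← map_sub, mq_eq_zero]
  have : ((⟨∑ a, f a * C.r a i, hs⟩ - b i : (BK K : Submodule k (GA k G))) : GA k G)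
      = - c i := by
    simp only [Submodule.coe_sub]
    rw [← hfe i]; abel
  rw [this]
  exact Submodule.neg_mem _ (hc i)

lemma decomp_one {x : GA k G} (hx : x ∈ BK K) : ∃ l : k, x - l • (1 : GA k G) ∈ C.J 1 := by
  unfold BK at hx
  induction hx using Submodule.span_induction with
  | mem x h =>
    obtain ⟨g, hg, rfl⟩ := h
    exact ⟨1, by simpa [dx] using C.one g hg⟩
  | zero => exact ⟨0, by simp⟩
  | add x y _ _ h1 h2 =>
    obtain ⟨a, ha⟩ := h1
    obtain ⟨b, hb⟩ := h2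
    refine ⟨a + b, ?_⟩
    have := Submodule.add_mem _ ha hb
    convert this using 1
    rw [add_smul]; abel
  | smul s x _ h =>
    obtain ⟨a, ha⟩ := h
    refine ⟨s * a, ?_⟩
    have := Submodule.smul_mem _ s ha
    convert this using 1
    rw [smul_sub, smul_smul]

lemma sub_Q0 : Subsingleton (C.Q 0) := by
  refine ⟨fun a b => ?_⟩
  obtain ⟨x, rfl⟩ := C.mq_surj _ a
  obtain ⟨y, rfl⟩ := C.mq_surj _ b
  rw [← sub_eq_zero, ← map_sub, mq_eq_zero, C.J_zero]
  exact (x - y).2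

lemma fin_Q (n : ℕ) : Module.Finite k (C.Q n) := by
  induction n using Nat.strong_induction_on with
  | _ n ih =>
    rcases Nat.eq_zero_or_pos n with rfl | hn
    · have := C.sub_Q0
      infer_instance
    · have hfin : ∀ i, Module.Finite k (C.Q (n - C.e i)) := fun i =>
        ih _ (by have := C.e_pos i; omega)
      let f : k × (∀ i, C.Q (n - C.e i)) →ₗ[k] C.Q n :=
        LinearMap.coprod (LinearMap.toSpanSingleton k (C.Q n)
          (C.mq n ⟨1, one_mem_BK K⟩)) (C.phi n)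
      refine Module.Finite.of_surjective f fun q => ?_
      obtain ⟨x, rfl⟩ := C.mq_surj _ q
      obtain ⟨l, hl⟩ := C.decomp_one x.2
      obtain ⟨c, hc, hce⟩ := C.gen 1 le_rfl _ hl
      have hc' : ∀ i, c i ∈ BK K := fun i => C.mem_BK_of (hc i)
      refine ⟨(l, fun i => C.mq _ ⟨c i, hc' i⟩), ?_⟩
      have hs : ∑ i, c i * dx (C.g i) ∈ BK K :=
        Submodule.sum_mem _ fun i _ => mul_mem_BK (hc' i) (dx_mem_BK (C.g_mem i))
      simp only [f, LinearMap.coprod_apply, LinearMap.toSpanSingleton_apply]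
      rw [C.phi_mk n (fun i => ⟨c i, hc' i⟩) hs, ← map_smul, ← map_add]
      congr 1
      ext1
      simp only [Submodule.coe_add, Submodule.coe_smul]
      rw [← hce]; abel

instance (n : ℕ) : Module.Finite k (C.Q n) := C.fin_Q n

/-- The codimension of the filtration. -/
noncomputable def c (n : ℕ) : ℕ := Module.finrank k (C.Q n)

lemma c_zero : C.c 0 = 0 := by
  have := C.sub_Q0
  exact Module.finrank_zero_of_subsingleton

lemma c_mono : Monotone C.c := by
  intro a b h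
  have h1 : C.Jn b ≤ C.Jn a := fun x hx => C.J_anti h hx
  let f : C.Q b →ₗ[k] C.Q a := Submodule.factor h1
  have hf : Function.Surjective f := Submodule.factor_surjective h1
  exact f.finrank_le_finrank_of_surjective hf

lemma c_ineq (n : ℕ) (hn : 1 ≤ n) :
    ∑ i, C.c (n - C.e i) + 1 ≤ C.c n + ∑ a, C.c (n - C.d a) := by
  have h1 : Module.finrank k (∀ i, C.Q (n - C.e i)) = ∑ i, C.c (n - C.e i) :=
    Module.finrank_pi_fintype k
  have h2 : Module.finrank k (∀ a, C.Q (n - C.d a)) = ∑ a, C.c (n - C.d a) :=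
    Module.finrank_pi_fintype k
  have h3 := LinearMap.finrank_range_add_finrank_ker (C.phi n)
  have h4 : Module.finrank k (LinearMap.range (C.phi n)) < C.c n := by
    apply Submodule.finrank_lt
    intro h
    have : (C.mq n ⟨1, one_mem_BK K⟩ : C.Q n) ∈ LinearMap.range (C.phi n) := by
      rw [h]; trivial
    obtain ⟨q, hq⟩ := this
    choose b hb using fun i => C.mq_surj _ (q i)
    have hq' : q = fun i => C.mq _ (b i) := by
      funext i; exact (hb i).symm
    have hsum : ∑ i, (b i : GA k G) * dx (C.g i) ∈ BK K :=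
      Submodule.sum_mem _ fun i _ => mul_mem_BK (b i).2 (dx_mem_BK (C.g_mem i))
    rw [hq', C.phi_mk n b hsum] at hq
    rw [← sub_eq_zero, ← map_sub, mq_eq_zero] at hq
    have h6 := C.aug_zero (C.J_le hn hq)
    simp only [Submodule.coe_sub, map_sub, map_sum, map_mul, aug_dx, mul_zero,
      Finset.sum_const_zero, map_one, zero_sub, neg_eq_zero, one_ne_zero] at h6
  have h5 : Module.finrank k (LinearMap.ker (C.phi n)) ≤ ∑ a, C.c (n - C.d a) := by
    rw [← h2]
    exact (Submodule.finrank_mono (C.ker_le n hn)).trans (LinearMap.finrank_range_le _)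
  omega

/-- The growth lemma. -/
theorem growth (t : ℝ) (t0 : 0 < t) (t1 : t ≤ 1) (hD : 0 ≤ C.D t) (M : ℕ) (hM : 1 ≤ M) :
    1 ≤ (C.c M : ℝ) * (∑ i, (C.e i : ℝ)) * t ^ M :=
  growth_num C.e C.d C.c C.c_zero C.c_mono C.c_ineq t t0 t1 hD M hM

end Cert

end Pool.Agent.Helper904.GS
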