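import Pool.Agent.Helper904.GS.Step4

set_option autoImplicit false

namespace Pool.Agent.Helper904.GS

open Finset

section

variable {k : Type} [Field k] {G : Type} [Group G]

/-- Geometric factor. -/
lemma dx_pow_factor (t : G) (i : ℕ) {K : Subgroup G} (ht : t ∈ K) :
    ∃ q : GA k G, q ∈ BK K ∧ dx (t ^ i) = q * dx t := by
  induction i with
  | zero => exact ⟨0, Submodule.zero_mem _, by rw [pow_zero, dx_one, zero_mul]⟩
  | succ i ih =>
    obtain ⟨q, hq, he⟩ := ih
    refine ⟨q + o (t ^ i), Submodule.add_mem _ hq (o_mem_BK (K.pow_mem ht i)), ?_⟩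
    rw [pow_succ, dx_mul, he, add_mul]

/-- Coset functional. -/
noncomputable def lam (S : Set G) : GA k G →ₗ[k] k :=
  letI := Classical.decPred (· ∈ S)
  (MonoidAlgebra.basis G k).constr k (fun g => if g ∈ S then 1 else 0)

lemma lam_mem {S : Set G} {g : G} (h : g ∈ S) : lam S (o g : GA k G) = 1 := by
  classical
  have : (o g : GA k G) = MonoidAlgebra.basis G k g := by simp [o, MonoidAlgebra.of]
  unfold lam
  rw [this, Module.Basis.constr_basis]
  simp [h]

lemma lam_not_mem {S : Set G} {g : G} (h : g ∉ S) : lam S (o g : GA k G) = 0 := by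
  classical
  have : (o g : GA k G) = MonoidAlgebra.basis G k g := by simp [o, MonoidAlgebra.of]
  unfold lam
  rw [this, Module.Basis.constr_basis]
  simp [h]

lemma lam_mul_dx {L : Subgroup G} (h : G) {l : G} (hl : l ∈ L) (x : GA k G) :
    lam {g | ∃ a ∈ L, g = h * a} (x * dx l) = 0 := by
  induction x using MonoidAlgebra.induction_linear with
  | zero => simp
  | add x y h1 h2 => rw [add_mul, map_add, h1, h2, add_zero]
  | single m r =>
    have e : (MonoidAlgebra.single m r : GA k G) = r • o m := by simp [o]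
    rw [e, smul_mul_assoc, map_smul, dx, mul_sub, mul_one, map_sub, ← o_mul]
    by_cases hm : m ∈ {g | ∃ a ∈ L, g = h * a}
    · have hm' : m * l ∈ {g | ∃ a ∈ L, g = h * a} := by
        obtain ⟨a, ha, rfl⟩ := hm
        exact ⟨a * l, L.mul_mem ha hl, by group⟩
      rw [lam_mem hm, lam_mem hm', sub_self, smul_zero]
    · have hm' : m * l ∉ {g | ∃ a ∈ L, g = h * a} := by
        rintro ⟨a, ha, he⟩
        refine hm ⟨a * l⁻¹, L.mul_mem ha (L.inv_mem hl), ?_⟩
        rw [← mul_assoc, ← he]; group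
      rw [lam_not_mem hm, lam_not_mem hm', sub_self, smul_zero]

end

namespace Cert

variable {k : Type} [Field k] {G : Type} [Group G] {K : Subgroup G} (C : Cert k K)

lemma gens_in {L : Subgroup G} (h : ∀ i, C.g i ∈ L) : K ≤ L := by
  intro a ha
  obtain ⟨c, -, he⟩ := C.gen 1 le_rfl _ (C.one a ha)
  have h1 := congrArg (lam {g | ∃ b ∈ L, g = a * b}) he
  have h0 : a ∈ {g | ∃ b ∈ L, g = a * b} := ⟨1, L.one_mem, (mul_one a).symm⟩
  rw [map_sum, Finset.sum_eq_zero fun i _ => lam_mul_dx a (h i) (c i), dx, map_sub,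
    lam_mem h0, sub_eq_zero] at h1
  by_contra hna
  have h2 : (1 : G) ∉ {g | ∃ b ∈ L, g = a * b} := by
    rintro ⟨b, hb, he⟩
    exact hna (by rw [eq_comm, mul_eq_one_iff_eq_inv] at he; rw [he]; exact L.inv_mem hb)
  rw [← o_one, lam_not_mem h2] at h1
  exact one_ne_zero h1

/-- Elementary change of the generators. -/
theorem baseChange (j0 : C.ι) (m : C.ι → GA k G) (g' : C.ι → G)
    (hm0 : m j0 = 0) (hm : ∀ j, m j ∈ C.J (C.e j - C.e j0)) (hg' : ∀ j, g' j ∈ K)
    (hx : ∀ j, dx (g' j) = dx (C.g j) + m j * dx (C.g j0)) :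
    ∃ C' : Cert k K, ∃ f : C.ι ≃ C'.ι, (∀ j, C'.g (f j) = g' j) ∧ (∀ j, C'.e (f j) = C.e j) ∧
      C'.J = C.J ∧ ∀ t, C'.D t = C.D t := by
  have hx0 : (dx (g' j0) : GA k G) = dx (C.g j0) := by rw [hx j0, hm0, zero_mul, add_zero]
  have key : ∀ s : C.ι → GA k G, ∑ j, s j * dx (g' j)
      = ∑ j, s j * dx (C.g j) + (∑ j, s j * m j) * dx (C.g j0) := by
    intro s
    rw [Finset.sum_mul, ← Finset.sum_add_distrib]
    refine Finset.sum_congr rfl fun j _ => ?_
    rw [hx]; noncomm_ring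
  have key2 : ∀ (s : C.ι → GA k G) (y : GA k G),
      ∑ j, (s j + if j = j0 then y else 0) * dx (C.g j)
      = ∑ j, s j * dx (C.g j) + y * dx (C.g j0) := by
    intro s y
    simp only [add_mul, Finset.sum_add_distrib, ite_mul, zero_mul]
    rw [Finset.sum_ite_eq' univ j0]
    simp
  have key3 : ∀ (s : C.ι → GA k G) (y : GA k G),
      ∑ j, (s j + if j = j0 then y else 0) * m j = ∑ j, s j * m j := by
    intro s y
    refine Finset.sum_congr rfl fun j _ => ?_
    split_ifs with h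
    · rw [h, hm0, mul_zero, mul_zero]
    · rw [add_zero]
  refine ⟨{
    ι := C.ι
    κ := C.κ
    fι := C.fι
    fκ := C.fκ
    g := g'
    e := C.e
    r := fun a j => C.r a j + if j = j0 then - ∑ i, C.r a i * m i else 0
    d := C.d
    J := C.J
    g_mem := hg'
    e_pos := C.e_pos
    J_zero := C.J_zero
    J_anti := C.J_anti
    J_mul := C.J_mul
    x_mem := ?_
    one := C.one
    gen := ?_
    r_mem := ?_
    r_syz := ?_
    r_gen := ?_ }, Equiv.refl _, fun j => rfl, fun j => rfl, rfl, fun t => rfl⟩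
  · intro j
    rw [hx]
    exact Submodule.add_mem _ (C.x_mem j) (C.J_mul' (by omega) (hm j) (C.x_mem j0))
  · intro n hn x hxn
    obtain ⟨c, hc, rfl⟩ := C.gen n hn x hxn
    refine ⟨fun j => c j + if j = j0 then - ∑ i, c i * m i else 0, fun j => ?_, ?_⟩
    · refine Submodule.add_mem _ (hc j) ?_
      split_ifs with h
      · subst h
        refine Submodule.neg_mem _ (Submodule.sum_mem _ fun i _ => ?_)
        exact C.J_mul' (by omega) (hc i) (hm i)
      · exact Submodule.zero_mem _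
    · rw [key, key2, key3]; noncomm_ring
  · intro a j
    refine Submodule.add_mem _ (C.r_mem a j) ?_
    split_ifs with h
    · subst h
      refine Submodule.neg_mem _ (Submodule.sum_mem _ fun i _ => ?_)
      exact C.J_mul' (by omega) (C.r_mem a i) (hm i)
    · exact Submodule.zero_mem _
  · intro a
    rw [key, key2, key3, C.r_syz]; noncomm_ring
  · intro s hs h
    obtain ⟨w, hw, hwe⟩ := C.r_gen (fun j => s j + if j = j0 then ∑ i, s i * m i else 0)
      (fun j => Submodule.add_mem _ (hs j) (by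
        split_ifs with h
        · exact Submodule.sum_mem _ fun i _ => C.mul_left_mem (hs i) (C.J_sub0 (hm i))
        · exact Submodule.zero_mem _))
      (by rw [key2, ← key, h])
    refine ⟨w, hw, fun j => ?_⟩
    by_cases hj : j = j0
    · have h1 := hwe j
      simp only [hj, if_true] at h1 ⊢
      have h2 : ∀ i, s i * m i = ∑ a, w a * (C.r a i * m i) := by
        intro i
        by_cases hi : i = j0
        · rw [hi, hm0]; simp
        · have h3 := hwe i
          simp only [hi, if_false, add_zero] at h3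
          rw [h3, Finset.sum_mul]
          exact Finset.sum_congr rfl fun a _ => by rw [mul_assoc]
      simp only [mul_add, Finset.sum_add_distrib]
      rw [← h1]
      have h4 : ∑ a, w a * - ∑ i, C.r a i * m i = - ∑ i, s i * m i := by
        simp only [mul_neg, Finset.mul_sum, Finset.sum_neg_distrib]
        rw [Finset.sum_comm]
        congr 1
        exact Finset.sum_congr rfl fun i _ => (h2 i).symm
      rw [h4]; abel
    · have h1 := hwe j
      simp only [hj, if_false, add_zero] at h1 ⊢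
      exact h1

/-- Passing to a normal subgroup of index `p`. -/
theorem hstep {p : ℕ} [Fact p.Prime] [CharP k p] (L : Subgroup G) (hLK : L ≤ K)
    (hn : (L.subgroupOf K).Normal) (hi : (L.subgroupOf K).index = p) (e : ℕ)
    (he : ∀ h ∈ K, dx h ∈ C.J (e + 1) → h ∈ L) :
    ∃ C' : Cert k L, (∀ n, C'.J n = C.J n ⊓ BK L) ∧
      ∀ t : ℝ, 0 < t → t ≤ 1 → 0 ≤ C.D t → (∑ i ∈ range p, t ^ (i * e)) * C.D t ≤ C'.D t := by
  classical
  have hp : p.Prime := Fact.out
  -- facts about the quotient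
  have hcard : Nat.card (K ⧸ L.subgroupOf K) = p := hi
  have hcov : ∀ τ ∈ K, τ ∉ L → ∀ h ∈ K, ∃ l ∈ L, ∃ i < p, h = l * τ ^ i := by
    intro τ hτ hτL h hh
    let q : K →* K ⧸ L.subgroupOf K := QuotientGroup.mk' _
    have h1 : q ⟨τ, hτ⟩ ≠ 1 := by
      intro h1
      rw [QuotientGroup.mk'_apply, QuotientGroup.eq_one_iff, Subgroup.mem_subgroupOf] at h1
      exact hτL h1
    have h2 : q ⟨h, hh⟩ ∈ Subgroup.zpowers (q ⟨τ, hτ⟩) := mem_zpowers_of_prime_card hcard h1
    have hfin : Finite (K ⧸ L.subgroupOf K) := Nat.finite_of_card_ne_zero (by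
      rw [hcard]; exact hp.ne_zero)
    have hord : orderOf (q ⟨τ, hτ⟩) = p := orderOf_eq_prime (by
      rw [← hcard]; exact pow_card_eq_one') h1
    rw [← mem_powers_iff_mem_zpowers, mem_powers_iff_mem_range_orderOf, hord] at h2
    simp only [Finset.mem_image, Finset.mem_range] at h2
    obtain ⟨i, hi, hie⟩ := h2
    refine ⟨h * (τ ^ i)⁻¹, ?_, i, hi, by group⟩
    have h3 : q (⟨h, hh⟩ * (⟨τ, hτ⟩ ^ i)⁻¹) = 1 := by
      rw [map_mul, map_inv, map_pow, hie, mul_inv_cancel]
    rw [QuotientGroup.mk'_apply, QuotientGroup.eq_one_iff, Subgroup.mem_subgroupOf] at h3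
    exact h3
  have hnm : ∀ τ ∈ K, τ ∉ L → ∀ i, 0 < i → i < p → τ ^ i ∉ L := by
    intro τ hτ hτL i h0 hip hmem
    let q : K →* K ⧸ L.subgroupOf K := QuotientGroup.mk' _
    have h1 : q ⟨τ, hτ⟩ ≠ 1 := by
      intro h1
      rw [QuotientGroup.mk'_apply, QuotientGroup.eq_one_iff, Subgroup.mem_subgroupOf] at h1
      exact hτL h1
    have hfin : Finite (K ⧸ L.subgroupOf K) := Nat.finite_of_card_ne_zero (by
      rw [hcard]; exact hp.ne_zero)
    have hord : orderOf (q ⟨τ, hτ⟩) = p := orderOf_eq_prime (by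
      rw [← hcard]; exact pow_card_eq_one') h1
    have h2 : q ⟨τ, hτ⟩ ^ i = 1 := by
      rw [← map_pow, QuotientGroup.mk'_apply, QuotientGroup.eq_one_iff, Subgroup.mem_subgroupOf]
      exact hmem
    have h3 := orderOf_dvd_of_pow_eq_one h2
    rw [hord] at h3
    exact absurd (Nat.le_of_dvd h0 h3) (by omega)
  have hpow : ∀ τ ∈ K, τ ^ p ∈ L := by
    intro τ hτ
    let q : K →* K ⧸ L.subgroupOf K := QuotientGroup.mk' _
    have h2 : q ⟨τ, hτ⟩ ^ p = 1 := by
      rw [← hcard]; exact pow_card_eq_one'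
    rw [← map_pow, QuotientGroup.mk'_apply, QuotientGroup.eq_one_iff,
      Subgroup.mem_subgroupOf] at h2
    exact h2
  have hconj : ∀ τ ∈ K, ∀ l ∈ L, τ * l * τ⁻¹ ∈ L := by
    intro τ hτ l hl
    have := hn.conj_mem ⟨l, hLK hl⟩ (Subgroup.mem_subgroupOf.2 hl) ⟨τ, hτ⟩
    exact this
  -- a generator outside `L` of largest degree
  obtain ⟨j1, hj1⟩ : ∃ j, C.g j ∉ L := by
    by_contra hcon
    push Not at hcon
    have h1 := C.gens_in hcon
    have h2 : L.subgroupOf K = ⊤ := Subgroup.subgroupOf_eq_top.2 h1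
    rw [h2, Subgroup.index_top] at hi
    exact hp.one_lt.ne hi
  obtain ⟨j0, hj0, hmax⟩ := Finset.exists_max_image (univ.filter fun j => C.g j ∉ L) C.e
    ⟨j1, by simp [hj1]⟩
  simp only [Finset.mem_filter, Finset.mem_univ, true_and] at hj0 hmax
  have hgen : ∀ j, ∃ (m : GA k G) (g' : G), (j = j0 → m = 0 ∧ g' = C.g j0) ∧ (j ≠ j0 → g' ∈ L) ∧
      m ∈ C.J (C.e j - C.e j0) ∧ g' ∈ K ∧ dx g' = dx (C.g j) + m * dx (C.g j0) := by
    intro j
    by_cases hj : j = j0
    · refine ⟨0, C.g j0, fun _ => ⟨rfl, rfl⟩, fun h => absurd hj h, Submodule.zero_mem _,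
        C.g_mem _, ?_⟩
      rw [hj, zero_mul, add_zero]
    · by_cases hjL : C.g j ∈ L
      · exact ⟨0, C.g j, fun h => absurd h hj, fun _ => hjL, Submodule.zero_mem _, C.g_mem _,
          by rw [zero_mul, add_zero]⟩
      · obtain ⟨l, hl, i, -, hli⟩ := hcov (C.g j0) (C.g_mem j0) hj0 (C.g j) (C.g_mem j)
        obtain ⟨q, hq, hqe⟩ := dx_pow_factor (k := k) (C.g j0) i (C.g_mem j0)
        refine ⟨- (o l * q), l, fun h => absurd h hj, fun _ => hl, ?_, hLK hl, ?_⟩
        · have h1 := hmax j hjL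
          rw [Nat.sub_eq_zero_of_le h1, C.J_zero]
          exact Submodule.neg_mem _ (mul_mem_BK (o_mem_BK (hLK hl)) hq)
        · rw [hli, dx_mul, hqe]; noncomm_ring
  choose m g' h1 h2 h3 h4 h5 using hgen
  obtain ⟨C1, f, hf1, hf2, hf3, hf4⟩ := C.baseChange j0 m g' (h1 j0 rfl).1 h3 h4 h5
  have hg0 : C1.g (f j0) = C.g j0 := by rw [hf1, (h1 j0 rfl).2]
  have S : C1.SD p L (f j0) := by
    refine ⟨hLK, ?_, ?_, ?_, ?_, ?_⟩
    · rw [hg0]; exact hconj _ (C.g_mem j0)
    · rw [hg0]; exact hpow _ (C.g_mem j0)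
    · rw [hg0]; exact hcov _ (C.g_mem j0) hj0
    · rw [hg0]; exact hnm _ (C.g_mem j0) hj0
    · intro j hj
      obtain ⟨i, rfl⟩ := f.surjective j
      rw [hf1]
      exact h2 i (fun h => hj (by rw [h]))
  obtain ⟨C2, hJ, hD⟩ := S.step
  refine ⟨C2, fun n => by rw [hJ, hf3], fun t t0 t1 hDt => ?_⟩
  rw [hD, hf4, hf2]
  refine mul_le_mul_of_nonneg_right (Finset.sum_le_sum fun i _ => ?_) hDt
  refine pow_le_pow_of_le_one t0.le t1 (Nat.mul_le_mul_left i ?_)
  by_contra hlt
  exact hj0 (he _ (C.g_mem j0) (C.J_le (by omega) (C.x_mem j0)))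

end Cert

end Pool.Agent.Helper904.GS
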