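import Pool.Agent.Helper904.GS.YFam

set_option autoImplicit false

namespace Pool.Agent.Helper904.GS

open Finset

lemma exists_mid {G : Type} [Group G] {p : ℕ} [Fact p.Prime] {K L : Subgroup G} (hLK : L ≤ K)
    (hn : (L.subgroupOf K).Normal) (s : ℕ) (hi : (L.subgroupOf K).index = p ^ (s + 1))
    (hcomm : ∀ a ∈ K, ∀ b ∈ K, a * b * a⁻¹ * b⁻¹ ∈ L) :
    ∃ M : Subgroup G, L ≤ M ∧ M ≤ K ∧ (M.subgroupOf K).Normal ∧ (M.subgroupOf K).index = p ∧
      (L.subgroupOf M).index = p ^ s := by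
  have hp : p.Prime := Fact.out
  have hcard : Nat.card (K ⧸ L.subgroupOf K) = p ^ (s + 1) := hi
  have hfin : Finite (K ⧸ L.subgroupOf K) := Nat.finite_of_card_ne_zero (by
    rw [hcard]; exact pow_ne_zero _ hp.ne_zero)
  obtain ⟨A, hA⟩ := Sylow.exists_subgroup_card_pow_prime (G := K ⧸ L.subgroupOf K) p (n := s)
    (by rw [hcard]; exact pow_dvd_pow p (Nat.le_succ s))
  have hAi : A.index = p := by
    have h1 := A.card_mul_index
    rw [hA, hcard, pow_succ] at h1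
    exact Nat.eq_of_mul_eq_mul_left (pow_pos hp.pos s) h1
  set A0 : Subgroup K := A.comap (QuotientGroup.mk' (L.subgroupOf K)) with hA0
  have hA0i : A0.index = p := by
    rw [hA0, Subgroup.index_comap_of_surjective _ (QuotientGroup.mk'_surjective _), hAi]
  have hLA0 : L.subgroupOf K ≤ A0 := by
    intro x hx
    rw [hA0, Subgroup.mem_comap]
    have : (QuotientGroup.mk' (L.subgroupOf K)) x = 1 := by
      rw [QuotientGroup.mk'_apply, QuotientGroup.eq_one_iff]; exact hx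
    rw [this]; exact A.one_mem
  set M : Subgroup G := A0.map K.subtype with hM
  have hMK : M ≤ K := by
    rintro _ ⟨x, -, rfl⟩
    exact x.2
  have hMs : M.subgroupOf K = A0 := by
    rw [hM, Subgroup.subgroupOf, Subgroup.comap_map_eq_self_of_injective K.subtype_injective]
  have hLM : L ≤ M := by
    intro x hx
    exact ⟨⟨x, hLK hx⟩, hLA0 (Subgroup.mem_subgroupOf.2 hx), rfl⟩
  refine ⟨M, hLM, hMK, ?_, by rw [hMs, hA0i], ?_⟩
  · refine ⟨fun x hx g => ?_⟩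
    rw [Subgroup.mem_subgroupOf] at hx ⊢
    have e : ((g * x * g⁻¹ : K) : G) = ((g : G) * x * (g : G)⁻¹ * (x : G)⁻¹) * x := by
      simp
    rw [e]
    exact M.mul_mem (hLM (hcomm g g.2 x x.2)) hx
  · have h1 : L.relIndex M * M.relIndex K = L.relIndex K :=
      Subgroup.relIndex_mul_relIndex L M K hLM hMK
    have h2 : M.relIndex K = p := by
      change (M.subgroupOf K).index = p
      rw [hMs, hA0i]
    have h3 : L.relIndex K = p ^ (s + 1) := hi
    rw [h2, h3, pow_succ] at h1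
    exact Nat.eq_of_mul_eq_mul_right hp.pos h1

variable {k : Type} [Field k] {G : Type} [Group G]

/-- The growth factor of level `e`. -/
noncomputable def Sf (p e : ℕ) (t : ℝ) : ℝ := ∑ i ∈ range p, t ^ (i * e)

lemma Sf_ge_one {p : ℕ} (hp : 1 ≤ p) (e : ℕ) {t : ℝ} (t0 : 0 < t) : 1 ≤ Sf p e t := by
  have : (t : ℝ) ^ (0 * e) ≤ ∑ i ∈ range p, t ^ (i * e) :=
    Finset.single_le_sum (f := fun i => t ^ (i * e)) (fun i _ => by positivity)
      (Finset.mem_range.2 hp)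
  simpa [Sf] using this

lemma comm_mem {K : Subgroup G} (C : Cert k K) {e : ℕ} (he1 : 1 ≤ e)
    (hlev : ∀ h ∈ K, dx h ∈ C.J e) {a b : G} (ha : a ∈ K) (hb : b ∈ K) :
    dx (a * b * a⁻¹ * b⁻¹) ∈ C.J (e + 1) := by
  have e1 : (dx (a * b * a⁻¹ * b⁻¹) : GA k G) = (dx a * dx b - dx b * dx a) * o (a⁻¹ * b⁻¹) := by
    have e2 : (o (a * b * a⁻¹ * b⁻¹) : GA k G) = o a * o b * o (a⁻¹ * b⁻¹) := by
      rw [← o_mul, ← o_mul]; congr 1; group
    have e3 : (1 : GA k G) = o b * o a * o (a⁻¹ * b⁻¹) := by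
      rw [← o_mul, ← o_mul, ← o_one]; congr 1; group
    rw [dx, e2, dx, dx]
    conv_lhs => rw [e3]
    noncomm_ring
  rw [e1]
  refine C.mul_right_mem (Submodule.sub_mem _ (C.J_mul' (by omega) (hlev a ha) (hlev b hb))
    (C.J_mul' (by omega) (hlev b hb) (hlev a ha))) (C.o_mem (K.mul_mem (K.inv_mem ha) (K.inv_mem hb)))

/-- Descent from `K` to `L` inside one level. -/
theorem level {p : ℕ} [Fact p.Prime] [CharP k p] (s : ℕ) : ∀ {K L : Subgroup G} (C : Cert k K)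
    (_ : L ≤ K) (_ : (L.subgroupOf K).Normal) (_ : (L.subgroupOf K).index = p ^ s)
    {e : ℕ} (_ : 1 ≤ e) (_ : ∀ h ∈ K, dx h ∈ C.J e) (_ : ∀ h ∈ K, dx h ∈ C.J (e + 1) → h ∈ L),
    ∃ C' : Cert k L, (∀ n, C'.J n = C.J n ⊓ BK L) ∧
      (∀ t : ℝ, 0 < t → t ≤ 1 → 0 ≤ C.D t → Sf p e t ^ s * C.D t ≤ C'.D t) ∧
      (∀ (Γ : Subgroup G) (t δ : ℝ), 0 < t → t ≤ 1 → 0 ≤ δ → YF C Γ t δ →
        YF C' Γ t (Sf p e t ^ s * δ)) ∧
      (∀ (Γ : Subgroup G) (t δ : ℝ), Γ ⊓ K ≤ L → YF C Γ t δ → YF C' Γ t δ) := by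
  have hp1 : 1 ≤ p := (Fact.out : p.Prime).one_lt.le
  induction s with
  | zero =>
    intro K L C hLK hn hi e he1 hlev he
    have h1 : K = L := by
      rw [pow_zero, Subgroup.index_eq_one, Subgroup.subgroupOf_eq_top] at hi
      exact le_antisymm hi hLK
    subst h1
    refine ⟨C, fun n => ?_, fun t _ _ _ => by simp, fun Γ t δ _ _ _ h => by simpa using h,
      fun Γ t δ _ h => h⟩
    rw [← C.J_zero]
    exact (inf_eq_left.2 (C.J_anti (Nat.zero_le n))).symm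
  | succ s ih =>
    intro K L C hLK hn hi e he1 hlev he
    have hcomm : ∀ a ∈ K, ∀ b ∈ K, a * b * a⁻¹ * b⁻¹ ∈ L := fun a ha b hb =>
      he _ (K.mul_mem (K.mul_mem (K.mul_mem ha hb) (K.inv_mem ha)) (K.inv_mem hb))
        (comm_mem C he1 hlev ha hb)
    obtain ⟨M, hLM, hMK, hMn, hMi, hLi⟩ := exists_mid hLK hn s hi hcomm
    have heM : ∀ h ∈ K, dx h ∈ C.J (e + 1) → h ∈ M := fun h hh h1 => hLM (he h hh h1)
    obtain ⟨C1, hJ1, hD1⟩ := C.hstep M hMK hMn hMi e heM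
    have hLn : (L.subgroupOf M).Normal := by
      refine ⟨fun x hx g => ?_⟩
      rw [Subgroup.mem_subgroupOf] at hx ⊢
      exact hn.conj_mem ⟨x, hMK x.2⟩ (Subgroup.mem_subgroupOf.2 hx) ⟨g, hMK g.2⟩
    have hlev1 : ∀ h ∈ M, dx h ∈ C1.J e := fun h hh => by
      rw [hJ1]; exact ⟨hlev h (hMK hh), dx_mem_BK hh⟩
    have he1' : ∀ h ∈ M, dx h ∈ C1.J (e + 1) → h ∈ L := fun h hh h1 => by
      rw [hJ1] at h1; exact he h (hMK hh) h1.1
    obtain ⟨C2, hJ2, hD2, hY2, hZ2⟩ := ih C1 hLM hLn hLi he1 hlev1 he1'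
    refine ⟨C2, fun n => ?_, fun t t0 t1 hD => ?_, fun Γ t δ t0 t1 hδ Y => ?_,
      fun Γ t δ hΓ Y => ?_⟩
    · rw [hJ2, hJ1, inf_assoc, inf_eq_right.2 (BK_mono hLM)]
    · have h1 := hD1 t t0 t1 hD
      have hS := Sf_ge_one hp1 e t0
      have h0 : 0 ≤ Sf p e t * C.D t := mul_nonneg (by linarith) hD
      have h2 : 0 ≤ C1.D t := h0.trans h1
      have h3 := hD2 t t0 t1 h2
      refine le_trans ?_ h3
      rw [pow_succ, mul_assoc]
      exact mul_le_mul_of_nonneg_left h1 (by positivity)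
    · have h1 := YF.step C1 hJ1 hMK hMn hMi he1 hlev heM t0 t1 hδ Y
      have hS := Sf_ge_one hp1 e t0
      have h2 := hY2 Γ t (Sf p e t * δ) t0 t1 (mul_nonneg (by linarith) hδ) h1
      rw [pow_succ, mul_assoc]
      exact h2
    · exact hZ2 Γ t δ ((inf_le_inf_left Γ hMK).trans hΓ) (YF.untouched C1 hJ1 hMK (hΓ.trans hLM) Y)

end Pool.Agent.Helper904.GS
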