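import Mathlib

set_option autoImplicit false

namespace Pool.Agent.Helper904.GS

/-- Left normed commutators. -/
def lc {G : Type} [Group G] {β : Type} (y : β → G) : (n : ℕ) → (Fin (n + 1) → β) → G
  | 0, u => y (u 0)
  | n + 1, u => lc y n (Fin.tail u) * y (u 0) * (lc y n (Fin.tail u))⁻¹ * (y (u 0))⁻¹

lemma map_lc {G G' : Type} [Group G] [Group G'] {β : Type} (f : G →* G') (y : β → G) (n : ℕ) :
    ∀ u : Fin (n + 1) → β, f (lc y n u) = lc (fun b => f (y b)) n u := by
  induction n with
  | zero => intro u; rfl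
  | succ n ih => intro u; simp only [lc, map_mul, map_inv, ih]

lemma finite_of_quot {H : Type} [Group H] (A : Subgroup H) (h1 : Finite A) (h2 : Finite (H ⧸ A)) :
    Finite H := Finite.of_equiv _ (Subgroup.groupEquivQuotientProdSubgroup (s := A)).symm

/-- A nilpotent group generated by finitely many elements of finite order is finite. -/
theorem nilp_fin (n : ℕ) : ∀ {H : Type} [Group H] {β : Type} [Finite β] (z : β → H),
    Subgroup.closure (Set.range z) = ⊤ → (∀ b, ∃ m, 0 < m ∧ z b ^ m = 1) →
    (∀ u, lc z n u = 1) → Finite H := by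
  induction n with
  | zero =>
    intro H _ β _ z hz _ hu
    have h1 : ∀ b, z b = 1 := fun b => hu (fun _ => b)
    have h2 : Subgroup.closure (Set.range z) = ⊥ := by
      rw [Subgroup.closure_eq_bot_iff]
      rintro _ ⟨b, rfl⟩
      exact h1 b
    have h3 : ∀ x : H, x = 1 := by
      intro x
      have : x ∈ (⊤ : Subgroup H) := Subgroup.mem_top x
      rw [← hz, h2] at this
      exact Subgroup.mem_bot.1 this
    have : Subsingleton H := ⟨fun a b => by rw [h3 a, h3 b]⟩
    infer_instance
  | succ n ih =>
    intro H _ β _ z hz ht hu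
    have hcomm : ∀ u b, lc z n u * z b = z b * lc z n u := by
      intro u b
      have h1 := hu (Fin.cons b u)
      simp only [lc, Fin.tail_cons, Fin.cons_zero] at h1
      rw [mul_inv_eq_one, mul_inv_eq_iff_eq_mul] at h1
      exact h1
    have hcen : ∀ u, lc z n u ∈ Subgroup.center H := by
      intro u
      rw [Subgroup.mem_center_iff]
      intro g
      have hg : g ∈ Subgroup.closure (Set.range z) := by rw [hz]; trivial
      induction hg using Subgroup.closure_induction with
      | mem x hx => obtain ⟨b, rfl⟩ := hx; exact (hcomm u b).symm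
      | one => simp
      | mul x y _ _ h1 h2 => rw [mul_assoc, h2, ← mul_assoc, h1, mul_assoc]
      | inv x _ h1 => rw [inv_mul_eq_iff_eq_mul, ← mul_assoc, h1, mul_assoc, mul_inv_cancel, mul_one]
    set A : Subgroup H := Subgroup.closure (Set.range (lc z n)) with hA
    have hAc : A ≤ Subgroup.center H := by
      rw [hA, Subgroup.closure_le]
      rintro _ ⟨u, rfl⟩
      exact hcen u
    have hAn : A.Normal := ⟨fun x hx g => by
      have := Subgroup.mem_center_iff.1 (hAc hx) g
      rw [this, mul_assoc, mul_inv_cancel, mul_one]; exact hx⟩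
    have htor : ∀ u, IsOfFinOrder (lc z n u) := by
      intro u
      cases n with
      | zero =>
        obtain ⟨m, hm, h⟩ := ht (u 0)
        exact isOfFinOrder_iff_pow_eq_one.2 ⟨m, hm, h⟩
      | succ n =>
        obtain ⟨m, hm, h⟩ := ht (u 0)
        refine isOfFinOrder_iff_pow_eq_one.2 ⟨m, hm, ?_⟩
        set x := lc z n (Fin.tail u) with hx
        set w := z (u 0) with hw
        set c := lc z (n + 1) u with hc
        have hc' : c = x * w * x⁻¹ * w⁻¹ := rfl
        have h1 : x * w * x⁻¹ = c * w := by rw [hc']; group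
        have h2 : (x * w * x⁻¹) ^ m = 1 := by
          rw [conj_pow, h, mul_one, mul_inv_cancel]
        have h3 : Commute c w := hcomm u (u 0)
        rw [h1, h3.mul_pow, h, mul_one] at h2
        exact h2
    have htorA : ∀ x ∈ A, IsOfFinOrder x := by
      intro x hx
      rw [hA] at hx
      induction hx using Subgroup.closure_induction with
      | mem x hx => obtain ⟨u, rfl⟩ := hx; exact htor u
      | one => exact IsOfFinOrder.one
      | mul x y hx hy h1 h2 =>
        exact Commute.isOfFinOrder_mul (Subgroup.mem_center_iff.1 (hAc hy) x) h1 h2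
      | inv x _ h1 => exact h1.inv
    have hfinA : Finite A := by
      let inst : CommGroup A := { (inferInstance : Group A) with
        mul_comm := fun a b => Subtype.ext (Subgroup.mem_center_iff.1 (hAc b.2) a) }
      have hfg : @Group.FG A inst.toGroup := by
        change Group.FG A
        rw [Group.fg_iff_subgroup_fg]
        exact (Subgroup.fg_iff _).2 ⟨Set.range (lc z n), rfl, Set.finite_range _⟩
      refine @CommGroup.finite_of_fg_isMulTorsion A inst hfg ?_
      intro a
      have h1 := htorA a a.2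
      rw [isOfFinOrder_iff_pow_eq_one] at h1 ⊢
      obtain ⟨m, hm, h⟩ := h1
      exact ⟨m, hm, Subtype.ext h⟩
    have hfinQ : Finite (H ⧸ A) := by
      refine ih (fun b => (QuotientGroup.mk' A) (z b)) ?_ ?_ ?_
      · have h1 : Set.range (fun b => (QuotientGroup.mk' A) (z b)) =
            (QuotientGroup.mk' A) '' Set.range z := by
          rw [← Set.range_comp]; rfl
        rw [h1, ← MonoidHom.map_closure, hz,
          Subgroup.map_top_of_surjective _ (QuotientGroup.mk'_surjective A)]
      · intro b
        obtain ⟨m, hm, h⟩ := ht b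
        exact ⟨m, hm, by rw [← map_pow, h, map_one]⟩
      · intro u
        rw [← map_lc]
        exact (QuotientGroup.eq_one_iff _).2 (Subgroup.subset_closure ⟨u, rfl⟩)
    exact finite_of_quot A hfinA hfinQ

/-- Passing from a subgroup of finite index to the whole group, for images. -/
lemma fin_map {G G' : Type} [Group G] [Group G'] (f : G →* G') (Γ K : Subgroup G)
    (hK : K.index ≠ 0) (h : Finite ((Γ ⊓ K).map f)) : Finite (Γ.map f) := by
  have hφ : Function.Surjective (f.subgroupMap Γ) := f.subgroupMap_surjective Γ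
  set A : Subgroup (Γ.map f) := (K.subgroupOf Γ).map (f.subgroupMap Γ) with hA
  have h1 : (K.subgroupOf Γ).index ≠ 0 := by
    have : K.FiniteIndex := ⟨hK⟩
    exact Subgroup.FiniteIndex.index_ne_zero
  have h2 : A.index ≠ 0 := fun h3 => h1 (Nat.eq_zero_of_zero_dvd
    (h3 ▸ Subgroup.index_map_dvd (K.subgroupOf Γ) hφ))
  refine finite_of_quot A ?_ ?_
  · have key : ∀ x : A, ((x : Γ.map f) : G') ∈ (Γ ⊓ K).map f := by
      rintro ⟨_, ⟨g, hg, rfl⟩⟩
      exact ⟨g, ⟨g.2, Subgroup.mem_subgroupOf.1 hg⟩, rfl⟩
    refine Finite.of_injective (fun x : A => (⟨_, key x⟩ : (Γ ⊓ K).map f)) ?_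
    intro x y hxy
    exact Subtype.ext (Subtype.ext (congrArg (fun z : (Γ ⊓ K).map f => (z : G')) hxy))
  · have : A.FiniteIndex := ⟨h2⟩
    infer_instance

/-- Choosing the exponents for the change of weights. -/
lemma exists_ab {t d D : ℝ} (t0 : 0 < t) (t1 : t < 1) (hd : 0 ≤ d) (hdD : d < D) :
    ∃ (a b : ℕ) (s : ℝ), 1 ≤ b ∧ 0 < s ∧ s < 1 ∧ s ^ b = t ∧ s ^ a * (1 + d) < 1 ∧
      1 < s ^ a * (1 + D) := by
  have hlt : Real.log t < 0 := Real.log_neg t0 t1
  have h1 : 0 ≤ Real.log (1 + d) := Real.log_nonneg (by linarith)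
  have h2 : Real.log (1 + d) < Real.log (1 + D) := Real.log_lt_log (by linarith) (by linarith)
  have h3 : Real.log (1 + d) / (-Real.log t) < Real.log (1 + D) / (-Real.log t) :=
    div_lt_div_of_pos_right h2 (by linarith)
  obtain ⟨q, hq1, hq2⟩ := exists_rat_btwn h3
  have hq0 : 0 < (q : ℝ) := lt_of_le_of_lt (div_nonneg h1 (by linarith)) hq1
  have hq0' : 0 < q := by exact_mod_cast hq0
  have hb : 0 < q.den := q.den_pos
  have hbR : (0 : ℝ) < q.den := by exact_mod_cast hb
  have ha : (q.num.toNat : ℤ) = q.num := Int.toNat_of_nonneg (Rat.num_nonneg.2 hq0'.le)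
  have haR : (q.num.toNat : ℝ) = (q : ℝ) * q.den := by
    have e1 : (q.num : ℝ) = (q : ℝ) * q.den := by
      exact_mod_cast (Rat.mul_den_eq_num q).symm
    rw [← e1]
    exact_mod_cast congrArg (fun z : ℤ => (z : ℝ)) ha
  have hlog : Real.log t / q.den < 0 := div_neg_of_neg_of_pos hlt hbR
  refine ⟨q.num.toNat, q.den, Real.exp (Real.log t / q.den), hb, Real.exp_pos _,
    Real.exp_lt_one_iff.2 hlog, ?_, ?_, ?_⟩
  · rw [← Real.exp_nat_mul]
    have : (q.den : ℝ) * (Real.log t / q.den) = Real.log t := by field_simp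
    rw [this, Real.exp_log t0]
  · rw [← Real.exp_nat_mul, haR]
    have e1 : (q : ℝ) * q.den * (Real.log t / q.den) = q * Real.log t := by field_simp
    have e2 : (1 + d) = Real.exp (Real.log (1 + d)) := (Real.exp_log (by linarith)).symm
    rw [e1]
    nth_rewrite 1 [e2]
    rw [← Real.exp_add]
    refine Real.exp_lt_one_iff.2 ?_
    rw [div_lt_iff₀ (by linarith)] at hq1
    linarith
  · rw [← Real.exp_nat_mul, haR]
    have e1 : (q : ℝ) * q.den * (Real.log t / q.den) = q * Real.log t := by field_simp
    have e2 : (1 + D) = Real.exp (Real.log (1 + D)) := (Real.exp_log (by linarith)).symm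
    rw [e1]
    nth_rewrite 1 [e2]
    rw [← Real.exp_add]
    refine Real.one_lt_exp_iff.2 ?_
    rw [lt_div_iff₀ (by linarith)] at hq2
    linarith

end Pool.Agent.Helper904.GS
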