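import Pool.Agent.Helper904.GS.Good
import Pool.Agent.Helper904.GS.Nilp

set_option autoImplicit false

namespace Pool.Agent.Helper904.GS

open Finset

variable {k : Type} [Field k] {p : ℕ} {G : Type} [Group G] {σ : G} {F K : Subgroup G}
  {C : Cert k K} {t : ℝ}

lemma comm_deg (C : Cert k K) {i j : ℕ} {a b : G} (ha : a ∈ K) (hb : b ∈ K)
    (hi : dx a ∈ C.J i) (hj : dx b ∈ C.J j) : dx (a * b * a⁻¹ * b⁻¹) ∈ C.J (i + j) := by
  have e1 : (dx (a * b * a⁻¹ * b⁻¹) : GA k G) = (dx a * dx b - dx b * dx a) * o (a⁻¹ * b⁻¹) := by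
    have e2 : (o (a * b * a⁻¹ * b⁻¹) : GA k G) = o a * o b * o (a⁻¹ * b⁻¹) := by
      rw [← o_mul, ← o_mul]; congr 1; group
    have e3 : (1 : GA k G) = o b * o a * o (a⁻¹ * b⁻¹) := by
      rw [← o_mul, ← o_mul, ← o_one]; congr 1; group
    rw [dx, e2, dx, dx]
    conv_lhs => rw [e3]
    noncomm_ring
  rw [e1]
  refine C.mul_right_mem (Submodule.sub_mem _ (C.J_mul _ _ _ _ hi hj)
    (C.J_mul' (by omega) hj hi)) (C.o_mem (K.mul_mem (K.inv_mem ha) (K.inv_mem hb)))

lemma lc_deg (C : Cert k K) {β : Type} (y : β → G) (w : β → ℕ) (hy : ∀ b, y b ∈ K)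
    (hw : ∀ b, dx (y b) ∈ C.J (w b)) (n : ℕ) : ∀ u : Fin (n + 1) → β,
    lc y n u ∈ K ∧ dx (lc y n u) ∈ C.J (∑ i, w (u i)) := by
  induction n with
  | zero =>
    intro u
    rw [Fin.sum_univ_one]
    exact ⟨hy _, hw _⟩
  | succ n ih =>
    intro u
    obtain ⟨h1, h2⟩ := ih (Fin.tail u)
    refine ⟨K.mul_mem (K.mul_mem (K.mul_mem h1 (hy _)) (K.inv_mem h1)) (K.inv_mem (hy _)), ?_⟩
    rw [Fin.sum_univ_succ, add_comm]
    exact comm_deg C h1 (hy _) h2 (hw _)

/-- The initial weighted family. -/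
lemma exists_YF (C : Cert k K) (hKi : K.index ≠ 0) (Y : Set G) (hY : Y.Finite) (t : ℝ)
    (t0 : 0 < t) : ∃ δ, 0 ≤ δ ∧ YF C (Subgroup.closure Y) t δ := by
  classical
  have hfg : ∃ S : Finset G, Subgroup.closure (S : Set G) = Subgroup.closure Y ⊓ K := by
    have h1 : Group.FG (Subgroup.closure Y) :=
      Group.fg_iff_subgroup_fg _ |>.2 ((Subgroup.fg_iff _).2 ⟨Y, rfl, hY⟩)
    have h2 : (K.subgroupOf (Subgroup.closure Y)).FiniteIndex := by
      have : K.FiniteIndex := ⟨hKi⟩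
      infer_instance
    have h3 : Group.FG (K.subgroupOf (Subgroup.closure Y)) := Subgroup.fg_of_index_ne_zero _
    obtain ⟨S0, hS0⟩ := (Group.fg_iff_subgroup_fg _).1 h3
    refine ⟨S0.image (Subgroup.closure Y).subtype, ?_⟩
    rw [Finset.coe_image, ← MonoidHom.map_closure, hS0, Subgroup.subgroupOf_map_subtype, inf_comm]
  obtain ⟨S, hS⟩ := hfg
  have hSK : ∀ b : S, (b : G) ∈ K := fun b => by
    have : (b : G) ∈ Subgroup.closure Y ⊓ K := by
      rw [← hS]; exact Subgroup.subset_closure b.2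
    exact this.2
  refine ⟨∑ b : S, t ^ 1, Finset.sum_nonneg fun i _ => by positivity, S, inferInstance,
    fun b => (b : G), fun _ => 1, fun _ => le_rfl, fun b => C.one _ (hSK b), ?_, ?_⟩
  · rw [Subtype.range_coe_subtype]
    exact hS
  · linarith

/-- Making a fixed subgroup light. -/
theorem Dat.light [Finite k] [Fact p.Prime] [CharP k p] (hp2 : p ≠ 2) (H : Dat k p σ F K C t)
    (Y : Set G) (hY : Y.Finite) (hYσ : ∀ y ∈ Y, σ * y * σ⁻¹ = y) :
    ∃ (K1 : Subgroup G) (C2 : Cert k K1) (s : ℝ), Dat k p σ F K1 C2 s ∧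
      ∃ (β : Type) (_ : Fintype β) (y : β → G) (w : β → ℕ), (∀ b, 1 ≤ w b) ∧
        (∀ b, dx (y b) ∈ C2.J (w b)) ∧
        Subgroup.closure (Set.range y) = Subgroup.closure Y ⊓ K1 ∧ ∑ b, s ^ w b < 1 := by
  classical
  have hp : p.Prime := Fact.out
  have hKn := H.hKn
  have t0 := H.t0
  have t1 := H.t1
  have hσK : ∀ h ∈ K, σ * h * σ⁻¹ ∈ K := fun h hh => hKn.conj_mem h hh σ
  obtain ⟨δ, hδ, hYF⟩ := exists_YF C H.hKi Y hY t t0
  have hΓ : ∀ γ ∈ Subgroup.closure Y, σ * γ * σ⁻¹ = γ := by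
    intro γ hγ
    induction hγ using Subgroup.closure_induction with
    | mem x hx => exact hYσ x hx
    | one => group
    | mul x y _ _ h1 h2 =>
      calc σ * (x * y) * σ⁻¹ = (σ * x * σ⁻¹) * (σ * y * σ⁻¹) := by group
        _ = x * y := by rw [h1, h2]
    | inv x _ h1 =>
      calc σ * x⁻¹ * σ⁻¹ = (σ * x * σ⁻¹)⁻¹ := by group
        _ = x⁻¹ := by rw [h1]
  obtain ⟨oo, qq, hoo, hch⟩ := C.chain σ hσK (H.hinv σ) (p := p)
  obtain ⟨m, hm⟩ := C.diverge hp2 H.hKi H.hinv σ H.hσ2 H.hnc hσK oo hoo t t0 t1 H.hD (δ / C.D t)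
  obtain ⟨C1, hJ1, hD1, hY1⟩ := hch m
  have h1 := hD1 t t0 t1.le H.hD.le
  have h2 := hY1 _ t δ t0 t1.le hδ hΓ hYF
  set Q := ∏ n ∈ range m, Sf p (n + 1) t ^ qq (n + 1) with hQ
  have hQ1 : 0 < Q := Finset.prod_pos fun n _ => pow_pos (by
    have := Sf_ge_one hp.one_lt.le (n + 1) t0; linarith) _
  have hlt : Q * δ < C1.D t := by
    refine lt_of_lt_of_le ?_ h1
    have h3 : δ < (∏ n ∈ range m, Sf p (n + 1) t ^ oo (n + 1)) * C.D t := by
      rwa [div_lt_iff₀ H.hD] at hm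
    calc Q * δ < Q * ((∏ n ∈ range m, Sf p (n + 1) t ^ oo (n + 1)) * C.D t) :=
          mul_lt_mul_of_pos_left h3 hQ1
      _ = _ := by ring
  obtain ⟨a, b, s, hb, s0, s1, hst, hs1, hs2⟩ := exists_ab t0 t1 (mul_nonneg hQ1.le hδ) hlt
  have hD2 : 0 < (C1.reweight a b hb).D s := by
    rw [C1.reweight_D a b hb t s hst]; linarith
  have hK1n : (C.DS (m + 1)).Normal := C.DS_normal H.hinv (m + 1)
  have hK1i : (C.DS (m + 1)).index ≠ 0 := by
    intro h
    have h1 := Subgroup.relIndex_mul_index (C.DS_le (m + 1))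
    rw [h] at h1
    rcases Nat.mul_eq_zero.1 h1 with h2 | h2
    · exact C.DS_fin (m + 1) h2
    · exact H.hKi h2
  have hinv1 : ∀ g, C1.InvAt g := by
    intro g n x hx
    rw [hJ1] at hx ⊢
    refine ⟨H.hinv g n x hx.1, ?_⟩
    have h5 : (x : GA k G) ∈ BK (C.DS (m + 1)) := hx.2
    change o g * x * o g⁻¹ ∈ (BK (C.DS (m + 1)) : Submodule k (GA k G))
    unfold BK at h5 ⊢
    clear hx
    induction h5 using Submodule.span_induction with
    | mem x hx =>
      obtain ⟨h, hh, rfl⟩ := hx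
      rw [← o_mul, ← o_mul]
      exact Submodule.subset_span ⟨_, hK1n.conj_mem h hh g, rfl⟩
    | zero => simp
    | add x y _ _ h1 h2 => rw [mul_add, add_mul]; exact Submodule.add_mem _ h1 h2
    | smul c x _ h => rw [mul_smul_comm, smul_mul_assoc]; exact Submodule.smul_mem _ _ h
  refine ⟨C.DS (m + 1), C1.reweight a b hb, s, ⟨H.hσ2, H.hσF, H.hFn, H.hFi, H.hnc,
    (C.DS_le _).trans H.hKF, hK1n, hK1i, ?_, fun g => C1.reweight_inv a b hb (hinv1 g), s0, s1,
    hD2⟩, ?_⟩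
  · intro x hx
    obtain ⟨n, hn⟩ := H.hpow x hx
    refine ⟨n + (m + 1), ?_⟩
    rw [pow_add, pow_mul]
    have h5 : x ^ p ^ n ∈ C.DS 1 := by rw [C.DS_one]; exact hn
    exact C.DS_anti (by omega) (C.DS_pow_pow (p := p) (n := 1) le_rfl h5 (m + 1))
  · obtain ⟨β, iβ, y, v, hv1, hv2, hv3, hv4⟩ := h2
    refine ⟨β, iβ, y, fun c => a + b * v c, fun c => ?_, fun c => C1.RJ_incl a b hb (hv1 c) (hv2 c),
      hv3, ?_⟩
    · have := Nat.mul_pos hb (hv1 c)
      change 1 ≤ a + b * v c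
      omega
    · have e1 : ∑ c, s ^ (a + b * v c) = s ^ a * ∑ c, t ^ v c := by
        rw [Finset.mul_sum]
        refine Finset.sum_congr rfl fun c _ => ?_
        rw [pow_add, pow_mul, hst]
      rw [e1]
      refine lt_of_le_of_lt (mul_le_mul_of_nonneg_left hv4 (by positivity)) hs1

/-- Making the subgroup generated by a finite set of fixed elements finite. -/
theorem Good.taskB [Finite k] [Fact p.Prime] [CharP k p] (hp2 : p ≠ 2) (H : Good k p σ F)
    (Y : Set G) (hY : Y.Finite) (hYσ : ∀ y ∈ Y, σ * y * σ⁻¹ = y) :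
    ∃ N : Subgroup G, N.Normal ∧ (∀ (G' : Type) [Group G'] (f : G →* G'),
      Function.Surjective f → f.ker = N → Good k p (f σ) (F.map f) ∧
      Finite ((Subgroup.closure Y).map f)) := by
  classical
  obtain ⟨K0, C0, t', H0⟩ := H
  have hp : p.Prime := Fact.out
  obtain ⟨K, C, t, H, β, iβ, y, w, hw1, hw2, hw3, hw4⟩ := H0.light hp2 Y hY hYσ
  have hKn := H.hKn
  have t0 := H.t0
  have t1 := H.t1
  have hyK : ∀ b, y b ∈ K := fun b => by
    have : y b ∈ Subgroup.closure Y ⊓ K := by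
      rw [← hw3]; exact Subgroup.subset_closure ⟨b, rfl⟩
    exact this.2
  set W : ℝ := ∑ b, t ^ w b with hW
  have hW0 : 0 ≤ W := Finset.sum_nonneg fun b _ => by positivity
  have hKpos : (0 : ℝ) < K.index := by exact_mod_cast Nat.pos_of_ne_zero H.hKi
  -- choose the length of the commutators
  have hlim : Filter.Tendsto (fun n : ℕ => (K.index : ℝ) * W ^ (n + 1)) Filter.atTop
      (nhds ((K.index : ℝ) * 0)) :=
    ((tendsto_pow_atTop_nhds_zero_of_lt_one hW0 hw4).comp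
      (Filter.tendsto_add_atTop_nat 1)).const_mul _
  rw [mul_zero] at hlim
  obtain ⟨L, hL⟩ := (hlim.eventually (gt_mem_nhds (half_pos H.hD))).exists
  -- choose the power
  have hlim2 : Filter.Tendsto (fun n : ℕ => (K.index : ℝ) * ∑ b, (t ^ w b) ^ (p ^ n)) Filter.atTop
      (nhds ((K.index : ℝ) * ∑ b : β, (0 : ℝ))) := by
    refine Filter.Tendsto.const_mul _ (tendsto_finsetSum _ fun b _ => ?_)
    exact (tendsto_pow_atTop_nhds_zero_of_lt_one (by positivity)
      (pow_lt_one₀ t0.le t1 (by have := hw1 b; omega))).comp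
      (tendsto_pow_atTop_atTop_of_one_lt hp.one_lt)
  rw [Finset.sum_const_zero, mul_zero] at hlim2
  obtain ⟨n, hn⟩ := (hlim2.eventually (gt_mem_nhds (half_pos H.hD))).exists
  let s : (Fin (L + 1) → β) ⊕ β → G := Sum.elim (fun u => lc y L u) (fun b => y b ^ (p ^ n))
  let de : (Fin (L + 1) → β) ⊕ β → ℕ := Sum.elim (fun u => ∑ i, w (u i)) (fun b => p ^ n * w b)
  refine ⟨Subgroup.normalClosure (Set.range s), Subgroup.normalClosure_normal,
    fun G' _ f hf hker => ⟨?_, ?_⟩⟩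
  · refine H.kill f hf s hker ?_ de ?_ ?_ ?_
    · rintro (u | b)
      · exact (lc_deg C y w hyK hw2 L u).1
      · exact K.pow_mem (hyK b) _
    · rintro (u | b)
      · change 1 ≤ ∑ i, w (u i)
        calc 1 ≤ w (u 0) := hw1 _
          _ ≤ _ := Finset.single_le_sum (f := fun i => w (u i)) (fun i _ => Nat.zero_le _)
              (Finset.mem_univ 0)
      · exact Nat.mul_pos (pow_pos hp.pos n) (hw1 b)
    · rintro (u | b)
      · exact (lc_deg C y w hyK hw2 L u).2
      · change dx (y b ^ (p ^ n)) ∈ C.J (p ^ n * w b)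
        rw [dx_pow_char_pow]
        exact pow_mem_J C (hw2 b) _
    · rw [Fintype.sum_sum_type]
      change K.index * (∑ u : Fin (L + 1) → β, t ^ (∑ i, w (u i)) + ∑ b, t ^ (p ^ n * w b)) < C.D t
      have e1 : ∑ u : Fin (L + 1) → β, t ^ (∑ i, w (u i)) = W ^ (L + 1) := by
        rw [hW, Fintype.sum_pow]
        exact Finset.sum_congr rfl fun u _ => (Finset.prod_pow_eq_pow_sum _ _ _).symm
      have e2 : ∑ b, t ^ (p ^ n * w b) = ∑ b, (t ^ w b) ^ (p ^ n) :=
        Finset.sum_congr rfl fun b _ => by rw [← pow_mul, mul_comm]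
      rw [e1, e2, mul_add]
      linarith
  · refine fin_map f (Subgroup.closure Y) K H.hKi ?_
    rw [← hw3, MonoidHom.map_closure, ← Set.range_comp]
    have h0 : ∀ x, f (s x) = 1 := fun x => by
      rw [← MonoidHom.mem_ker, hker]
      exact Subgroup.subset_normalClosure ⟨x, rfl⟩
    set A : Subgroup G' := Subgroup.closure (Set.range (f ∘ y)) with hA
    let z : β → A := fun b => ⟨f (y b), Subgroup.subset_closure ⟨b, rfl⟩⟩
    refine nilp_fin L z ?_ ?_ ?_
    · have h1 : (Subgroup.closure (Set.range z)).map A.subtype = A := by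
        rw [MonoidHom.map_closure, ← Set.range_comp]
        rfl
      apply Subgroup.map_injective A.subtype_injective
      rw [h1, ← MonoidHom.range_eq_map, Subgroup.range_subtype]
    · intro b
      refine ⟨p ^ n, pow_pos hp.pos n, Subtype.ext ?_⟩
      have := h0 (Sum.inr b)
      change f (y b ^ (p ^ n)) = 1 at this
      rw [map_pow] at this
      exact this
    · intro u
      apply A.subtype_injective
      rw [map_lc, map_one]
      have h1 := h0 (Sum.inl u)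
      change f (lc y L u) = 1 at h1
      rw [map_lc] at h1
      exact h1

end Pool.Agent.Helper904.GS
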