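import Pool.Agent.Helper904.GS.Base2
import Pool.Agent.Helper904.GS.TaskB

set_option autoImplicit false

namespace Pool.Agent.Helper904.GS

/-- The good normal subgroups of the base group. -/
def GoodN (N : Subgroup G0) : Prop := N.Normal ∧ ∀ (G' : Type) [Group G'] (f : G0 →* G'),
    Function.Surjective f → f.ker = N → Good (ZMod 3) 3 (f sg) (F0.map f)

/-- The subgroup generated by `Y` is finite modulo `N`. -/
def FinMod (N : Subgroup G0) (Y : Finset G0) : Prop := ∀ (G' : Type) [Group G'] (f : G0 →* G'),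
    N ≤ f.ker → Finite ((Subgroup.closure (Y : Set G0)).map f)

lemma finite_map {G G' : Type} [Group G] [Group G'] (f : G →* G') (H : Subgroup G)
    (h : Finite H) : Finite (H.map f) := by
  have h1 : (H : Set G).Finite := Set.toFinite _
  have h2 : ((H.map f : Subgroup G') : Set G').Finite := by
    rw [Subgroup.coe_map]; exact h1.image f
  exact h2.to_subtype

lemma finMod_of (N : Subgroup G0) [N.Normal] (Y : Finset G0)
    (h : Finite ((Subgroup.closure (Y : Set G0)).map (QuotientGroup.mk' N))) : FinMod N Y := by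
  intro G' _ f hf
  have h1 : f = (QuotientGroup.lift N f hf).comp (QuotientGroup.mk' N) := by
    ext x; rfl
  rw [h1, ← Subgroup.map_map]
  exact finite_map _ _ h

lemma FinMod.mono {N N' : Subgroup G0} {Y : Finset G0} (h : FinMod N Y) (hN : N ≤ N') :
    FinMod N' Y := fun G' _ f hf => h G' f (hN.trans hf)

lemma GoodN.le_F0 {N : Subgroup G0} (h : GoodN N) : N ≤ F0 := by
  have := h.1
  intro x hx
  by_contra hxF
  obtain ⟨K, C, t, H⟩ := h.2 (G0 ⧸ N) (QuotientGroup.mk' N) (QuotientGroup.mk'_surjective N)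
    (QuotientGroup.ker_mk' N)
  apply H.hσF
  have h1 : sg * x ∈ F0 := by
    rw [Subgroup.mul_mem_iff_of_index_two F0_index]
    exact iff_of_false sg_notMem hxF
  refine ⟨sg * x, h1, ?_⟩
  rw [map_mul]
  have : QuotientGroup.mk' N x = 1 := (QuotientGroup.eq_one_iff x).2 hx
  rw [this, mul_one]

lemma GoodN.ext {N : Subgroup G0} (_ : GoodN N) [hn : N.Normal] (N' : Subgroup (G0 ⧸ N))
    (h1 : N'.Normal) (h2 : ∀ (G' : Type) [Group G'] (f : (G0 ⧸ N) →* G'), Function.Surjective f →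
      f.ker = N' → Good (ZMod 3) 3 (f (QuotientGroup.mk' N sg))
        ((F0.map (QuotientGroup.mk' N)).map f)) :
    GoodN (N'.comap (QuotientGroup.mk' N)) ∧ N ≤ N'.comap (QuotientGroup.mk' N) := by
  have hle : N ≤ N'.comap (QuotientGroup.mk' N) := by
    intro x hx
    rw [Subgroup.mem_comap]
    have : QuotientGroup.mk' N x = 1 := (QuotientGroup.eq_one_iff x).2 hx
    rw [this]; exact N'.one_mem
  refine ⟨⟨h1.comap _, fun G' _ f hf hker => ?_⟩, hle⟩
  have hN : N ≤ f.ker := by rw [hker]; exact hle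
  have e1 : f = (QuotientGroup.lift N f hN).comp (QuotientGroup.mk' N) := by
    ext x; rfl
  have hsurj : Function.Surjective (QuotientGroup.lift N f hN) := by
    intro y
    obtain ⟨x, rfl⟩ := hf y
    exact ⟨QuotientGroup.mk' N x, rfl⟩
  have h3 := h2 G' (QuotientGroup.lift N f hN) hsurj (by
    ext x
    obtain ⟨x, rfl⟩ := QuotientGroup.mk'_surjective N x
    rw [MonoidHom.mem_ker]
    change f x = 1 ↔ _
    rw [← MonoidHom.mem_ker, hker, Subgroup.mem_comap])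
  rw [Subgroup.map_map, ← e1] at h3
  exact h3

/-- The order on good subgroups. -/
abbrev PP : Type := {N : Subgroup G0 // GoodN N}

/-- The tasks. -/
def tsk : G0 ⊕ Finset G0 → Set PP
  | Sum.inl g => {N | (∃ n, 0 < n ∧ g ^ n ∈ N.1) ∧ (g ∈ F0 → ∃ n, g ^ (3 ^ n) ∈ N.1)}
  | Sum.inr Y => {N | (∀ N' : PP, N ≤ N' → ∃ y ∈ Y, sg * y * sg⁻¹ * y⁻¹ ∉ N'.1) ∨ FinMod N.1 Y}

lemma cof (i : G0 ⊕ Finset G0) (N : PP) : ∃ N' ∈ tsk i, N ≤ N' := by
  have : Fact (Nat.Prime 3) := ⟨Nat.prime_three⟩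
  obtain g | Y := i
  · have hn := N.2.1
    have H := N.2.2 (G0 ⧸ N.1) (QuotientGroup.mk' N.1) (QuotientGroup.mk'_surjective N.1)
      (QuotientGroup.ker_mk' N.1)
    obtain ⟨N', h1, h2, ⟨n, hn0, hn1⟩, h4⟩ := H.taskA (QuotientGroup.mk' N.1 g)
    obtain ⟨h5, h6⟩ := N.2.ext N' h1 h2
    refine ⟨⟨_, h5⟩, ⟨⟨n, hn0, ?_⟩, fun hg => ?_⟩, h6⟩
    · change g ^ n ∈ N'.comap (QuotientGroup.mk' N.1)
      rw [Subgroup.mem_comap, map_pow]
      exact hn1
    · obtain ⟨m, hm⟩ := h4 ⟨g, hg, rfl⟩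
      refine ⟨m, ?_⟩
      change g ^ (3 ^ m) ∈ N'.comap (QuotientGroup.mk' N.1)
      rw [Subgroup.mem_comap, map_pow]
      exact hm
  · by_cases hY : ∀ N' : PP, N ≤ N' → ∃ y ∈ Y, sg * y * sg⁻¹ * y⁻¹ ∉ N'.1
    · exact ⟨N, Or.inl hY, le_rfl⟩
    · push Not at hY
      obtain ⟨N1, hN1, hY1⟩ := hY
      have hn := N1.2.1
      have H := N1.2.2 (G0 ⧸ N1.1) (QuotientGroup.mk' N1.1) (QuotientGroup.mk'_surjective N1.1)
        (QuotientGroup.ker_mk' N1.1)
      obtain ⟨N', h1, h2⟩ := H.taskB (by norm_num) ((QuotientGroup.mk' N1.1) '' (Y : Set G0))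
        (Y.finite_toSet.image _) (by
          rintro _ ⟨y, hy, rfl⟩
          have h3 : QuotientGroup.mk' N1.1 (sg * y * sg⁻¹ * y⁻¹) = 1 :=
            (QuotientGroup.eq_one_iff _).2 (hY1 y hy)
          rw [map_mul, map_inv, mul_inv_eq_one] at h3
          simpa only [map_mul, map_inv] using h3)
      obtain ⟨h5, h6⟩ := N1.2.ext N' h1 (fun G' _ f hf hker => (h2 G' f hf hker).1)
      refine ⟨⟨_, h5⟩, Or.inr ?_, hN1.trans h6⟩
      have hn5 := h5.1
      intro G' _ f hf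
      have hN : N1.1 ≤ f.ker := h6.trans hf
      have e1 : f = (QuotientGroup.lift N1.1 f hN).comp (QuotientGroup.mk' N1.1) := by
        ext x; rfl
      have hle : N' ≤ (QuotientGroup.lift N1.1 f hN).ker := by
        intro x hx
        obtain ⟨x, rfl⟩ := QuotientGroup.mk'_surjective N1.1 x
        rw [MonoidHom.mem_ker]
        change f x = 1
        rw [← MonoidHom.mem_ker]
        exact hf hx
      have e2 : QuotientGroup.lift N1.1 f hN = (QuotientGroup.lift N' _ hle).comp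
          (QuotientGroup.mk' N') := by
        ext x; rfl
      have h7 := (h2 _ (QuotientGroup.mk' N') (QuotientGroup.mk'_surjective N')
        (QuotientGroup.ker_mk' N')).2
      rw [← MonoidHom.map_closure] at h7
      rw [e1, e2, ← Subgroup.map_map, ← Subgroup.map_map]
      exact finite_map _ _ h7

/-- The limit subgroup. -/
theorem limit : ∃ N : Subgroup G0, N.Normal ∧ (∀ g, ∃ n, 0 < n ∧ g ^ n ∈ N) ∧
    (∀ g ∈ F0, ∃ n, g ^ (3 ^ n) ∈ N) ∧ N ≤ F0 ∧ N.index = 0 ∧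
    (∀ (G' : Type) [Group G'] (f : G0 →* G'), Function.Surjective f → N ≤ f.ker →
      Subgroup.normalClosure {f sg} = ⊤) ∧
    ∀ Y : Finset G0, (∀ y ∈ Y, sg * y * sg⁻¹ * y⁻¹ ∈ N) → FinMod N Y := by
  classical
  obtain ⟨N0, hN0, hN0'⟩ := base
  let P0 : PP := ⟨N0, hN0, hN0'⟩
  have : Encodable (G0 ⊕ Finset G0) := Encodable.ofCountable _
  let T : G0 ⊕ Finset G0 → Order.Cofinal PP := fun i => ⟨tsk i, fun N => cof i N⟩
  set I := Order.idealOfCofinals P0 T with hI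
  have hdir : ∀ A ∈ I, ∀ B ∈ I, ∃ D ∈ I, A ≤ D ∧ B ≤ D := fun A hA B hB => I.directed A hA B hB
  have h0 : P0 ∈ I := Order.mem_idealOfCofinals _ _
  let N : Subgroup G0 :=
    { carrier := {g | ∃ A ∈ I, g ∈ A.1}
      one_mem' := ⟨P0, h0, P0.1.one_mem⟩
      mul_mem' := by
        rintro a b ⟨A, hA, ha⟩ ⟨B, hB, hb⟩
        obtain ⟨D, hD, h1, h2⟩ := hdir A hA B hB
        exact ⟨D, hD, D.1.mul_mem (h1 ha) (h2 hb)⟩
      inv_mem' := by
        rintro a ⟨A, hA, ha⟩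
        exact ⟨A, hA, A.1.inv_mem ha⟩ }
  have hmem : ∀ g, g ∈ N ↔ ∃ A ∈ I, g ∈ A.1 := fun g => Iff.rfl
  have hle : ∀ A ∈ I, A.1 ≤ N := fun A hA g hg => ⟨A, hA, hg⟩
  have hfin : ∀ Y : Finset G0, (∀ y ∈ Y, y ∈ N) → ∃ A ∈ I, ∀ y ∈ Y, y ∈ A.1 := by
    intro Y
    induction Y using Finset.induction_on with
    | empty => exact fun _ => ⟨P0, h0, by simp⟩
    | insert a Y _ ih =>
      intro h
      obtain ⟨A, hA, hA'⟩ := ih (fun y hy => h y (Finset.mem_insert_of_mem hy))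
      obtain ⟨B, hB, hB'⟩ := h a (Finset.mem_insert_self a Y)
      obtain ⟨D, hD, h1, h2⟩ := hdir A hA B hB
      refine ⟨D, hD, fun y hy => ?_⟩
      rcases Finset.mem_insert.1 hy with rfl | hy
      · exact h2 hB'
      · exact h1 (hA' y hy)
  refine ⟨N, ⟨?_⟩, ?_, ?_, ?_, ?_, ?_, ?_⟩
  · rintro x ⟨A, hA, hx⟩ g
    exact ⟨A, hA, A.2.1.conj_mem x hx g⟩
  · intro g
    obtain ⟨A, hA, hAI⟩ := Order.cofinal_meets_idealOfCofinals P0 T (Sum.inl g)
    obtain ⟨⟨n, hn, hg⟩, -⟩ := hA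
    exact ⟨n, hn, A, hAI, hg⟩
  · intro g hg
    obtain ⟨A, hA, hAI⟩ := Order.cofinal_meets_idealOfCofinals P0 T (Sum.inl g)
    obtain ⟨-, h1⟩ := hA
    obtain ⟨n, hn⟩ := h1 hg
    exact ⟨n, A, hAI, hn⟩
  · rintro x ⟨A, hA, hx⟩
    exact A.2.le_F0 hx
  · by_contra hidx
    have hfi : N.FiniteIndex := ⟨hidx⟩
    have hfg := FG_G0
    have h1 : Group.FG N := Subgroup.fg_of_index_ne_zero N
    obtain ⟨S, hS⟩ := (Group.fg_iff_subgroup_fg N).1 h1
    obtain ⟨A, hA, hA'⟩ := hfin S (fun y hy => by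
      rw [← hS]; exact Subgroup.subset_closure hy)
    have h2 : N ≤ A.1 := by
      rw [← hS, Subgroup.closure_le]
      exact fun y hy => hA' y hy
    have h3 : A.1.FiniteIndex := Subgroup.finiteIndex_of_le h2
    have hn := A.2.1
    have h4 := (A.2.2 (G0 ⧸ A.1) (QuotientGroup.mk' A.1) (QuotientGroup.mk'_surjective A.1)
      (QuotientGroup.ker_mk' A.1)).infinite
    exact not_finite (G0 ⧸ A.1)
  · intro G' _ f hf hN
    have hn := hN0
    obtain ⟨K, C, t, H⟩ := hN0' (G0 ⧸ N0) (QuotientGroup.mk' N0) (QuotientGroup.mk'_surjective N0)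
      (QuotientGroup.ker_mk' N0)
    have hN' : N0 ≤ f.ker := (hle P0 h0).trans hN
    have hsurj : Function.Surjective (QuotientGroup.lift N0 f hN') := by
      intro y
      obtain ⟨x, rfl⟩ := hf y
      exact ⟨QuotientGroup.mk' N0 x, rfl⟩
    have h1 := Subgroup.map_normalClosure {QuotientGroup.mk' N0 sg} (QuotientGroup.lift N0 f hN') hsurj
    rw [H.hnc, Set.image_singleton, Subgroup.map_top_of_surjective _ hsurj] at h1
    exact h1.symm
  · intro Y hY
    obtain ⟨A, hA, hAI⟩ := Order.cofinal_meets_idealOfCofinals P0 T (Sum.inr Y)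
    rcases hA with h1 | h1
    · exfalso
      obtain ⟨B, hB, hB'⟩ := hfin (Y.image (fun y => sg * y * sg⁻¹ * y⁻¹)) (by
        intro z hz
        obtain ⟨y, hy, rfl⟩ := Finset.mem_image.1 hz
        exact hY y hy)
      obtain ⟨D, hD, h2, h3⟩ := hdir A hAI B hB
      obtain ⟨y, hy, hy'⟩ := h1 D h2
      exact hy' (h3 (hB' _ (Finset.mem_image_of_mem _ hy)))
    · exact FinMod.mono h1 (hle A hAI)

end Pool.Agent.Helper904.GS
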