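import Pool.Agent.Helper904.GS.Reweight

set_option autoImplicit false

namespace Pool.Agent.Helper904.GS

open Finset

section mapping

variable {k : Type} [Field k] {G G' : Type} [Group G] [Group G']

/-- The induced map of group algebras. -/
noncomputable def ph (f : G →* G') : GA k G →ₐ[k] GA k G' := MonoidAlgebra.mapDomainAlgHom k k f

lemma ph_o (f : G →* G') (g : G) : ph f (o g : GA k G) = o (f g) := by
  simp [ph, o]

lemma ph_dx (f : G →* G') (g : G) : ph f (dx g : GA k G) = dx (f g) := by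
  simp [dx, ph_o]

lemma map_BK (f : G →* G') (K : Subgroup G) :
    (BK K : Submodule k (GA k G)).map (ph f).toLinearMap = BK (K.map f) := by
  unfold BK
  rw [Submodule.map_span, Subgroup.coe_map, Set.image_image, Set.image_image]
  congr 1
  refine Set.image_congr fun g _ => ?_
  exact ph_o f g

/-- The span of the elements killed by the quotient. -/
noncomputable def LL {α : Type} (K : Subgroup G) (s : α → G) : Submodule k (GA k G) :=
  Submodule.span k {z | ∃ h ∈ K, ∃ h' ∈ K, ∃ a, z = o h * dx (s a) * o h'}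

lemma LL_left {α : Type} (K : Subgroup G) (s : α → G) {z : GA k G} (hz : z ∈ LL K s) {h : G}
    (hh : h ∈ K) : o h * z ∈ LL K s := by
  unfold LL at hz ⊢
  induction hz using Submodule.span_induction with
  | mem x hx =>
    obtain ⟨b, hb, b', hb', a, rfl⟩ := hx
    refine Submodule.subset_span ⟨h * b, K.mul_mem hh hb, b', hb', a, ?_⟩
    rw [o_mul]; noncomm_ring
  | zero => rw [mul_zero]; exact Submodule.zero_mem _
  | add x y _ _ h1 h2 => rw [mul_add]; exact Submodule.add_mem _ h1 h2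
  | smul c x _ h => rw [mul_smul_comm]; exact Submodule.smul_mem _ _ h

lemma dx_conj (h g : G) : (dx (h * g * h⁻¹) : GA k G) = o h * dx g * o h⁻¹ := by
  simp only [dx, o_mul, mul_sub, sub_mul, mul_one, o_mul_inv]

lemma dx_mem_LL {α : Type} (K : Subgroup G) (s : α → G) (hs : ∀ a, s a ∈ K) {n : G}
    (hn : n ∈ Subgroup.closure {x | ∃ h ∈ K, ∃ a, x = h * s a * h⁻¹}) :
    (dx n : GA k G) ∈ LL K s := by
  have hle : Subgroup.closure {x | ∃ h ∈ K, ∃ a, x = h * s a * h⁻¹} ≤ K := by
    rw [Subgroup.closure_le]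
    rintro x ⟨h, hh, a, rfl⟩
    exact K.mul_mem (K.mul_mem hh (hs a)) (K.inv_mem hh)
  induction hn using Subgroup.closure_induction with
  | mem x hx =>
    obtain ⟨h, hh, a, rfl⟩ := hx
    rw [dx_conj]
    exact Submodule.subset_span ⟨h, hh, h⁻¹, K.inv_mem hh, a, rfl⟩
  | one => rw [dx_one]; exact Submodule.zero_mem _
  | mul x y hx hy h1 h2 =>
    rw [dx_mul]
    exact Submodule.add_mem _ h1 (LL_left K s h2 (hle hx))
  | inv x hx h1 =>
    rw [dx_inv]
    exact Submodule.neg_mem _ (LL_left K s h1 (K.inv_mem (hle hx)))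

lemma ker_mem_LL {α : Type} (K : Subgroup G) (s : α → G) (hs : ∀ a, s a ∈ K)
    (f : G →* G') (hf : Function.Surjective f)
    (hker : ∀ n, f n = 1 → n ∈ Subgroup.closure {x | ∃ h ∈ K, ∃ a, x = h * s a * h⁻¹})
    {y : GA k G} (hy : y ∈ BK K) (h0 : ph f y = 0) : y ∈ LL K s := by
  set sec : G' → G := Function.surjInv hf with hsec
  let th : GA k G →ₗ[k] GA k G :=
    LinearMap.id - (MonoidAlgebra.mapDomainLinearMap k k sec) ∘ₗ (ph f).toLinearMap
  have h1 : th y = y := by
    simp [th, h0]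
  have h2 : ∀ z ∈ (BK K : Submodule k (GA k G)), th z ∈ LL K s := by
    intro z hz
    unfold BK at hz
    induction hz using Submodule.span_induction with
    | mem x hx =>
      obtain ⟨h, hh, rfl⟩ := hx
      have e1 : th (o h : GA k G) = o h - o (sec (f h)) := by
        simp only [th, LinearMap.sub_apply, LinearMap.id_apply, LinearMap.comp_apply,
          AlgHom.toLinearMap_apply, ph_o]
        simp [o]
      have e2 : sec (f h) = h * (h⁻¹ * sec (f h)) := by group
      rw [e1, e2, o_mul]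
      have e3 : (o h : GA k G) - o h * o (h⁻¹ * sec (f h)) = - (o h * dx (h⁻¹ * sec (f h))) := by
        rw [dx]; noncomm_ring
      rw [e3]
      refine Submodule.neg_mem _ (LL_left K s (dx_mem_LL K s hs (hker _ ?_)) hh)
      rw [map_mul, map_inv, hsec, Function.surjInv_eq hf, inv_mul_cancel]
    | zero => rw [map_zero]; exact Submodule.zero_mem _
    | add x y _ _ h1 h2 => rw [map_add]; exact Submodule.add_mem _ h1 h2
    | smul c x _ h => rw [map_smul]; exact Submodule.smul_mem _ _ h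
  rw [← h1]
  exact h2 y hy

end mapping

namespace Cert

variable {k : Type} [Field k] {G G' : Type} [Group G] [Group G'] {K : Subgroup G} (C : Cert k K)

/-- The coefficients of a group element. -/
lemma exists_coef {α : Type} (s : α → G) (de : α → ℕ) (h1 : ∀ a, 1 ≤ de a)
    (hs : ∀ a, dx (s a) ∈ C.J (de a)) :
    ∃ c : α → C.ι → GA k G, (∀ a i, c a i ∈ C.J (de a - C.e i)) ∧
      ∀ a, dx (s a) = ∑ i, c a i * dx (C.g i) := by
  choose c hc1 hc2 using fun a => C.gen (de a) (h1 a) _ (hs a)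
  exact ⟨c, hc1, hc2⟩

lemma quot_aux {α : Type} [Fintype α] (f : G →* G') (s : α → G)
    (h0 : ∀ a, f (s a) = 1) (hsK : ∀ a, s a ∈ K)
    (c : α → C.ι → GA k G) (hc : ∀ a, dx (s a) = ∑ i, c a i * dx (C.g i))
    {z : GA k G} (hz : z ∈ LL K s) :
    ∃ (F : α → GA k G) (E : C.ι → GA k G), (∀ a, F a ∈ C.J 0) ∧ (∀ i, E i ∈ C.J 0) ∧
      (∀ i, ph f (E i) = 0) ∧ z = ∑ i, (∑ a, F a * c a i + E i) * dx (C.g i) := by
  classical
  unfold LL at hz
  induction hz using Submodule.span_induction with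
  | mem x hx =>
    obtain ⟨h, hh, h', hh', a, rfl⟩ := hx
    obtain ⟨b, hb, hbe⟩ := C.gen 1 le_rfl _ (C.one h' hh')
    refine ⟨Pi.single a (o h), fun i => o h * dx (s a) * b i, fun a' => ?_, fun i => ?_,
      fun i => ?_, ?_⟩
    · by_cases h : a' = a
      · subst h; simpa using C.o_mem hh
      · simp [h]
    · refine C.mul_left_mem (C.mul_left_mem (C.o_mem hh) ?_) (C.J_sub0 (hb i))
      rw [C.J_zero]; exact dx_mem_BK (hsK a)
    · rw [map_mul, map_mul, ph_dx, h0, dx_one]; simp
    · have e1 : ∀ i, ∑ a', (Pi.single a (o h) : α → GA k G) a' * c a' i = o h * c a i := by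
        intro i
        rw [Finset.sum_eq_single a]
        · simp
        · intro b _ hb; simp [hb]
        · simp
      simp only [e1, add_mul, Finset.sum_add_distrib, mul_assoc, ← Finset.mul_sum]
      rw [← hc a, ← hbe, o_eq h']
      noncomm_ring
  | zero => exact ⟨0, 0, by simp, by simp, by simp, by simp⟩
  | add x y _ _ h1 h2 =>
    obtain ⟨F1, E1, a1, a2, a3, rfl⟩ := h1
    obtain ⟨F2, E2, b1, b2, b3, rfl⟩ := h2
    refine ⟨F1 + F2, E1 + E2, fun a => Submodule.add_mem _ (a1 a) (b1 a),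
      fun i => Submodule.add_mem _ (a2 i) (b2 i), fun i => ?_, ?_⟩
    · simp [a3, b3]
    · rw [← Finset.sum_add_distrib]
      refine Finset.sum_congr rfl fun i _ => ?_
      simp only [Pi.add_apply, add_mul, Finset.sum_add_distrib]
      abel
  | smul t x _ h =>
    obtain ⟨F1, E1, a1, a2, a3, rfl⟩ := h
    refine ⟨t • F1, t • E1, fun a => Submodule.smul_mem _ _ (a1 a),
      fun i => Submodule.smul_mem _ _ (a2 i), fun i => ?_, ?_⟩
    · simp [a3]
    · rw [Finset.smul_sum]
      refine Finset.sum_congr rfl fun i _ => ?_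
      simp only [Pi.smul_apply, smul_mul_assoc, ← Finset.smul_sum, ← smul_add]

/-- Passing to a quotient. -/
theorem quot {α : Type} [Fintype α] (f : G →* G') (hf : Function.Surjective f) (s : α → G)
    (hsK : ∀ a, s a ∈ K) (h0 : ∀ a, f (s a) = 1)
    (hker : ∀ n, f n = 1 → n ∈ Subgroup.closure {x | ∃ h ∈ K, ∃ a, x = h * s a * h⁻¹})
    (de : α → ℕ) (hde : ∀ a, 1 ≤ de a) (hs : ∀ a, dx (s a) ∈ C.J (de a)) :
    ∃ C' : Cert k (K.map f), (∀ n, C'.J n = (C.J n).map (ph f).toLinearMap) ∧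
      (∀ t, C'.D t = C.D t - ∑ a, t ^ de a) ∧ ∑ i, (C'.e i : ℝ) = ∑ i, (C.e i : ℝ) := by
  obtain ⟨c, hc1, hc2⟩ := C.exists_coef s de hde hs
  refine ⟨{
    ι := C.ι
    κ := C.κ ⊕ α
    fι := C.fι
    fκ := inferInstance
    g := fun i => f (C.g i)
    e := C.e
    r := Sum.elim (fun a i => ph f (C.r a i)) (fun a i => ph f (c a i))
    d := Sum.elim C.d de
    J := fun n => (C.J n).map (ph f).toLinearMap
    g_mem := fun i => Subgroup.mem_map_of_mem f (C.g_mem i)
    e_pos := C.e_pos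
    J_zero := by rw [C.J_zero, map_BK]
    J_anti := fun a b h => Submodule.map_mono (C.J_anti h)
    J_mul := ?_
    x_mem := ?_
    one := ?_
    gen := ?_
    r_mem := ?_
    r_syz := ?_
    r_gen := ?_ }, fun n => rfl, ?_, rfl⟩
  · rintro a b _ _ ⟨x, hx, rfl⟩ ⟨y, hy, rfl⟩
    exact ⟨x * y, C.J_mul a b x y hx hy, map_mul (ph f) x y⟩
  · intro i
    exact ⟨_, C.x_mem i, ph_dx f _⟩
  · rintro _ ⟨h, hh, rfl⟩
    exact ⟨_, C.one h hh, ph_dx f h⟩
  · rintro n hn _ ⟨x, hx, rfl⟩
    obtain ⟨b, hb, rfl⟩ := C.gen n hn x hx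
    refine ⟨fun i => ph f (b i), fun i => ⟨b i, hb i, rfl⟩, ?_⟩
    simp only [AlgHom.toLinearMap_apply, map_sum, map_mul, ph_dx]
  · rintro (a | a) i
    · exact ⟨_, C.r_mem a i, rfl⟩
    · exact ⟨_, hc1 a i, rfl⟩
  · rintro (a | a)
    · have := congrArg (ph f) (C.r_syz a)
      simp only [map_sum, map_mul, ph_dx, map_zero] at this
      exact this
    · have := congrArg (ph f) (hc2 a)
      simp only [map_sum, map_mul, ph_dx, h0, dx_one] at this
      exact this.symm
  · intro s' hs' h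
    choose s0 hs0 hs0e using hs'
    have hs0e' : ∀ i, ph f (s0 i) = s' i := hs0e
    have hy : ∑ i, s0 i * dx (C.g i) ∈ BK K := by
      rw [← C.J_zero]
      exact Submodule.sum_mem _ fun i _ => C.mul_left_mem (hs0 i) (C.J_sub0 (C.x_mem i))
    have hy0 : ph f (∑ i, s0 i * dx (C.g i)) = 0 := by
      simp only [map_sum, map_mul, ph_dx, hs0e']
      exact h
    obtain ⟨F, E, hF, hE, hE0, he⟩ := C.quot_aux f s h0 hsK c hc2
      (ker_mem_LL K s hsK f hf hker hy hy0)
    obtain ⟨w, hw, hwe⟩ := C.r_gen (fun i => s0 i - (∑ a, F a * c a i + E i))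
      (fun i => Submodule.sub_mem _ (hs0 i) (Submodule.add_mem _ (Submodule.sum_mem _ fun a _ =>
        C.mul_left_mem (hF a) (C.J_sub0 (hc1 a i))) (hE i)))
      (by
        simp only [sub_mul, Finset.sum_sub_distrib]
        rw [sub_eq_zero]; exact he)
    refine ⟨Sum.elim (fun a => ph f (w a)) (fun a => ph f (F a)), ?_, fun i => ?_⟩
    · rintro (a | a)
      · exact ⟨_, hw a, rfl⟩
      · exact ⟨_, hF a, rfl⟩
    · rw [Fintype.sum_sum_type]
      simp only [Sum.elim_inl, Sum.elim_inr]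
      have h1 := congrArg (ph f) (hwe i)
      simp only [map_sub, map_add, map_sum, map_mul, hE0, hs0e', add_zero] at h1
      rw [← h1]; abel
  · intro t
    unfold D W WR
    simp only [Fintype.sum_sum_type, Sum.elim_inl, Sum.elim_inr]
    change ∑ i, t ^ C.e i - 1 - _ = _
    ring

end Cert

end Pool.Agent.Helper904.GS
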