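import Pool.Agent.Helper904.GS.Final

set_option autoImplicit false

namespace Pool.Agent.Helper904.GS

/-- Locally finite subgroups. -/
def LFs {G : Type} [Group G] (N : Subgroup G) : Prop :=
  ∀ s : Set G, s.Finite → s ⊆ (N : Set G) → Finite (Subgroup.closure s)

section

variable {G : Type} [Group G]

lemma LFs.mono {M N : Subgroup G} (h : LFs N) (hMN : M ≤ N) : LFs M :=
  fun s hs hsM => h s hs (hsM.trans hMN)

lemma LFs.map {G' : Type} [Group G'] (f : G →* G') {N : Subgroup G} (h : LFs N) :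
    LFs (N.map f) := by
  classical
  intro s hs hsN
  have h1 : ∀ x : G', ∃ y : G, x ∈ s → y ∈ N ∧ f y = x := by
    intro x
    by_cases hx : x ∈ s
    · obtain ⟨y, hy, rfl⟩ := hsN hx
      exact ⟨y, fun _ => ⟨hy, rfl⟩⟩
    · exact ⟨1, fun h => absurd h hx⟩
  choose l hl using h1
  have h2 : Finite (Subgroup.closure (l '' s)) := h _ (hs.image l) (by
    rintro _ ⟨x, hx, rfl⟩
    exact (hl x hx).1)
  have h3 : s = f '' (l '' s) := by
    ext x
    constructor
    · intro hx; exact ⟨l x, ⟨x, hx, rfl⟩, (hl x hx).2⟩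
    · rintro ⟨_, ⟨y, hy, rfl⟩, rfl⟩
      rw [(hl y hy).2]; exact hy
  rw [h3, ← MonoidHom.map_closure]
  exact finite_map _ _ h2

/-- Locally finite by locally finite is locally finite. -/
lemma LFs.ext (N H : Subgroup G) [N.Normal] (hN : LFs N)
    (hq : LFs (H.map (QuotientGroup.mk' N))) : LFs H := by
  classical
  intro s hs hsH
  set T := Subgroup.closure s with hT
  have h1 : Finite (T.map (QuotientGroup.mk' N)) := by
    rw [hT, MonoidHom.map_closure]
    refine hq _ (hs.image _) ?_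
    rintro _ ⟨x, hx, rfl⟩
    exact ⟨x, hsH hx, rfl⟩
  have hTfg : Group.FG T := (Group.fg_iff_subgroup_fg _).2 ((Subgroup.fg_iff _).2 ⟨s, hT.symm, hs⟩)
  have h2 : (N.subgroupOf T).FiniteIndex := by
    have h3 : N.subgroupOf T = ((QuotientGroup.mk' N).comp T.subtype).ker := by
      ext x
      rw [Subgroup.mem_subgroupOf, MonoidHom.mem_ker]
      exact (QuotientGroup.eq_one_iff (N := N) (x : G)).symm
    have h4 : Finite ((QuotientGroup.mk' N).comp T.subtype).range := by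
      rw [MonoidHom.range_comp, Subgroup.range_subtype]
      exact h1
    refine ⟨?_⟩
    rw [h3, Subgroup.index_ker]
    exact Nat.card_pos.ne'
  have h3 : Group.FG (N.subgroupOf T) := Subgroup.fg_of_index_ne_zero _
  obtain ⟨S0, hS0⟩ := (Group.fg_iff_subgroup_fg _).1 h3
  have h4 : Subgroup.closure ((S0.image T.subtype : Finset G) : Set G) = N ⊓ T := by
    rw [Finset.coe_image, ← MonoidHom.map_closure, hS0, Subgroup.subgroupOf_map_subtype]
  have h5 : Finite (N ⊓ T : Subgroup G) := by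
    rw [← h4]
    refine hN _ (Finset.finite_toSet _) ?_
    intro x hx
    have : x ∈ N ⊓ T := by rw [← h4]; exact Subgroup.subset_closure hx
    exact this.1
  refine finite_of_quot (N.subgroupOf T) ?_ inferInstance
  refine Finite.of_injective (fun x : N.subgroupOf T =>
    (⟨((x : T) : G), ⟨Subgroup.mem_subgroupOf.1 x.2, x.1.2⟩⟩ : (N ⊓ T : Subgroup G))) ?_
  intro x y hxy
  exact Subtype.ext (Subtype.ext (congrArg (fun z : (N ⊓ T : Subgroup G) => (z : G)) hxy))

lemma LFs.sup {M N : Subgroup G} [N.Normal] (hM : LFs M) (hN : LFs N) : LFs (M ⊔ N) := by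
  refine LFs.ext N (M ⊔ N) hN ?_
  have h1 : (M ⊔ N).map (QuotientGroup.mk' N) ≤ M.map (QuotientGroup.mk' N) := by
    rw [Subgroup.map_sup]
    refine sup_le le_rfl ?_
    rintro _ ⟨x, hx, rfl⟩
    have : QuotientGroup.mk' N x = 1 := (QuotientGroup.eq_one_iff x).2 hx
    rw [this]; exact Subgroup.one_mem _
  exact (hM.map _).mono h1

/-- The locally finite radical. -/
def rad (G : Type) [Group G] : Subgroup G where
  carrier := {x | ∃ N : Subgroup G, N.Normal ∧ LFs N ∧ x ∈ N}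
  one_mem' := ⟨⊥, inferInstance, fun s _ hs => by
    have h1 : Subgroup.closure s ≤ ⊥ := (Subgroup.closure_le _).2 hs
    have h2 : Subgroup.closure s = ⊥ := le_bot_iff.1 h1
    rw [h2]; infer_instance, Subgroup.one_mem _⟩
  mul_mem' := by
    rintro a b ⟨M, hM, hM', ha⟩ ⟨N, hN, hN', hb⟩
    exact ⟨M ⊔ N, Subgroup.sup_normal M N, hM'.sup hN',
      Subgroup.mul_mem _ (Subgroup.mem_sup_left ha) (Subgroup.mem_sup_right hb)⟩
  inv_mem' := by
    rintro a ⟨M, hM, hM', ha⟩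
    exact ⟨M, hM, hM', M.inv_mem ha⟩

lemma rad_le {N : Subgroup G} (h1 : N.Normal) (h2 : LFs N) : N ≤ rad G :=
  fun _ hx => ⟨N, h1, h2, hx⟩

instance rad_normal : (rad G).Normal := by
  refine ⟨?_⟩
  rintro x ⟨M, hM, hM', hx⟩ g
  exact ⟨M, hM, hM', hM.conj_mem x hx g⟩

lemma rad_LFs : LFs (rad G) := by
  intro s hs hsR
  have key : ∃ N : Subgroup G, N.Normal ∧ LFs N ∧ s ⊆ (N : Set G) := by
    induction s, hs using Set.Finite.induction_on with
    | empty =>
      obtain ⟨N, h1, h2, -⟩ := (rad G).one_mem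
      exact ⟨N, h1, h2, Set.empty_subset _⟩
    | insert _ _ ih =>
      obtain ⟨N, h1, h2, h3⟩ := ih ((Set.subset_insert _ _).trans hsR)
      obtain ⟨M, h4, h5, h6⟩ := hsR (Set.mem_insert _ _)
      refine ⟨N ⊔ M, Subgroup.sup_normal N M, h2.sup h5, ?_⟩
      rintro x (rfl | hx)
      · exact Subgroup.mem_sup_right h6
      · exact Subgroup.mem_sup_left (h3 hx)
  obtain ⟨N, -, h2, h3⟩ := key
  exact h2 s hs h3

lemma rad_quot {N : Subgroup (G ⧸ rad G)} (h1 : N.Normal) (h2 : LFs N) : N = ⊥ := by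
  have h3 : LFs (N.comap (QuotientGroup.mk' (rad G))) := by
    refine LFs.ext (rad G) _ rad_LFs ?_
    rw [Subgroup.map_comap_eq_self_of_surjective (QuotientGroup.mk'_surjective _)]
    exact h2
  have h4 := rad_le (h1.comap _) h3
  rw [eq_bot_iff]
  intro x hx
  obtain ⟨x, rfl⟩ := QuotientGroup.mk'_surjective (rad G) x
  exact (QuotientGroup.eq_one_iff x).2 (h4 hx)

end

namespace Ex

variable {G : Type} [Group G] {σ : G} {F : Subgroup G} (H : Ex G σ F)

include H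

lemma σ_notMem_rad : σ ∉ rad G := by
  intro h
  have h1 : Subgroup.normalClosure {σ} ≤ rad G :=
    Subgroup.normalClosure_le_normal (by rintro x rfl; exact h)
  rw [H.hnc] at h1
  exact H.not_locfin (fun s hs => rad_LFs s hs (fun x _ => h1 (Subgroup.mem_top x)))

lemma lift_cen {y : G} (hy : y⁻¹ * (σ * y * σ⁻¹) ∈ rad G) :
    ∃ z, σ * z = z * σ ∧ QuotientGroup.mk' (rad G) z = QuotientGroup.mk' (rad G) y := by
  set r := y⁻¹ * (σ * y * σ⁻¹) with hr
  have hi := H.inv_σ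
  have hrF : r ∈ F := by
    have hFn := H.hFn
    rw [hr, Subgroup.mul_mem_iff_of_index_two H.hFi, inv_mem_iff]
    constructor
    · intro h; exact hFn.conj_mem y h σ
    · intro h
      have := hFn.conj_mem _ h σ⁻¹
      have e : σ⁻¹ * (σ * y * σ⁻¹) * σ⁻¹⁻¹ = y := by group
      rwa [e] at this
  obtain ⟨l, hl⟩ := H.exists_half hrF
  have h1 : σ * r * σ⁻¹ = r⁻¹ := by
    have e1 : r⁻¹ = σ * y⁻¹ * σ⁻¹ * y := by rw [hr]; group
    rw [e1, hr, hi]
    calc σ * (y⁻¹ * (σ * y * σ)) * σ = σ * y⁻¹ * σ * y * (σ * σ) := by group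
      _ = σ * y⁻¹ * σ * y := by rw [H.hσ2, mul_one]
  have h2 : σ * r ^ l * σ⁻¹ = (r ^ l)⁻¹ := by
    rw [← conj_pow, h1, inv_pow]
  have h3 : σ * y * σ⁻¹ = y * r := by rw [hr]; group
  refine ⟨y * r ^ l, ?_, ?_⟩
  · have h4 : σ * (y * r ^ l) * σ⁻¹ = y * r ^ l := by
      calc σ * (y * r ^ l) * σ⁻¹ = (σ * y * σ⁻¹) * (σ * r ^ l * σ⁻¹) := by group
        _ = y * r * (r ^ l)⁻¹ := by rw [h2, h3]
        _ = y * (r ^ l * r ^ l) * (r ^ l)⁻¹ := by rw [hl]
        _ = y * r ^ l := by group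
    calc σ * (y * r ^ l) = (σ * (y * r ^ l) * σ⁻¹) * σ := by group
      _ = y * r ^ l * σ := by rw [h4]
  · rw [map_mul]
    have h5 : QuotientGroup.mk' (rad G) (r ^ l) = 1 :=
      (QuotientGroup.eq_one_iff _).2 ((rad G).pow_mem hy l)
    rw [h5, mul_one]

lemma cen_σ (s : Set (G ⧸ rad G)) (hs : s.Finite)
    (hc : ∀ x ∈ s, QuotientGroup.mk' (rad G) σ * x = x * QuotientGroup.mk' (rad G) σ) :
    Finite (Subgroup.closure s) := by
  classical
  have h1 : ∀ x : G ⧸ rad G, ∃ z : G, x ∈ s → σ * z = z * σ ∧ QuotientGroup.mk' (rad G) z = x := by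
    intro x
    by_cases hx : x ∈ s
    · obtain ⟨y, rfl⟩ := QuotientGroup.mk'_surjective (rad G) x
      have h2 := hc _ hx
      obtain ⟨z, hz1, hz2⟩ := H.lift_cen (y := y) (by
        refine (QuotientGroup.eq_one_iff (N := rad G) _).1 ?_
        change QuotientGroup.mk' (rad G) (y⁻¹ * (σ * y * σ⁻¹)) = 1
        simp only [map_mul, map_inv]
        rw [h2]; group)
      exact ⟨z, fun _ => ⟨hz1, hz2⟩⟩
    · exact ⟨1, fun h => absurd h hx⟩
  choose l hl using h1
  have h2 : Finite (Subgroup.closure (l '' s)) := H.cen _ (hs.image l) (by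
    rintro _ ⟨x, hx, rfl⟩
    exact (hl x hx).1)
  have h3 : s = (QuotientGroup.mk' (rad G)) '' (l '' s) := by
    ext x
    constructor
    · intro hx; exact ⟨l x, ⟨x, hx, rfl⟩, (hl x hx).2⟩
    · rintro ⟨_, ⟨y, hy, rfl⟩, rfl⟩
      rw [(hl y hy).2]; exact hy
  rw [h3, ← MonoidHom.map_closure]
  exact finite_map _ _ h2

lemma conj_σ (x : G ⧸ rad G) (hx : orderOf x = 2) :
    ∃ g : G ⧸ rad G, x = g * QuotientGroup.mk' (rad G) σ * g⁻¹ := by
  obtain ⟨y, rfl⟩ := QuotientGroup.mk'_surjective (rad G) x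
  set q := QuotientGroup.mk' (rad G) with hq
  have hx2 : q y * q y = 1 := by
    have := pow_orderOf_eq_one (q y)
    rwa [hx, pow_two] at this
  have hyF : y ∉ F := by
    intro hyF
    obtain ⟨n, hn⟩ := H.hp y hyF
    have h1 : orderOf (q y) ∣ 3 ^ n := orderOf_dvd_of_pow_eq_one (by rw [← map_pow, hn, map_one])
    rw [hx] at h1
    have h2 : Nat.Coprime 2 (3 ^ n) := Nat.Coprime.pow_right n (by norm_num)
    have h3 := Nat.Coprime.eq_one_of_dvd h2 h1
    omega
  have hr : y * σ ∈ F := by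
    rw [Subgroup.mul_mem_iff_of_index_two H.hFi]
    exact iff_of_false hyF H.hσF
  obtain ⟨l, hl⟩ := H.exists_half hr
  have hσ2 : q σ * q σ = 1 := by rw [← map_mul, H.hσ2, map_one]
  have hσi : (q σ)⁻¹ = q σ := inv_eq_of_mul_eq_one_left hσ2
  have hyi : (q y)⁻¹ = q y := inv_eq_of_mul_eq_one_left hx2
  have hl' : (q y * q σ) ^ l * (q y * q σ) ^ l = q y * q σ := by
    rw [← map_mul, ← map_pow, ← map_mul, hl]
  have h1 : q σ * (q y * q σ) * (q σ)⁻¹ = (q y * q σ)⁻¹ := by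
    rw [mul_inv_rev, hσi, hyi]
    calc q σ * (q y * q σ) * q σ = q σ * q y * (q σ * q σ) := by group
      _ = q σ * q y := by rw [hσ2, mul_one]
  have h2 : q σ * (q y * q σ) ^ l * (q σ)⁻¹ = ((q y * q σ) ^ l)⁻¹ := by
    rw [← conj_pow, h1, inv_pow]
  have h2' : q σ * ((q y * q σ) ^ l)⁻¹ = (q y * q σ) ^ l * q σ := by
    rw [← h2, hσi]
    calc q σ * (q σ * (q y * q σ) ^ l * q σ) = (q σ * q σ) * (q y * q σ) ^ l * q σ := by group
      _ = (q y * q σ) ^ l * q σ := by rw [hσ2, one_mul]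
  refine ⟨(q y * q σ) ^ l, ?_⟩
  rw [mul_assoc, h2', ← mul_assoc, hl', mul_assoc, hσ2, mul_one]

lemma cen_all (x : G ⧸ rad G) (hx : orderOf x = 2) (s : Set (G ⧸ rad G)) (hs : s.Finite)
    (hc : ∀ y ∈ s, x * y = y * x) : Finite (Subgroup.closure s) := by
  obtain ⟨g, rfl⟩ := H.conj_σ x hx
  set q := QuotientGroup.mk' (rad G) σ with hq
  have h1 : Finite (Subgroup.closure ((MulAut.conj g⁻¹).toMonoidHom '' s)) := by
    refine H.cen_σ _ (hs.image _) ?_
    rintro _ ⟨y, hy, rfl⟩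
    have h2 := hc y hy
    change q * (g⁻¹ * y * g⁻¹⁻¹) = (g⁻¹ * y * g⁻¹⁻¹) * q
    rw [inv_inv]
    calc q * (g⁻¹ * y * g) = g⁻¹ * ((g * q * g⁻¹) * y) * g := by group
      _ = g⁻¹ * (y * (g * q * g⁻¹)) * g := by rw [h2]
      _ = g⁻¹ * y * g * q := by group
  rw [← MonoidHom.map_closure] at h1
  refine Finite.of_injective (β := (Subgroup.closure s).map (MulAut.conj g⁻¹).toMonoidHom)
    (fun y => ⟨(MulAut.conj g⁻¹).toMonoidHom y, ⟨y, y.2, rfl⟩⟩) ?_
  intro a b hab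
  have h2 : (MulAut.conj g⁻¹) (a : G ⧸ rad G) = (MulAut.conj g⁻¹) (b : G ⧸ rad G) :=
    congrArg Subtype.val hab
  exact Subtype.ext ((MulAut.conj g⁻¹).injective h2)

end Ex

end Pool.Agent.Helper904.GS
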