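import Pool.Agent.Helper904.GS.Growth

set_option autoImplicit false

namespace Pool.Agent.Helper904.GS

open Finset

namespace Cert

variable {k : Type} [Field k] {G : Type} [Group G] {K : Subgroup G} (C : Cert k K)

/-- The filtration with degrees `a + b * e`. -/
noncomputable def RJ (a b : ℕ) (hb : 1 ≤ b) : ℕ → Submodule k (GA k G)
  | 0 => C.J 0
  | (n + 1) => comb (fun i => dx (C.g i)) (fun i => RJ a b hb (n + 1 - (a + b * C.e i)))
termination_by n => n
decreasing_by
  have h1 := C.e_pos i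
  have h2 : 1 ≤ b * C.e i := Nat.mul_pos hb h1
  omega

variable (a b : ℕ) (hb : 1 ≤ b)

lemma RJ_zero : C.RJ a b hb 0 = C.J 0 := by rw [RJ]

lemma RJ_gen {n : ℕ} (hn : 1 ≤ n) {y : GA k G} : y ∈ C.RJ a b hb n ↔
    ∃ c : C.ι → GA k G, (∀ i, c i ∈ C.RJ a b hb (n - (a + b * C.e i))) ∧
      y = ∑ i, c i * dx (C.g i) := by
  obtain ⟨m, rfl⟩ : ∃ m, n = m + 1 := ⟨n - 1, by omega⟩
  rw [RJ]
  exact Iff.rfl

include hb in
lemma e'_pos (i : C.ι) : 1 ≤ a + b * C.e i := by
  have h1 := C.e_pos i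
  have h2 : 1 ≤ b * C.e i := Nat.mul_pos hb h1
  omega

lemma RJ_succ_le (n : ℕ) : C.RJ a b hb (n + 1) ≤ C.RJ a b hb n := by
  induction n using Nat.strong_induction_on with
  | _ n ih =>
    intro y hy
    obtain ⟨c, hc, rfl⟩ := (C.RJ_gen a b hb (by omega)).1 hy
    rcases Nat.eq_zero_or_pos n with rfl | hn
    · rw [RJ_zero]
      refine Submodule.sum_mem _ fun i _ => ?_
      have h1 := hc i
      have h2 := C.e'_pos a b hb i
      have h3 : 0 + 1 - (a + b * C.e i) = 0 := by omega
      rw [h3, RJ_zero] at h1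
      exact C.mul_left_mem h1 (C.J_sub0 (C.x_mem i))
    · refine (C.RJ_gen a b hb hn).2 ⟨c, fun i => ?_, rfl⟩
      have h1 := hc i
      have h2 := C.e'_pos a b hb i
      by_cases h : a + b * C.e i ≤ n
      · have h3 : n + 1 - (a + b * C.e i) = (n - (a + b * C.e i)) + 1 := by omega
        rw [h3] at h1
        exact ih _ (by omega) h1
      · have h3 : n + 1 - (a + b * C.e i) = 0 := by omega
        have h4 : n - (a + b * C.e i) = 0 := by omega
        rw [h3] at h1; rw [h4]; exact h1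

lemma RJ_anti : Antitone (C.RJ a b hb) := antitone_nat_of_succ_le (C.RJ_succ_le a b hb)

lemma RJ_x {N : ℕ} {c : GA k G} (hc : c ∈ C.RJ a b hb N) (i : C.ι) :
    c * dx (C.g i) ∈ C.RJ a b hb (N + (a + b * C.e i)) := by
  have h2 := C.e'_pos a b hb i
  rw [C.RJ_gen a b hb (by omega)]
  rw [← mem_comb (fun i => dx (C.g i))]
  refine single_mem_comb (fun i => dx (C.g i)) _ i ?_
  rw [Nat.add_sub_cancel]; exact hc

lemma RJ_P (n : ℕ) : (∀ x ∈ C.RJ a b hb n, ∀ y ∈ C.J 0, x * y ∈ C.RJ a b hb n) ∧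
    (∀ m, 1 ≤ m → ∀ x ∈ C.RJ a b hb n, ∀ y ∈ C.J m, x * y ∈ C.RJ a b hb (n + a + b * m)) := by
  induction n using Nat.strong_induction_on with
  | _ n ih =>
    have M0 : ∀ x ∈ C.RJ a b hb n, ∀ y ∈ C.J 0, x * y ∈ C.RJ a b hb n := by
      intro x hx y hy
      rcases Nat.eq_zero_or_pos n with rfl | hn
      · rw [RJ_zero] at hx ⊢
        exact C.mul_left_mem hx hy
      · obtain ⟨c, hc, rfl⟩ := (C.RJ_gen a b hb hn).1 hx
        rw [Finset.sum_mul]
        refine Submodule.sum_mem _ fun i _ => ?_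
        have h2 := C.e'_pos a b hb i
        rw [mul_assoc]
        refine C.RJ_anti a b hb ?_ ((ih (n - (a + b * C.e i)) (by omega)).2 (C.e i) (C.e_pos i)
          (c i) (hc i) (dx (C.g i) * y) (C.mul_right_mem (C.x_mem i) hy))
        omega
    refine ⟨M0, ?_⟩
    intro m
    induction m using Nat.strong_induction_on with
    | _ m ihm =>
      intro hm x hx y hy
      obtain ⟨d, hd, rfl⟩ := C.gen m hm y hy
      rw [Finset.mul_sum]
      refine Submodule.sum_mem _ fun j _ => ?_
      rw [← mul_assoc]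
      have h1 := C.e_pos j
      rcases Nat.eq_zero_or_pos (m - C.e j) with h0 | h0
      · have h2 := hd j
        rw [h0] at h2
        refine C.RJ_anti a b hb ?_ (C.RJ_x a b hb (M0 x hx (d j) h2) j)
        have h3 : b * m ≤ b * C.e j := Nat.mul_le_mul_left b (by omega)
        omega
      · refine C.RJ_anti a b hb ?_
          (C.RJ_x a b hb (ihm (m - C.e j) (by omega) h0 x hx (d j) (hd j)) j)
        have h3 : b * m = b * (m - C.e j) + b * C.e j := by
          rw [← Nat.mul_add]; congr 1; omega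
        omega

lemma RJ_mul (n m : ℕ) (x y : GA k G) (hx : x ∈ C.RJ a b hb n) (hy : y ∈ C.RJ a b hb m) :
    x * y ∈ C.RJ a b hb (n + m) := by
  induction m using Nat.strong_induction_on generalizing x y with
  | _ m ih =>
    rcases Nat.eq_zero_or_pos m with rfl | hm
    · rw [RJ_zero] at hy
      exact (C.RJ_P a b hb n).1 x hx y hy
    · obtain ⟨d, hd, rfl⟩ := (C.RJ_gen a b hb hm).1 hy
      rw [Finset.mul_sum]
      refine Submodule.sum_mem _ fun j _ => ?_
      rw [← mul_assoc]
      have h2 := C.e'_pos a b hb j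
      refine C.RJ_anti a b hb ?_ (C.RJ_x a b hb (ih (m - (a + b * C.e j)) (by omega) x (d j) hx (hd j)) j)
      omega

lemma RJ_incl {m : ℕ} (hm : 1 ≤ m) {y : GA k G} (hy : y ∈ C.J m) :
    y ∈ C.RJ a b hb (a + b * m) := by
  have h := (C.RJ_P a b hb 0).2 m hm 1 (by rw [RJ_zero]; exact C.one_mem) y hy
  rw [one_mul, Nat.zero_add] at h
  exact h

/-- Changing all degrees `e` to `a + b * e`. -/
noncomputable def reweight : Cert k K where
  ι := C.ι
  κ := C.κ
  fι := C.fι
  fκ := C.fκ
  g := C.g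
  e i := a + b * C.e i
  r := C.r
  d i := a + b * C.d i
  J := C.RJ a b hb
  g_mem := C.g_mem
  e_pos := C.e'_pos a b hb
  J_zero := by rw [RJ_zero, C.J_zero]
  J_anti := C.RJ_anti a b hb
  J_mul := C.RJ_mul a b hb
  x_mem i := C.RJ_incl a b hb (C.e_pos i) (C.x_mem i)
  one h hh := C.RJ_anti a b hb (by omega) (C.RJ_incl a b hb le_rfl (C.one h hh))
  gen n hn x hx := (C.RJ_gen a b hb hn).1 hx
  r_mem i j := by
    have h := C.r_mem i j
    rcases Nat.eq_zero_or_pos (C.d i - C.e j) with h0 | h0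
    · have h3 : b * C.d i ≤ b * C.e j := Nat.mul_le_mul_left b (by omega)
      have h4 : a + b * C.d i - (a + b * C.e j) = 0 := by omega
      rw [h4, RJ_zero]
      exact C.J_sub0 h
    · refine C.RJ_anti a b hb ?_ (C.RJ_incl a b hb h0 h)
      have h3 : b * C.d i = b * (C.d i - C.e j) + b * C.e j := by
        rw [← Nat.mul_add]; congr 1; omega
      omega
  r_syz := C.r_syz
  r_gen := by
    intro s hs h
    rw [RJ_zero] at *
    exact C.r_gen s hs h

lemma reweight_J : (C.reweight a b hb).J = C.RJ a b hb := rfl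

lemma reweight_D (t s : ℝ) (h : s ^ b = t) :
    (C.reweight a b hb).D s = s ^ a * (1 + C.D t) - 1 := by
  have h1 : (C.reweight a b hb).W s = s ^ a * C.W t := by
    change ∑ i, s ^ (a + b * C.e i) = s ^ a * ∑ i, t ^ C.e i
    rw [Finset.mul_sum]
    refine Finset.sum_congr rfl fun i _ => ?_
    rw [pow_add, pow_mul, h]
  have h2 : (C.reweight a b hb).WR s = s ^ a * C.WR t := by
    change ∑ i, s ^ (a + b * C.d i) = s ^ a * ∑ i, t ^ C.d i
    rw [Finset.mul_sum]
    refine Finset.sum_congr rfl fun i _ => ?_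
    rw [pow_add, pow_mul, h]
  unfold D
  rw [h1, h2]; ring

/-- Invariance of the filtration under a group element. -/
def InvAt (h : G) : Prop := ∀ n, ∀ x ∈ C.J n, o h * x * o h⁻¹ ∈ C.J n

lemma reweight_inv {h : G} (hC : C.InvAt h) : (C.reweight a b hb).InvAt h := by
  intro n
  induction n using Nat.strong_induction_on with
  | _ n ih =>
    intro x hx
    rcases Nat.eq_zero_or_pos n with rfl | hn
    · rw [reweight_J, RJ_zero] at *
      exact hC 0 x hx
    · rw [reweight_J] at hx ⊢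
      obtain ⟨c, hc, rfl⟩ := (C.RJ_gen a b hb hn).1 hx
      rw [Finset.mul_sum, Finset.sum_mul]
      refine Submodule.sum_mem _ fun i _ => ?_
      have h2 := C.e'_pos a b hb i
      have e1 : (o h : GA k G) * (c i * dx (C.g i)) * o h⁻¹
          = (o h * c i * o h⁻¹) * (o h * dx (C.g i) * o h⁻¹) := by
        have : (o h : GA k G) * (c i * dx (C.g i)) * o h⁻¹
          = o h * c i * 1 * dx (C.g i) * o h⁻¹ := by noncomm_ring
        rw [this, ← o_inv_mul h]; noncomm_ring
      rw [e1]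
      have h3 := ih (n - (a + b * C.e i)) (by omega) (c i) (hc i)
      refine C.RJ_anti a b hb ?_ ((C.RJ_P a b hb (n - (a + b * C.e i))).2 (C.e i) (C.e_pos i) _ h3 _
        (hC _ _ (C.x_mem i)))
      omega

end Cert

end Pool.Agent.Helper904.GS
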