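import Pool.Agent.Helper904.GS.Quot

set_option autoImplicit false

namespace Pool.Agent.Helper904.GS

open Finset

section seqs

variable {k : Type} [Field k] {G : Type} [Group G]

/-- Conjugation by a group element on the group algebra. -/
noncomputable def cj (t : G) (x : GA k G) : GA k G := o t * x * o t⁻¹

lemma cj_BK {L : Subgroup G} {t : G} (ht : ∀ l ∈ L, t * l * t⁻¹ ∈ L) {x : GA k G}
    (hx : x ∈ BK L) : cj t x ∈ BK L := by
  unfold BK at hx
  unfold cj
  induction hx using Submodule.span_induction with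
  | mem x h =>
    obtain ⟨g, hg, rfl⟩ := h
    rw [← o_mul, ← o_mul]
    exact o_mem_BK (ht g hg)
  | zero => simp
  | add x y _ _ h1 h2 => rw [mul_add, add_mul]; exact Submodule.add_mem _ h1 h2
  | smul c x _ h => rw [mul_smul_comm, smul_mul_assoc]; exact Submodule.smul_mem _ _ h

lemma o_mul_eq_cj (t : G) (x : GA k G) : o t * x = cj t x * o t := by
  unfold cj
  rw [mul_assoc, mul_assoc, o_inv_mul, mul_one]

/-- The sequence of left products of `t - w i`. -/
noncomputable def Aseq (t : G) (w : ℕ → GA k G) : ℕ → GA k G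
  | 0 => 1
  | (i + 1) => (o t - w (i + 1)) * Aseq t w i

lemma Aseq_one (t : G) (i : ℕ) : Aseq t (fun _ => (1 : GA k G)) i = dx t ^ i := by
  induction i with
  | zero => simp [Aseq]
  | succ i ih => rw [Aseq, ih, pow_succ', dx]

/-- Combinations of the first `m` members of a sequence with coefficients from `BK L`. -/
noncomputable def UU (L : Subgroup G) (A : ℕ → GA k G) (m : ℕ) : Submodule k (GA k G) :=
  comb (fun i : Fin m => A i) (fun _ => BK L)

lemma UU_mono {L : Subgroup G} {A : ℕ → GA k G} {m n : ℕ} (h : m ≤ n) {x : GA k G}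
    (hx : x ∈ UU L A m) : x ∈ UU L A n := by
  obtain ⟨c, hc, rfl⟩ := hx
  refine Submodule.sum_mem _ fun i _ => ?_
  exact single_mem_comb (fun i : Fin n => A i) (fun _ => BK L) ⟨i, by omega⟩ (hc i)

lemma UU_mem {L : Subgroup G} {A : ℕ → GA k G} {m i : ℕ} (h : i < m) {c : GA k G}
    (hc : c ∈ BK L) : c * A i ∈ UU L A m :=
  single_mem_comb (fun i : Fin m => A i) (fun _ => BK L) ⟨i, h⟩ hc

lemma UU_left {L : Subgroup G} {A : ℕ → GA k G} {m : ℕ} {x c : GA k G} (hc : c ∈ BK L)
    (hx : x ∈ UU L A m) : c * x ∈ UU L A m := by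
  obtain ⟨d, hd, rfl⟩ := hx
  refine ⟨fun i => c * d i, fun i => mul_mem_BK hc (hd i), ?_⟩
  rw [Finset.mul_sum]
  exact Finset.sum_congr rfl fun i _ => (mul_assoc _ _ _).symm

/-- Restriction to a set of group elements. -/
noncomputable def res (S : Set G) : GA k G →ₗ[k] GA k G :=
  letI := Classical.decPred (· ∈ S)
  (MonoidAlgebra.basis G k).constr k (fun g => if g ∈ S then o g else 0)

lemma res_mem {S : Set G} {g : G} (h : g ∈ S) : res S (o g : GA k G) = o g := by
  classical
  have : (o g : GA k G) = MonoidAlgebra.basis G k g := by simp [o, MonoidAlgebra.of]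
  unfold res
  rw [this, Module.Basis.constr_basis]
  simp [h, this]

lemma res_not_mem {S : Set G} {g : G} (h : g ∉ S) : res S (o g : GA k G) = 0 := by
  classical
  have : (o g : GA k G) = MonoidAlgebra.basis G k g := by simp [o, MonoidAlgebra.of]
  unfold res
  rw [this, Module.Basis.constr_basis]
  simp [h]

lemma res_coset_same {L : Subgroup G} {t : G} {x : GA k G} (hx : x ∈ BK L) :
    res {g | ∃ l ∈ L, g = l * t} (x * o t) = x * o t := by
  unfold BK at hx
  induction hx using Submodule.span_induction with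
  | mem x h =>
    obtain ⟨g, hg, rfl⟩ := h
    rw [← o_mul]
    exact res_mem ⟨g, hg, rfl⟩
  | zero => simp
  | add x y _ _ h1 h2 => rw [add_mul, map_add, h1, h2]
  | smul c x _ h => rw [smul_mul_assoc, map_smul, h]

lemma res_coset_diff {L : Subgroup G} {t s : G} (hst : s * t⁻¹ ∉ L) {x : GA k G}
    (hx : x ∈ BK L) :
    res {g | ∃ l ∈ L, g = l * t} (x * o s) = 0 := by
  unfold BK at hx
  induction hx using Submodule.span_induction with
  | mem x h =>
    obtain ⟨g, hg, rfl⟩ := h
    rw [← o_mul]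
    refine res_not_mem ?_
    rintro ⟨l, hl, h⟩
    refine hst ?_
    have : s * t⁻¹ = g⁻¹ * l := by
      rw [mul_inv_eq_iff_eq_mul, mul_assoc, ← h]; group
    rw [this]
    exact L.mul_mem (L.inv_mem hg) hl
  | zero => simp
  | add x y _ _ h1 h2 => rw [add_mul, map_add, h1, h2, add_zero]
  | smul c x _ h => rw [smul_mul_assoc, map_smul, h, smul_zero]

/-- Powers of `t` are independent over `BK L`. -/
lemma pow_indep {L : Subgroup G} {t : G} {m : ℕ} (hm : ∀ i, 0 < i → i ≤ m → t ^ i ∉ L)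
    {c : GA k G} (hc : c ∈ BK L) (h : c * o (t ^ m) ∈ UU L (fun i => o (t ^ i)) m) : c = 0 := by
  obtain ⟨d, hd, he⟩ := h
  have h1 := congrArg (res {g | ∃ l ∈ L, g = l * t ^ m}) he
  rw [res_coset_same hc, map_sum] at h1
  rw [Finset.sum_eq_zero] at h1
  · have h2 : c * o (t ^ m) * o (t ^ m)⁻¹ = 0 := by rw [h1, zero_mul]
    rwa [mul_assoc, o_mul_inv, mul_one] at h2
  · intro i _
    refine res_coset_diff ?_ (hd i)
    intro h2
    refine hm (m - i) (by omega) (by omega) ?_
    have h3 := L.inv_mem h2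
    have : (t ^ (i : ℕ) * (t ^ m)⁻¹)⁻¹ = t ^ (m - (i : ℕ)) := by
      rw [mul_inv_rev, inv_inv, ← div_eq_mul_inv, pow_sub t (by omega : (i : ℕ) ≤ m), div_eq_mul_inv]
    rwa [this] at h3

lemma UU_t {L : Subgroup G} {t : G} (ht : ∀ l ∈ L, t * l * t⁻¹ ∈ L) {m : ℕ} {x : GA k G}
    (hx : x ∈ UU L (fun i => o (t ^ i)) m) : o t * x ∈ UU L (fun i => (o (t ^ i) : GA k G)) (m + 1) := by
  obtain ⟨c, hc, rfl⟩ := hx
  rw [Finset.mul_sum]
  refine Submodule.sum_mem _ fun i _ => ?_
  have e1 : o t * (c i * o (t ^ (i : ℕ))) = cj t (c i) * o (t ^ ((i : ℕ) + 1)) := by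
    rw [← mul_assoc, o_mul_eq_cj, mul_assoc, ← o_mul, pow_succ']
  rw [e1]
  exact UU_mem (A := fun i => o (t ^ i)) (by omega) (cj_BK ht (hc i))

/-- The sequence is monic in `t`. -/
lemma Aseq_monic {L : Subgroup G} {t : G} (ht : ∀ l ∈ L, t * l * t⁻¹ ∈ L) {w : ℕ → GA k G}
    (hw : ∀ i, w i ∈ BK L) (i : ℕ) :
    Aseq t w i - o (t ^ i) ∈ UU L (fun i => (o (t ^ i) : GA k G)) i := by
  induction i with
  | zero => simp [Aseq, o_one]
  | succ i ih =>
    have h1 := UU_t ht ih
    have h2 : w (i + 1) * (Aseq t w i - o (t ^ i)) ∈ UU L (fun i => (o (t ^ i) : GA k G)) (i + 1) :=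
      UU_mono (Nat.le_succ i) (UU_left (hw _) ih)
    have h3 : w (i + 1) * o (t ^ i) ∈ UU L (fun i => (o (t ^ i) : GA k G)) (i + 1) :=
      UU_mem (A := fun i => o (t ^ i)) (Nat.lt_succ_self i) (hw _)
    have e1 : Aseq t w (i + 1) - o (t ^ (i + 1)) =
        o t * (Aseq t w i - o (t ^ i)) - w (i + 1) * (Aseq t w i - o (t ^ i))
          - w (i + 1) * o (t ^ i) := by
      rw [Aseq, pow_succ', o_mul]; noncomm_ring
    rw [e1]
    exact Submodule.sub_mem _ (Submodule.sub_mem _ h1 h2) h3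

/-- Uniqueness of coefficients. -/
lemma Aseq_indep {L : Subgroup G} {t : G} (ht : ∀ l ∈ L, t * l * t⁻¹ ∈ L) {p : ℕ}
    (hp : ∀ i, 0 < i → i < p → t ^ i ∉ L) {w : ℕ → GA k G}
    (hw : ∀ i, w i ∈ BK L) (m : ℕ) (hm : m ≤ p) (c : ℕ → GA k G) (hc : ∀ i < m, c i ∈ BK L)
    (h : ∑ i ∈ range m, c i * Aseq t w i = 0) : ∀ i < m, c i = 0 := by
  induction m with
  | zero => intro i hi; omega
  | succ m ih =>
    rw [Finset.sum_range_succ] at h
    have hlow : ∑ i ∈ range m, c i * Aseq t w i ∈ UU L (fun i => (o (t ^ i) : GA k G)) m := by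
      refine Submodule.sum_mem _ fun i hi => ?_
      rw [Finset.mem_range] at hi
      have e1 : c i * Aseq t w i = c i * (Aseq t w i - o (t ^ i)) + c i * o (t ^ i) := by
        noncomm_ring
      rw [e1]
      exact Submodule.add_mem _ (UU_mono (by omega) (UU_left (hc i (by omega)) (Aseq_monic ht hw i)))
        (UU_mem (A := fun i => o (t ^ i)) hi (hc i (by omega)))
    have hcm : c m = 0 := by
      refine pow_indep (t := t) (m := m) (fun i h1 h2 => hp i h1 (by omega)) (hc m (by omega)) ?_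
      have e1 : c m * o (t ^ m) = - (∑ i ∈ range m, c i * Aseq t w i)
          - c m * (Aseq t w m - o (t ^ m)) := by
        rw [eq_neg_of_add_eq_zero_left h]; noncomm_ring
      rw [e1]
      exact Submodule.sub_mem _ (Submodule.neg_mem _ hlow)
        (UU_left (hc m (by omega)) (Aseq_monic ht hw m))
    rw [hcm, zero_mul, add_zero] at h
    intro i hi
    rcases Nat.lt_succ_iff_lt_or_eq.1 hi with h1 | rfl
    · exact ih (by omega) (fun i hi => hc i (by omega)) h i h1
    · exact hcm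

end seqs

end Pool.Agent.Helper904.GS
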