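import Pool.Agent.Helper904.GS.Step

set_option autoImplicit false

namespace Pool.Agent.Helper904.GS

open Finset

section

variable {k : Type} [Field k] {G : Type} [Group G]

lemma mem_comb_fin {m : ℕ} (A : ℕ → GA k G) (S : ℕ → Submodule k (GA k G)) (x : GA k G) :
    x ∈ comb (fun i : Fin m => A i) (fun i : Fin m => S i) ↔
      ∃ c : ℕ → GA k G, (∀ i < m, c i ∈ S i) ∧ x = ∑ i ∈ range m, c i * A i := by
  constructor
  · rintro ⟨c, hc, rfl⟩
    refine ⟨fun i => if h : i < m then c ⟨i, h⟩ else 0, fun i hi => ?_, ?_⟩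
    · simp only [hi, dif_pos]; exact hc ⟨i, hi⟩
    · rw [Finset.sum_range]
      refine Finset.sum_congr rfl fun i _ => ?_
      simp
  · rintro ⟨c, hc, rfl⟩
    refine ⟨fun i => c i, fun i => hc i i.2, ?_⟩
    rw [Finset.sum_range]

end

namespace Cert

variable {k : Type} [Field k] {G : Type} [Group G] {K : Subgroup G} (C : Cert k K)
  (L : Subgroup G)

/-- The restricted filtration. -/
noncomputable def JL (n : ℕ) : Submodule k (GA k G) := C.J n ⊓ BK L

variable {L}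

lemma JL_anti {a b : ℕ} (h : a ≤ b) {x : GA k G} (hx : x ∈ C.JL L b) : x ∈ C.JL L a :=
  ⟨C.J_anti h hx.1, hx.2⟩

lemma JL_mul {a b n : ℕ} (h : n ≤ a + b) {x y : GA k G} (hx : x ∈ C.JL L a) (hy : y ∈ C.JL L b) :
    x * y ∈ C.JL L n := ⟨C.J_mul' h hx.1 hy.1, mul_mem_BK hx.2 hy.2⟩

lemma JL_cj {t : G} (htK : t ∈ K) (ht : ∀ l ∈ L, t * l * t⁻¹ ∈ L) {n : ℕ} {x : GA k G}
    (hx : x ∈ C.JL L n) : cj t x ∈ C.JL L n :=
  ⟨C.mul_right_mem (C.mul_left_mem (C.o_mem htK) hx.1) (C.o_mem (K.inv_mem htK)), cj_BK ht hx.2⟩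

lemma cj_sub (t : G) (x : GA k G) : cj t x - x = (dx t * x - x * dx t) * o t⁻¹ := by
  have : x = x * (o t * o t⁻¹) := by rw [o_mul_inv, mul_one]
  have e : cj t x - x = o t * x * o t⁻¹ - x * (o t * o t⁻¹) := by
    rw [← this]; rfl
  rw [e, dx]; noncomm_ring

lemma JL_delta {t : G} {ep : ℕ} (htK : t ∈ K) (ht : ∀ l ∈ L, t * l * t⁻¹ ∈ L)
    (hte : dx t ∈ C.J ep) {n : ℕ} {x : GA k G}
    (hx : x ∈ C.JL L n) : cj t x - x ∈ C.JL L (n + ep) := by
  refine ⟨?_, Submodule.sub_mem _ (cj_BK ht hx.2) hx.2⟩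
  rw [cj_sub]
  refine C.mul_right_mem (Submodule.sub_mem _ (C.J_mul' (by omega) hte hx.1)
    (C.J_mul' le_rfl hx.1 hte)) (C.o_mem (K.inv_mem htK))

/-- Weighted combinations. -/
noncomputable def V (L : Subgroup G) (t : G) (ep : ℕ) (w : ℕ → GA k G) (n m : ℕ) :
    Submodule k (GA k G) :=
  comb (fun i : Fin m => Aseq t w i) (fun i : Fin m => C.JL L (n - i * ep))

variable {t : G} {ep : ℕ} {w : ℕ → GA k G}

lemma V_mem {n m i : ℕ} (h : i < m) {c : GA k G} (hc : c ∈ C.JL L (n - i * ep)) :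
    c * Aseq t w i ∈ C.V L t ep w n m :=
  single_mem_comb (fun i : Fin m => Aseq t w i) (fun i : Fin m => C.JL L (n - i * ep)) ⟨i, h⟩ hc

lemma V_le {n m n' m' : ℕ} (h : n' ≤ n) (hm : m ≤ m') {x : GA k G}
    (hx : x ∈ C.V L t ep w n m) : x ∈ C.V L t ep w n' m' := by
  obtain ⟨c, hc, rfl⟩ := hx
  refine Submodule.sum_mem _ fun i _ => ?_
  exact C.V_mem (by omega) (C.JL_anti (by omega) (hc i))

lemma V_left {n m a : ℕ} {x v : GA k G} (hx : x ∈ C.JL L a) (hv : v ∈ C.V L t ep w n m) :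
    x * v ∈ C.V L t ep w (n + a) m := by
  obtain ⟨c, hc, rfl⟩ := hv
  rw [Finset.mul_sum]
  refine Submodule.sum_mem _ fun i _ => ?_
  rw [← mul_assoc]
  exact C.V_mem i.2 (C.JL_mul (by omega) hx (hc i))

lemma V_J {n m : ℕ} (hte : dx t ∈ C.J ep) (hw : ∀ i, w (i + 1) - 1 ∈ C.JL L ep)
    {v : GA k G} (hv : v ∈ C.V L t ep w n m) : v ∈ C.J n := by
  have hA : ∀ i, Aseq t w i ∈ C.J (i * ep) := by
    intro i
    induction i with
    | zero => simpa [Aseq] using C.one_mem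
    | succ i ih =>
      have e : Aseq t w (i + 1) = (dx t - (w (i + 1) - 1)) * Aseq t w i := by
        rw [Aseq, dx]; congr 1; abel
      rw [e]
      exact C.J_mul' (by rw [Nat.add_mul]; omega) (Submodule.sub_mem _ hte (hw i).1) ih
  obtain ⟨c, hc, rfl⟩ := hv
  refine Submodule.sum_mem _ fun i _ => ?_
  exact C.J_mul' (by omega) (hc i).1 (hA i)

lemma V_u {n m : ℕ} (htK : t ∈ K) (ht : ∀ l ∈ L, t * l * t⁻¹ ∈ L) (hte : dx t ∈ C.J ep)
    (hw : ∀ i, w (i + 1) - 1 ∈ C.JL L ep) {v : GA k G} (hv : v ∈ C.V L t ep w n m) :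
    dx t * v ∈ C.V L t ep w (n + ep) (m + 1) := by
  obtain ⟨c, hc, rfl⟩ := hv
  rw [Finset.mul_sum]
  refine Submodule.sum_mem _ fun i _ => ?_
  have e1 : dx t * (c i * Aseq t w i) = (cj t (c i) - c i) * Aseq t w i
      + cj t (c i) * Aseq t w ((i : ℕ) + 1) + (cj t (c i) * (w ((i : ℕ) + 1) - 1)) * Aseq t w i := by
    rw [Aseq]
    have e2 : dx t * (c i * Aseq t w i) = (o t * c i) * Aseq t w i - c i * Aseq t w i := by
      rw [dx]; noncomm_ring
    rw [e2, o_mul_eq_cj]; noncomm_ring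
  rw [e1]
  have h1 := C.JL_delta htK ht hte (hc i)
  have h2 := C.JL_cj htK ht (hc i)
  refine Submodule.add_mem _ (Submodule.add_mem _ ?_ ?_) ?_
  · exact C.V_mem (by omega) (C.JL_anti (by omega) h1)
  · refine C.V_mem (by omega) (C.JL_anti ?_ h2)
    rw [Nat.add_mul]; omega
  · exact C.V_mem (by omega) (C.JL_mul (by omega) h2 (hw i))

lemma one_JL : (1 : GA k G) ∈ C.JL L 0 := ⟨C.one_mem, one_mem_BK L⟩

lemma pow_mem_V (htK : t ∈ K) (ht : ∀ l ∈ L, t * l * t⁻¹ ∈ L) (hte : dx t ∈ C.J ep)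
    (hw : ∀ i, w (i + 1) - 1 ∈ C.JL L ep) (m : ℕ) :
    dx t ^ m ∈ C.V L t ep w (m * ep) (m + 1) := by
  induction m with
  | zero =>
    have := C.V_mem (L := L) (t := t) (ep := ep) (w := w) (n := 0) (m := 1) (i := 0) (by omega)
      (c := 1) (by simpa using C.one_JL)
    simpa [Aseq] using this
  | succ m ih =>
    have := C.V_u htK ht hte hw ih
    rw [pow_succ']
    exact C.V_le (by rw [Nat.add_mul]; omega) le_rfl this

lemma Aseq_mem_V1 (htK : t ∈ K) (ht : ∀ l ∈ L, t * l * t⁻¹ ∈ L) (hte : dx t ∈ C.J ep)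
    (hw : ∀ i, w (i + 1) - 1 ∈ C.JL L ep) (m : ℕ) :
    Aseq t w m ∈ C.V L t ep (fun _ => 1) (m * ep) (m + 1) := by
  have h1 : ∀ i, (fun _ => (1 : GA k G)) (i + 1) - 1 ∈ C.JL L ep := fun i => by
    simp
  induction m with
  | zero =>
    have := C.V_mem (L := L) (t := t) (ep := ep) (w := fun _ => 1) (n := 0) (m := 1) (i := 0)
      (by omega) (c := 1) (by simpa using C.one_JL)
    simpa [Aseq] using this
  | succ m ih =>
    have h2 := C.V_u htK ht hte h1 ih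
    have h3 := C.V_left (hw m) ih
    have e : Aseq t w (m + 1) = dx t * Aseq t w m - (w (m + 1) - 1) * Aseq t w m := by
      rw [Aseq, dx]; noncomm_ring
    rw [e]
    exact Submodule.sub_mem _ (C.V_le (by rw [Nat.add_mul]; omega) le_rfl h2)
      (C.V_le (by rw [Nat.add_mul]; omega) (by omega) h3)

lemma V_of_V1 {n m : ℕ} (htK : t ∈ K) (ht : ∀ l ∈ L, t * l * t⁻¹ ∈ L) (hte : dx t ∈ C.J ep)
    (hw : ∀ i, w (i + 1) - 1 ∈ C.JL L ep) {v : GA k G}
    (hv : v ∈ C.V L t ep (fun _ => 1) n m) : v ∈ C.V L t ep w n m := by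
  obtain ⟨c, hc, rfl⟩ := hv
  refine Submodule.sum_mem _ fun i _ => ?_
  beta_reduce
  rw [Aseq_one]
  exact C.V_le (by omega) (by omega) (C.V_left (hc i) (C.pow_mem_V htK ht hte hw i))

lemma V1_of_V {n m : ℕ} (htK : t ∈ K) (ht : ∀ l ∈ L, t * l * t⁻¹ ∈ L) (hte : dx t ∈ C.J ep)
    (hw : ∀ i, w (i + 1) - 1 ∈ C.JL L ep) {v : GA k G}
    (hv : v ∈ C.V L t ep w n m) : v ∈ C.V L t ep (fun _ => 1) n m := by
  obtain ⟨c, hc, rfl⟩ := hv
  refine Submodule.sum_mem _ fun i _ => ?_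
  exact C.V_le (by omega) (by omega) (C.V_left (hc i) (C.Aseq_mem_V1 htK ht hte hw i))

/-- Combinations of positive powers. -/
noncomputable def VP (L : Subgroup G) (t : G) (ep : ℕ) (n m : ℕ) : Submodule k (GA k G) :=
  comb (fun i : Fin m => dx t ^ ((i : ℕ) + 1)) (fun i : Fin m => C.JL L (n - ((i : ℕ) + 1) * ep))

lemma VP_mem {n m i : ℕ} (h : i < m) {c : GA k G} (hc : c ∈ C.JL L (n - (i + 1) * ep)) :
    c * dx t ^ (i + 1) ∈ C.VP L t ep n m :=
  single_mem_comb (fun i : Fin m => dx t ^ ((i : ℕ) + 1))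
    (fun i : Fin m => C.JL L (n - ((i : ℕ) + 1) * ep)) ⟨i, h⟩ hc

lemma VP_le {n m n' m' : ℕ} (h : n' ≤ n) (hm : m ≤ m') {x : GA k G}
    (hx : x ∈ C.VP L t ep n m) : x ∈ C.VP L t ep n' m' := by
  obtain ⟨c, hc, rfl⟩ := hx
  refine Submodule.sum_mem _ fun i _ => ?_
  exact C.VP_mem (by omega) (C.JL_anti (by omega) (hc i))

lemma VP_V1 {n m : ℕ} {x : GA k G} (hx : x ∈ C.VP L t ep n m) :
    x ∈ C.V L t ep (fun _ => 1) n (m + 1) := by
  obtain ⟨c, hc, rfl⟩ := hx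
  refine Submodule.sum_mem _ fun i _ => ?_
  have := C.V_mem (L := L) (t := t) (ep := ep) (w := fun _ => 1) (n := n) (m := m + 1)
    (i := (i : ℕ) + 1) (by omega) (hc i)
  rwa [Aseq_one] at this

lemma V1_mul_u {n m : ℕ} {x : GA k G} (hx : x ∈ C.V L t ep (fun _ => 1) n m) :
    x * dx t ∈ C.VP L t ep (n + ep) m := by
  obtain ⟨c, hc, rfl⟩ := hx
  rw [Finset.sum_mul]
  refine Submodule.sum_mem _ fun i _ => ?_
  beta_reduce
  rw [Aseq_one, mul_assoc, ← pow_succ]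
  refine C.VP_mem i.2 (C.JL_anti ?_ (hc i))
  rw [Nat.add_mul]; omega

/-- Iterated commutators with `t`. -/
def hseq (t g : G) : ℕ → G
  | 0 => g
  | (i + 1) => t * hseq t g i * t⁻¹ * (hseq t g i)⁻¹

/-- The correction sequence. -/
noncomputable def Cs (t g : G) : ℕ → GA k G
  | 0 => 0
  | (i + 1) => (1 - o (t * hseq t g i * t⁻¹)) + (o t - o (hseq t g (i + 1))) * Cs t g i

lemma hseq_id (t g : G) (i : ℕ) :
    (dx (hseq t g i) : GA k G) = Aseq t (fun i => o (hseq t g i)) i * dx g + Cs t g i * dx t := by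
  induction i with
  | zero => simp [Aseq, Cs, hseq]
  | succ i ih =>
    have e1 : (o (hseq t g (i + 1)) : GA k G) * o (hseq t g i) = o (t * hseq t g i * t⁻¹) := by
      rw [← o_mul, hseq]; congr 1; group
    have e2 : (o (t * hseq t g i * t⁻¹) : GA k G) * o t = o t * o (hseq t g i) := by
      rw [← o_mul, ← o_mul]; congr 1; group
    have e3 : Aseq t (fun i => (o (hseq t g i) : GA k G)) (i + 1) * dx g + Cs t g (i + 1) * dx t
        = (o t - o (hseq t g (i + 1))) *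
          (Aseq t (fun i => (o (hseq t g i) : GA k G)) i * dx g + Cs t g i * dx t)
          + (1 - o (t * hseq t g i * t⁻¹)) * dx t := by
      rw [Aseq, Cs]; noncomm_ring
    rw [e3, ← ih, dx, dx, dx]
    have e4 : (o t - o (hseq t g (i + 1))) * (o (hseq t g i) - 1)
        + (1 - o (t * hseq t g i * t⁻¹)) * (o t - 1)
        = o t * o (hseq t g i) - o t - o (hseq t g (i + 1)) * o (hseq t g i)
          + o (hseq t g (i + 1)) + (o t - 1 - o (t * hseq t g i * t⁻¹) * o t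
          + (o (t * hseq t g i * t⁻¹) : GA k G)) := by noncomm_ring
    rw [e4, e1, e2]; abel

lemma hseq_mem {g : G} (ht : ∀ l ∈ L, t * l * t⁻¹ ∈ L) (hg : g ∈ L) (i : ℕ) :
    hseq t g i ∈ L := by
  induction i with
  | zero => exact hg
  | succ i ih => exact L.mul_mem (ht _ ih) (L.inv_mem ih)

lemma hseq_JL {g : G} {e : ℕ} (hLK : L ≤ K) (htK : t ∈ K) (ht : ∀ l ∈ L, t * l * t⁻¹ ∈ L)
    (hte : dx t ∈ C.J ep) (hg : g ∈ L) (hge : dx g ∈ C.J e) (i : ℕ) :
    dx (hseq t g i) ∈ C.JL L (e + i * ep) := by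
  induction i with
  | zero => exact ⟨by simpa [hseq] using hge, dx_mem_BK hg⟩
  | succ i ih =>
    have h1 := C.JL_delta htK ht hte ih
    have hm := hseq_mem ht hg i
    have e1 : (dx (hseq t g (i + 1)) : GA k G)
        = (cj t (dx (hseq t g i)) - dx (hseq t g i)) * o (hseq t g i)⁻¹ := by
      rw [hseq, dx, o_mul, cj, ← dx_conj]
      simp only [dx]
      rw [sub_sub_sub_cancel_right, sub_mul, o_mul_inv]
    rw [e1]
    refine C.JL_mul (a := e + i * ep + ep) (b := 0) (by rw [Nat.add_mul]; omega) h1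
      ⟨C.o_mem (K.inv_mem (hLK hm)), o_mem_BK (L.inv_mem hm)⟩

lemma Cs_mem {g : G} {e : ℕ} (hLK : L ≤ K) (htK : t ∈ K) (ht : ∀ l ∈ L, t * l * t⁻¹ ∈ L)
    (hte : dx t ∈ C.J ep) (hg : g ∈ L) (hge : dx g ∈ C.J e) (i : ℕ) :
    Cs t g i ∈ C.V L t ep (fun _ => 1) (e + i * ep - ep) i := by
  have h1 : ∀ i, (fun _ => (1 : GA k G)) (i + 1) - 1 ∈ C.JL L ep := fun i => by simp
  induction i with
  | zero => simp only [Cs]; exact Submodule.zero_mem _
  | succ i ih =>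
    have hy := C.hseq_JL hLK htK ht hte hg hge i
    have hy' := C.hseq_JL hLK htK ht hte hg hge (i + 1)
    rw [Cs]
    have e0 : e + (i + 1) * ep - ep = e + i * ep := by rw [Nat.add_mul]; omega
    rw [e0]
    have e1 : (o t - o (hseq t g (i + 1)) : GA k G) * Cs t g i
        = dx t * Cs t g i - dx (hseq t g (i + 1)) * Cs t g i := by
      simp only [dx]; noncomm_ring
    rw [e1]
    refine Submodule.add_mem _ ?_ (Submodule.sub_mem _ ?_ ?_)
    · have e2 : (1 : GA k G) - o (t * hseq t g i * t⁻¹) = - cj t (dx (hseq t g i)) := by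
        rw [cj, ← dx_conj, dx]; abel
      rw [e2]
      refine Submodule.neg_mem _ ?_
      have := C.V_mem (L := L) (t := t) (ep := ep) (w := fun _ => 1) (n := e + i * ep) (m := i + 1)
        (i := 0) (by omega) (c := cj t (dx (hseq t g i)))
        (C.JL_anti (by omega) (C.JL_cj htK ht hy))
      simpa [Aseq] using this
    · exact C.V_le (by omega) le_rfl (C.V_u htK ht hte h1 ih)
    · refine C.V_le ?_ (by omega) (C.V_left hy' ih)
      rw [Nat.add_mul]; omega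

end Cert

end Pool.Agent.Helper904.GS
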