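import Pool.Agent.Helper904.GS.Step2

set_option autoImplicit false

namespace Pool.Agent.Helper904.GS

open Finset

section

variable {k : Type} [Field k] {G : Type} [Group G]

lemma dx_pow_char (p : ℕ) [Fact p.Prime] [CharP k p] (g : G) :
    (dx (g ^ p) : GA k G) = dx g ^ p := by
  have : CharP (GA k G) p := charP_of_injective_algebraMap (algebraMap k (GA k G)).injective p
  rw [dx, dx, o_pow, sub_pow_char_of_commute p (Commute.one_right _), one_pow]

end

namespace Cert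

variable {k : Type} [Field k] {G : Type} [Group G] {K : Subgroup G} (C : Cert k K)

/-- Data of a step to a subgroup of index `p`. -/
structure SD (p : ℕ) (L : Subgroup G) (j0 : C.ι) : Prop where
  le : L ≤ K
  conj : ∀ l ∈ L, C.g j0 * l * (C.g j0)⁻¹ ∈ L
  powm : C.g j0 ^ p ∈ L
  cov : ∀ h ∈ K, ∃ l ∈ L, ∃ i < p, h = l * C.g j0 ^ i
  nm : ∀ i, 0 < i → i < p → C.g j0 ^ i ∉ L
  gens : ∀ j, j ≠ j0 → C.g j ∈ L

/-- The new index type. -/
abbrev NI (p : ℕ) (j0 : C.ι) : Type := ({j : C.ι // j ≠ j0} × Fin p) ⊕ Unit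

noncomputable instance instDecEqIndex : DecidableEq C.ι := Classical.decEq _

noncomputable instance instFintypeNI (p : ℕ) (j0 : C.ι) : Fintype (C.NI p j0) :=
  inferInstance

/-- The new generators. -/
def ng (p : ℕ) (j0 : C.ι) : C.NI p j0 → G :=
  Sum.elim (fun x => hseq (C.g j0) (C.g x.1.1) (x.2 : ℕ)) (fun _ => C.g j0 ^ p)

/-- The new degrees. -/
def ne (p : ℕ) (j0 : C.ι) : C.NI p j0 → ℕ :=
  Sum.elim (fun x => C.e x.1.1 + (x.2 : ℕ) * C.e j0) (fun _ => p * C.e j0)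

/-- Combinations of the new generators. -/
noncomputable def newG (p : ℕ) (L : Subgroup G) (j0 : C.ι) (n : ℕ) : Submodule k (GA k G) :=
  comb (fun a => dx (C.ng p j0 a)) (fun a => C.JL L (n - C.ne p j0 a))

variable {C} {p : ℕ} {L : Subgroup G} {j0 : C.ι}

lemma dx_pow_J (i : C.ι) (m : ℕ) : (dx (C.g i) : GA k G) ^ m ∈ C.J (m * C.e i) := by
  induction m with
  | zero => simpa using C.one_mem
  | succ m ih =>
    rw [pow_succ, Nat.add_mul, one_mul]
    exact C.J_mul _ _ _ _ ih (C.x_mem i)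

lemma w1 (i : ℕ) : (fun _ => (1 : GA k G)) (i + 1) - 1 ∈ C.JL L (C.e j0) := by simp

lemma SD.hJL (S : C.SD p L j0) {j : C.ι} (hj : j ≠ j0) (i : ℕ) :
    (dx (hseq (C.g j0) (C.g j) i) : GA k G) ∈ C.JL L (C.e j + i * C.e j0) :=
  C.hseq_JL S.le (C.g_mem j0) S.conj (C.x_mem j0) (S.gens j hj) (C.x_mem j) i

lemma SD.w (S : C.SD p L j0) {j : C.ι} (hj : j ≠ j0) (i : ℕ) :
    (fun i => (o (hseq (C.g j0) (C.g j) i) : GA k G)) (i + 1) - 1 ∈ C.JL L (C.e j0) := by
  refine C.JL_anti ?_ (S.hJL hj (i + 1))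
  rw [Nat.add_mul]; omega

lemma SD.wBK (S : C.SD p L j0) {j : C.ι} (hj : j ≠ j0) (i : ℕ) :
    (fun i => (o (hseq (C.g j0) (C.g j) i) : GA k G)) i ∈ BK L :=
  o_mem_BK (hseq_mem S.conj (S.gens j hj) i)

lemma SD.cs (S : C.SD p L j0) {j : C.ι} (hj : j ≠ j0) (i : ℕ) :
    Cs (C.g j0) (C.g j) i ∈ C.V L (C.g j0) (C.e j0) (fun _ => 1) (C.e j + i * C.e j0 - C.e j0) i :=
  C.Cs_mem S.le (C.g_mem j0) S.conj (C.x_mem j0) (S.gens j hj) (C.x_mem j) i

lemma SD.ng_JL [Fact p.Prime] [CharP k p] (S : C.SD p L j0) (a : C.NI p j0) :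
    (dx (C.ng p j0 a) : GA k G) ∈ C.JL L (C.ne p j0 a) := by
  rcases a with ⟨j, i⟩ | _
  · exact S.hJL j.2 i
  · refine ⟨?_, dx_mem_BK S.powm⟩
    change (dx (C.g j0 ^ p) : GA k G) ∈ C.J (p * C.e j0)
    rw [dx_pow_char]
    exact dx_pow_J j0 p

lemma SD.newG_JL [Fact p.Prime] [CharP k p] (S : C.SD p L j0) (n : ℕ) :
    C.newG p L j0 n ≤ C.JL L n := by
  rintro _ ⟨c, hc, rfl⟩
  refine Submodule.sum_mem _ fun a _ => ?_
  exact C.JL_mul (by omega) (hc a) (S.ng_JL a)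

lemma SD.t_mem (S : C.SD p L j0) {m : ℕ} {v : GA k G}
    (hv : v ∈ C.V L (C.g j0) (C.e j0) (fun _ => 1) 0 m) :
    o (C.g j0) * v ∈ C.V L (C.g j0) (C.e j0) (fun _ => 1) 0 (m + 1) := by
  have h := C.V_u (C.g_mem j0) S.conj (C.x_mem j0) w1 hv
  rw [o_eq, add_mul, one_mul]
  exact Submodule.add_mem _ (C.V_le (by omega) (by omega) hv) (C.V_le (by omega) le_rfl h)

lemma SD.o_pow_V (S : C.SD p L j0) (i : ℕ) :
    o (C.g j0 ^ i) ∈ C.V L (C.g j0) (C.e j0) (fun _ => 1) 0 (i + 1) := by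
  induction i with
  | zero =>
    have := C.V_mem (L := L) (t := C.g j0) (ep := C.e j0) (w := fun _ => 1) (n := 0) (m := 1)
      (i := 0) (by omega) (c := 1) (by simpa using C.one_JL)
    simpa [Aseq, o_one] using this
  | succ i ih =>
    rw [pow_succ', o_mul]
    exact S.t_mem ih

lemma SD.dec0 (S : C.SD p L j0) {b : GA k G} (hb : b ∈ C.J 0) :
    b ∈ C.V L (C.g j0) (C.e j0) (fun _ => 1) 0 p := by
  rw [C.J_zero] at hb
  unfold BK at hb
  induction hb using Submodule.span_induction with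
  | mem x h =>
    obtain ⟨g, hg, rfl⟩ := h
    obtain ⟨l, hl, i, hi, rfl⟩ := S.cov g hg
    rw [o_mul]
    have h1 : (o l : GA k G) ∈ C.JL L 0 := ⟨C.o_mem (S.le hl), o_mem_BK hl⟩
    exact C.V_le (by omega) (by omega) (C.V_left h1 (S.o_pow_V i))
  | zero => exact Submodule.zero_mem _
  | add x y _ _ h1 h2 => exact Submodule.add_mem _ h1 h2
  | smul c x _ h => exact Submodule.smul_mem _ _ h

lemma SD.str_aux [Fact p.Prime] [CharP k p] (S : C.SD p L j0) (n : ℕ) (hn : 1 ≤ n)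
    (ih : ∀ m < n, ∀ b ∈ C.J m, b ∈ C.V L (C.g j0) (C.e j0) (fun _ => 1) m p) :
    ∀ b ∈ C.J n, b ∈ C.newG p L j0 n ⊔ C.VP L (C.g j0) (C.e j0) n (p - 1) := by
  classical
  have hp1 : 1 ≤ p := (Fact.out : p.Prime).one_lt.le
  intro b hb
  obtain ⟨c, hc, rfl⟩ := C.gen n hn b hb
  refine Submodule.sum_mem _ fun j _ => ?_
  have hj := ih (n - C.e j) (by have := C.e_pos j; omega) (c j) (hc j)
  by_cases hjj : j = j0
  · subst hjj
    obtain ⟨d, hd, hde⟩ := hj
    rw [hde, Finset.sum_mul]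
    refine Submodule.sum_mem _ fun i _ => ?_
    beta_reduce
    rw [Aseq_one, mul_assoc, ← pow_succ]
    by_cases hi : (i : ℕ) + 1 < p
    · refine Submodule.mem_sup_right (C.VP_mem (by omega) (C.JL_anti ?_ (hd i)))
      rw [Nat.add_mul]; omega
    · have hi2 : (i : ℕ) + 1 = p := by omega
      refine Submodule.mem_sup_left ?_
      rw [hi2, ← dx_pow_char]
      refine single_mem_comb (fun a => dx (C.ng p j a)) (fun a => C.JL L (n - C.ne p j a))
        (Sum.inr ()) (C.JL_anti ?_ (hd i))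
      change n - p * C.e j ≤ n - C.e j - (i : ℕ) * C.e j
      have e3 : p * C.e j = ((i : ℕ) + 1) * C.e j := by rw [hi2]
      rw [Nat.add_mul] at e3
      omega
  · have hj2 := C.V_of_V1 (w := fun i => o (hseq (C.g j0) (C.g j) i)) (C.g_mem j0) S.conj
      (C.x_mem j0) (S.w hjj) hj
    obtain ⟨d, hd, hde⟩ := hj2
    rw [hde, Finset.sum_mul]
    refine Submodule.sum_mem _ fun i _ => ?_
    have e1 : d i * Aseq (C.g j0) (fun i => o (hseq (C.g j0) (C.g j) i)) i * dx (C.g j)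
        = d i * dx (hseq (C.g j0) (C.g j) i) - (d i * Cs (C.g j0) (C.g j) i) * dx (C.g j0) := by
      rw [hseq_id]; noncomm_ring
    rw [e1]
    refine Submodule.sub_mem _ (Submodule.mem_sup_left ?_) (Submodule.mem_sup_right ?_)
    · refine single_mem_comb (fun a => dx (C.ng p j0 a)) (fun a => C.JL L (n - C.ne p j0 a))
        (Sum.inl (⟨j, hjj⟩, i)) (C.JL_anti ?_ (hd i))
      change n - (C.e j + (i : ℕ) * C.e j0) ≤ _
      omega
    · exact C.VP_le (by omega) (by omega) (C.V1_mul_u (C.V_left (hd i) (S.cs hjj i)))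

lemma SD.dec [Fact p.Prime] [CharP k p] (S : C.SD p L j0) (n : ℕ) :
    ∀ b ∈ C.J n, b ∈ C.V L (C.g j0) (C.e j0) (fun _ => 1) n p := by
  have hp1 : 1 ≤ p := (Fact.out : p.Prime).one_lt.le
  induction n using Nat.strong_induction_on with
  | _ n ih =>
    rcases Nat.eq_zero_or_pos n with rfl | hn
    · exact fun b hb => S.dec0 hb
    · intro b hb
      obtain ⟨y, hy, v, hv, rfl⟩ := Submodule.mem_sup.1 (S.str_aux n hn ih b hb)
      refine Submodule.add_mem _ ?_ (C.V_le le_rfl (by omega) (C.VP_V1 hv))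
      have h1 := S.newG_JL n hy
      have := C.V_mem (L := L) (t := C.g j0) (ep := C.e j0) (w := fun _ => 1) (n := n) (m := p)
        (i := 0) (by omega) (c := y) (by simpa using h1)
      simpa [Aseq] using this

lemma SD.str [Fact p.Prime] [CharP k p] (S : C.SD p L j0) (n : ℕ) (hn : 1 ≤ n) :
    ∀ b ∈ C.J n, b ∈ C.newG p L j0 n ⊔ C.VP L (C.g j0) (C.e j0) n (p - 1) :=
  S.str_aux n hn fun m _ => S.dec m

lemma SD.uniq [Fact p.Prime] (S : C.SD p L j0) {y : GA k G} {z : ℕ → GA k G}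
    (hy : y ∈ BK L) (hz : ∀ i < p - 1, z i ∈ BK L)
    (h : y + ∑ i ∈ range (p - 1), z i * dx (C.g j0) ^ (i + 1) = 0) :
    y = 0 ∧ ∀ i < p - 1, z i = 0 := by
  have hp1 : 1 ≤ p := (Fact.out : p.Prime).one_lt.le
  let c : ℕ → GA k G := fun i => Nat.casesOn i y z
  have h1 : ∑ i ∈ range p, c i * Aseq (C.g j0) (fun _ => 1) i = 0 := by
    have e : range p = range ((p - 1) + 1) := by congr 1; omega
    rw [e, Finset.sum_range_succ']
    simp only [Aseq_one]
    rw [← h]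
    simp only [c, pow_zero, mul_one]
    rw [add_comm]
    rfl
  have h2 := Aseq_indep S.conj S.nm (w := fun _ => (1 : GA k G)) (fun _ => one_mem_BK L) p le_rfl c
    (by
      intro i hi
      rcases i with _ | i
      · exact hy
      · exact hz i (by omega)) h1
  exact ⟨h2 0 (by omega), fun i hi => h2 (i + 1) (by omega)⟩

lemma SD.gen [Fact p.Prime] [CharP k p] (S : C.SD p L j0) (n : ℕ) (hn : 1 ≤ n) {x : GA k G}
    (hx : x ∈ C.JL L n) : x ∈ C.newG p L j0 n := by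
  obtain ⟨y, hy, v, hv, he⟩ := Submodule.mem_sup.1 (S.str n hn x hx.1)
  unfold VP at hv
  rw [mem_comb_fin (fun i => dx (C.g j0) ^ (i + 1)) (fun i => C.JL L (n - (i + 1) * C.e j0))] at hv
  obtain ⟨c, hc, rfl⟩ := hv
  have h1 := (S.newG_JL n hy).2
  have h2 := S.uniq (y := y - x) (z := c) (Submodule.sub_mem _ h1 hx.2) (fun i hi => (hc i hi).2)
    (by rw [← he]; abel)
  rw [sub_eq_zero] at h2
  rw [← h2.1]; exact hy

end Cert

end Pool.Agent.Helper904.GS
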