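import Pool.Agent.Helper904.GS.Step3

set_option autoImplicit false

namespace Pool.Agent.Helper904.GS

open Finset

namespace Cert

variable {k : Type} [Field k] {G : Type} [Group G] {K : Subgroup G} {C : Cert k K}
  {p : ℕ} {L : Subgroup G} {j0 : C.ι}

lemma sum_NI {M : Type} [AddCommMonoid M] (f : C.NI p j0 → M) (F : {j : C.ι // j ≠ j0} → ℕ → M)
    (h : ∀ j (l : Fin p), f (Sum.inl (j, l)) = F j l) :
    ∑ a, f a = ∑ j : {j : C.ι // j ≠ j0}, ∑ l ∈ range p, F j l + f (Sum.inr ()) := by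
  have h1 : ∑ a, f a = ∑ a : {j : C.ι // j ≠ j0} × Fin p, f (Sum.inl a)
      + ∑ a : Unit, f (Sum.inr a) := Fintype.sum_sum_type f
  have h2 : ∑ a : {j : C.ι // j ≠ j0} × Fin p, f (Sum.inl a)
      = ∑ j : {j : C.ι // j ≠ j0}, ∑ l : Fin p, f (Sum.inl (j, l)) :=
    Fintype.sum_prod_type _
  rw [h1, h2]
  congr 1
  · refine Finset.sum_congr rfl fun j _ => ?_
    rw [Finset.sum_range]
    exact Finset.sum_congr rfl fun l _ => h j l
  · simp

/-- The basic identity. -/
lemma ident (c : {j : C.ι // j ≠ j0} → ℕ → GA k G) (z : ℕ → GA k G) :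
    (∑ j : {j : C.ι // j ≠ j0}, (∑ l ∈ range p, c j l *
      Aseq (C.g j0) (fun i => o (hseq (C.g j0) (C.g j.1) i)) l) * dx (C.g j.1))
    + (∑ j : {j : C.ι // j ≠ j0}, ∑ l ∈ range p, c j l * Cs (C.g j0) (C.g j.1) l
      + ∑ l ∈ range p, z l * dx (C.g j0) ^ l) * dx (C.g j0)
    = ∑ j : {j : C.ι // j ≠ j0}, ∑ l ∈ range p, c j l * dx (hseq (C.g j0) (C.g j.1) l)
      + ∑ l ∈ range p, z l * dx (C.g j0) ^ (l + 1) := by
  rw [add_mul, ← add_assoc]
  congr 1
  · rw [Finset.sum_mul, ← Finset.sum_add_distrib]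
    refine Finset.sum_congr rfl fun j _ => ?_
    rw [Finset.sum_mul, Finset.sum_mul, ← Finset.sum_add_distrib]
    refine Finset.sum_congr rfl fun l _ => ?_
    rw [hseq_id]; noncomm_ring
  · rw [Finset.sum_mul]
    refine Finset.sum_congr rfl fun l _ => ?_
    rw [pow_succ]; noncomm_ring

lemma SD.core [Fact p.Prime] [CharP k p] (S : C.SD p L j0)
    (c : {j : C.ι // j ≠ j0} → ℕ → GA k G) (z : ℕ → GA k G)
    (hc : ∀ j, ∀ l < p, c j l ∈ BK L) (hz : ∀ l < p, z l ∈ BK L)
    (h : ∑ j : {j : C.ι // j ≠ j0}, ∑ l ∈ range p, c j l * dx (hseq (C.g j0) (C.g j.1) l)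
      + ∑ l ∈ range p, z l * dx (C.g j0) ^ (l + 1) = 0) :
    ∑ j : {j : C.ι // j ≠ j0}, ∑ l ∈ range p, c j l * dx (hseq (C.g j0) (C.g j.1) l)
      + z (p - 1) * dx (C.g j0 ^ p) = 0 ∧ ∀ l < p - 1, z l = 0 := by
  have hp1 : 1 ≤ p := (Fact.out : p.Prime).one_lt.le
  have e : range p = range ((p - 1) + 1) := by congr 1; omega
  have h2 : ∑ l ∈ range p, z l * dx (C.g j0) ^ (l + 1)
      = ∑ l ∈ range (p - 1), z l * dx (C.g j0) ^ (l + 1) + z (p - 1) * dx (C.g j0 ^ p) := by
    rw [e, Finset.sum_range_succ, dx_pow_char]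
    congr 3
    omega
  rw [h2] at h
  refine S.uniq (z := z) (Submodule.add_mem _ ?_ ?_) (fun l hl => hz l (by omega)) ?_
  · refine Submodule.sum_mem _ fun j _ => Submodule.sum_mem _ fun l hl => ?_
    rw [Finset.mem_range] at hl
    exact mul_mem_BK (hc j l hl) (dx_mem_BK (hseq_mem S.conj (S.gens _ j.2) l))
  · exact mul_mem_BK (hz _ (by omega)) (dx_mem_BK S.powm)
  · rw [← h]; abel

lemma geom (t : ℝ) (p e : ℕ) :
    (∑ i ∈ range p, t ^ (i * e)) * t ^ e + 1 = ∑ i ∈ range p, t ^ (i * e) + t ^ (p * e) := by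
  have h1 := Finset.sum_range_succ (fun i => t ^ (i * e)) p
  have h2 := Finset.sum_range_succ' (fun i => t ^ (i * e)) p
  rw [h1] at h2
  rw [h2, Finset.sum_mul]
  simp only [zero_mul, pow_zero]
  congr 1
  refine Finset.sum_congr rfl fun i _ => ?_
  rw [← pow_add]; congr 1; ring

theorem SD.step [Fact p.Prime] [CharP k p] (S : C.SD p L j0) :
    ∃ C' : Cert k L, (∀ n, C'.J n = C.J n ⊓ BK L) ∧
      ∀ t : ℝ, C'.D t = (∑ i ∈ range p, t ^ (i * C.e j0)) * C.D t := by
  have hp1 : 1 ≤ p := (Fact.out : p.Prime).one_lt.le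
  -- coefficients of the new relations
  have hR0 : ∀ (a : C.κ) (i : Fin p) (j : {j : C.ι // j ≠ j0}), ∃ R : ℕ → GA k G,
      (∀ l < p, R l ∈ C.JL L ((C.d a + i * C.e j0 - C.e j.1) - l * C.e j0)) ∧
      dx (C.g j0) ^ (i : ℕ) * C.r a j.1
        = ∑ l ∈ range p, R l * Aseq (C.g j0) (fun i => o (hseq (C.g j0) (C.g j.1) i)) l := by
    intro a i j
    have h1 : dx (C.g j0) ^ (i : ℕ) * C.r a j.1 ∈ C.J (C.d a + i * C.e j0 - C.e j.1) :=
      C.J_mul' (by omega) (dx_pow_J j0 i) (C.r_mem a j.1)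
    have h2 := C.V_of_V1 (w := fun i => o (hseq (C.g j0) (C.g j.1) i)) (C.g_mem j0) S.conj
      (C.x_mem j0) (S.w j.2) (S.dec _ _ h1)
    unfold V at h2
    rw [mem_comb_fin (fun l => Aseq (C.g j0) (fun i => o (hseq (C.g j0) (C.g j.1) i)) l)
      (fun l => C.JL L ((C.d a + i * C.e j0 - C.e j.1) - l * C.e j0))] at h2
    exact h2
  choose R hR hRe using hR0
  have hZ0 : ∀ (a : C.κ) (i : Fin p), ∃ z : ℕ → GA k G,
      (∀ l < p, z l ∈ C.JL L ((C.d a + i * C.e j0 - C.e j0) - l * C.e j0)) ∧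
      dx (C.g j0) ^ (i : ℕ) * C.r a j0
        = ∑ j : {j : C.ι // j ≠ j0}, ∑ l ∈ range p, R a i j l * Cs (C.g j0) (C.g j.1) l
          + ∑ l ∈ range p, z l * dx (C.g j0) ^ l := by
    intro a i
    have h1 : dx (C.g j0) ^ (i : ℕ) * C.r a j0 ∈ C.J (C.d a + i * C.e j0 - C.e j0) :=
      C.J_mul' (by omega) (dx_pow_J j0 i) (C.r_mem a j0)
    have h2 : ∑ j : {j : C.ι // j ≠ j0}, ∑ l ∈ range p, R a i j l * Cs (C.g j0) (C.g j.1) l
        ∈ C.V L (C.g j0) (C.e j0) (fun _ => 1) (C.d a + i * C.e j0 - C.e j0) p := by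
      refine Submodule.sum_mem _ fun j _ => Submodule.sum_mem _ fun l hl => ?_
      rw [Finset.mem_range] at hl
      exact C.V_le (by omega) (by omega) (C.V_left (hR a i j l hl) (S.cs j.2 l))
    have h3 := Submodule.sub_mem _ (S.dec _ _ h1) h2
    unfold V at h3
    rw [mem_comb_fin (fun l => Aseq (C.g j0) (fun _ => 1) l)
      (fun l => C.JL L ((C.d a + i * C.e j0 - C.e j0) - l * C.e j0))] at h3
    obtain ⟨z, hz, hze⟩ := h3
    refine ⟨z, hz, ?_⟩
    rw [sub_eq_iff_eq_add] at hze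
    rw [hze, add_comm]
    congr 1
    exact Finset.sum_congr rfl fun l _ => by rw [Aseq_one]
  choose z hz hze using hZ0
  have hsyz : ∀ (a : C.κ) (i : Fin p),
      ∑ j : {j : C.ι // j ≠ j0}, ∑ l ∈ range p, R a i j l * dx (hseq (C.g j0) (C.g j.1) l)
        + z a i (p - 1) * dx (C.g j0 ^ p) = 0 ∧ ∀ l < p - 1, z a i l = 0 := by
    intro a i
    refine S.core (R a i) (z a i) (fun j l hl => (hR a i j l hl).2) (fun l hl => (hz a i l hl).2) ?_
    rw [← ident, ← hze]
    have h1 := C.r_syz a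
    rw [Fintype.sum_eq_add_sum_subtype_ne _ j0] at h1
    have h2 : dx (C.g j0) ^ (i : ℕ) * (C.r a j0 * dx (C.g j0) +
      ∑ j : {j : C.ι // j ≠ j0}, C.r a j.1 * dx (C.g j.1)) = 0 := by rw [h1, mul_zero]
    rw [← h2, mul_add, add_comm, Finset.mul_sum]
    congr 1
    · noncomm_ring
    · refine Finset.sum_congr rfl fun j _ => ?_
      rw [← hRe]; noncomm_ring
  refine ⟨{
    ι := C.NI p j0
    κ := C.κ × Fin p
    fι := inferInstance
    fκ := inferInstance
    g := C.ng p j0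
    e := C.ne p j0
    r := fun a => Sum.elim (fun x => R a.1 a.2 x.1 x.2) (fun _ => z a.1 a.2 (p - 1))
    d := fun a => C.d a.1 + a.2 * C.e j0
    J := fun n => C.J n ⊓ BK L
    g_mem := ?_
    e_pos := ?_
    J_zero := ?_
    J_anti := fun a b h x hx => ⟨C.J_anti h hx.1, hx.2⟩
    J_mul := fun a b x y hx hy => ⟨C.J_mul a b x y hx.1 hy.1, mul_mem_BK hx.2 hy.2⟩
    x_mem := S.ng_JL
    one := fun h hh => ⟨C.one h (S.le hh), dx_mem_BK hh⟩
    gen := fun n hn x hx => S.gen n hn hx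
    r_mem := ?_
    r_syz := ?_
    r_gen := ?_ }, fun n => rfl, ?_⟩
  · rintro (⟨j, i⟩ | _)
    · exact hseq_mem S.conj (S.gens j.1 j.2) i
    · exact S.powm
  · rintro (⟨j, i⟩ | _)
    · have := C.e_pos j.1
      change 1 ≤ C.e j.1 + (i : ℕ) * C.e j0
      omega
    · exact Nat.mul_pos hp1 (C.e_pos j0)
  · rw [C.J_zero]
    exact inf_eq_right.2 (BK_mono S.le)
  · rintro ⟨a, i⟩ (⟨j, l⟩ | _)
    · have h1 := hR a i j l l.2
      refine C.JL_anti ?_ h1
      change C.d a + (i : ℕ) * C.e j0 - (C.e j.1 + (l : ℕ) * C.e j0) ≤ _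
      omega
    · have h1 := hz a i (p - 1) (by omega)
      refine C.JL_anti ?_ h1
      change C.d a + (i : ℕ) * C.e j0 - p * C.e j0 ≤ _
      have h2 : p * C.e j0 = (p - 1) * C.e j0 + C.e j0 := by
        rw [← Nat.succ_mul]; congr 1; omega
      omega
  · rintro ⟨a, i⟩
    rw [sum_NI _ (fun j l => R a i j l * dx (hseq (C.g j0) (C.g j.1) l)) (fun j l => rfl)]
    exact (hsyz a i).1
  · intro s hs h
    have hs' : ∀ a, s a ∈ BK L := fun a => (hs a).2
    let c : {j : C.ι // j ≠ j0} → ℕ → GA k G := fun j l =>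
      if h : l < p then s (Sum.inl (j, ⟨l, h⟩)) else 0
    have hc : ∀ j, ∀ l < p, c j l ∈ BK L := by
      intro j l hl
      simp only [c, dif_pos hl]
      exact hs' _
    let zp : ℕ → GA k G := fun l => if l = p - 1 then s (Sum.inr ()) else 0
    have hzp : ∀ l < p, zp l ∈ BK L := by
      intro l _
      simp only [zp]
      split_ifs
      · exact hs' _
      · exact Submodule.zero_mem _
    let s0 : C.ι → GA k G := fun j => if hj : j = j0 then
        ∑ j : {j : C.ι // j ≠ j0}, ∑ l ∈ range p, c j l * Cs (C.g j0) (C.g j.1) l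
          + ∑ l ∈ range p, zp l * dx (C.g j0) ^ l
      else ∑ l ∈ range p, c ⟨j, hj⟩ l * Aseq (C.g j0) (fun i => o (hseq (C.g j0) (C.g j) i)) l
    have hs00 : s0 j0 = ∑ j : {j : C.ι // j ≠ j0}, ∑ l ∈ range p, c j l * Cs (C.g j0) (C.g j.1) l
          + ∑ l ∈ range p, zp l * dx (C.g j0) ^ l := by simp [s0]
    have hs01 : ∀ j : {j : C.ι // j ≠ j0}, s0 j.1 = ∑ l ∈ range p, c j l *
        Aseq (C.g j0) (fun i => o (hseq (C.g j0) (C.g j.1) i)) l := by
      intro j
      simp only [s0, dif_neg j.2]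
    have hLK : ∀ x ∈ BK L, x ∈ C.J 0 := fun x hx => by rw [C.J_zero]; exact BK_mono S.le hx
    have hs0m : ∀ j, s0 j ∈ C.J 0 := by
      intro j
      by_cases hj : j = j0
      · rw [hj, hs00]
        refine Submodule.add_mem _ (Submodule.sum_mem _ fun j _ => Submodule.sum_mem _ fun l hl => ?_)
          (Submodule.sum_mem _ fun l hl => ?_)
        · rw [Finset.mem_range] at hl
          exact C.mul_left_mem (hLK _ (hc j l hl)) (C.J_sub0 (C.V_J (C.x_mem j0) w1 (S.cs j.2 l)))
        · rw [Finset.mem_range] at hl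
          exact C.mul_left_mem (hLK _ (hzp l hl)) (C.J_sub0 (dx_pow_J j0 l))
      · have := hs01 ⟨j, hj⟩
        simp only at this
        rw [this]
        refine Submodule.sum_mem _ fun l hl => ?_
        rw [Finset.mem_range] at hl
        refine C.mul_left_mem (hLK _ (hc _ l hl)) (C.J_sub0 (C.V_J (L := L) (ep := C.e j0)
          (n := 0) (m := l + 1)
          (w := fun i => o (hseq (C.g j0) (C.g j) i)) (C.x_mem j0) (S.w hj) ?_))
        have := C.V_mem (L := L) (t := C.g j0) (ep := C.e j0) (n := 0) (m := l + 1) (i := l)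
          (w := fun i => o (hseq (C.g j0) (C.g j) i)) (by omega) (c := 1)
          (by simpa using C.one_JL)
        simpa using this
    have hs0syz : ∑ j, s0 j * dx (C.g j) = 0 := by
      rw [Fintype.sum_eq_add_sum_subtype_ne _ j0, add_comm, hs00]
      simp only [hs01]
      rw [ident]
      rw [sum_NI _ (fun j l => c j l * dx (hseq (C.g j0) (C.g j.1) l)) (fun j l => ?_)] at h
      · rw [← h]
        congr 1
        rw [Finset.sum_eq_single (p - 1)]
        · simp only [zp, if_true]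
          change _ = s (Sum.inr ()) * dx (C.g j0 ^ p)
          rw [dx_pow_char]
          congr 2
          omega
        · intro l _ hl
          simp [zp, hl]
        · intro hl
          rw [Finset.mem_range] at hl
          omega
      · simp only [c, dif_pos l.2]
        rfl
    obtain ⟨w, hw, hwe⟩ := C.r_gen s0 hs0m hs0syz
    have hW0 : ∀ a : C.κ, ∃ W : ℕ → GA k G, (∀ i < p, W i ∈ BK L) ∧
        w a = ∑ i ∈ range p, W i * dx (C.g j0) ^ i := by
      intro a
      have h1 := S.dec 0 (w a) (hw a)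
      unfold V at h1
      rw [mem_comb_fin (fun l => Aseq (C.g j0) (fun _ => 1) l)
        (fun l => C.JL L (0 - l * C.e j0))] at h1
      obtain ⟨W, hW, hWe⟩ := h1
      refine ⟨W, fun i hi => (hW i hi).2, ?_⟩
      rw [hWe]
      exact Finset.sum_congr rfl fun l _ => by rw [Aseq_one]
    choose W hW hWe using hW0
    have hexp : ∀ j : C.ι, s0 j = ∑ x : C.κ × Fin p, W x.1 x.2 *
        (dx (C.g j0) ^ (x.2 : ℕ) * C.r x.1 j) := by
      intro j
      rw [hwe j, Fintype.sum_prod_type]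
      refine Finset.sum_congr rfl fun a _ => ?_
      rw [hWe a, Finset.sum_mul, Finset.sum_range]
      exact Finset.sum_congr rfl fun i _ => by rw [mul_assoc]
    have part1 : ∀ j : {j : C.ι // j ≠ j0}, ∀ l < p,
        c j l = ∑ x : C.κ × Fin p, W x.1 x.2 * R x.1 x.2 j l := by
      intro j
      have h1 := Aseq_indep S.conj S.nm (w := fun i => o (hseq (C.g j0) (C.g j.1) i))
        (S.wBK j.2) p le_rfl
        (fun l => c j l - ∑ x : C.κ × Fin p, W x.1 x.2 * R x.1 x.2 j l)
        (fun l hl => Submodule.sub_mem _ (hc j l hl) (Submodule.sum_mem _ fun x _ =>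
          mul_mem_BK (hW x.1 x.2 x.2.2) (hR x.1 x.2 j l hl).2))
        (by
          simp only [sub_mul, Finset.sum_sub_distrib]
          rw [← hs01 j, hexp j.1, sub_eq_zero]
          simp only [Finset.sum_mul]
          rw [Finset.sum_comm]
          refine Finset.sum_congr rfl fun x _ => ?_
          rw [hRe, Finset.mul_sum]
          exact Finset.sum_congr rfl fun l _ => by rw [mul_assoc])
      intro l hl
      exact sub_eq_zero.1 (h1 l hl)
    have part2 : ∀ l < p, zp l = ∑ x : C.κ × Fin p, W x.1 x.2 * z x.1 x.2 l := by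
      have h1 := Aseq_indep S.conj S.nm (w := fun _ => (1 : GA k G))
        (fun _ => one_mem_BK L) p le_rfl
        (fun l => zp l - ∑ x : C.κ × Fin p, W x.1 x.2 * z x.1 x.2 l)
        (fun l hl => Submodule.sub_mem _ (hzp l hl) (Submodule.sum_mem _ fun x _ =>
          mul_mem_BK (hW x.1 x.2 x.2.2) (hz x.1 x.2 l hl).2))
        (by
          simp only [sub_mul, Finset.sum_sub_distrib, Aseq_one]
          have e1 : ∑ l ∈ range p, zp l * dx (C.g j0) ^ l = s0 j0 -
              ∑ j : {j : C.ι // j ≠ j0}, ∑ l ∈ range p, c j l * Cs (C.g j0) (C.g j.1) l := by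
            rw [hs00]; abel
          rw [e1, hexp j0]
          have e2 : ∑ x : C.κ × Fin p, W x.1 x.2 * (dx (C.g j0) ^ (x.2 : ℕ) * C.r x.1 j0)
              = ∑ x : C.κ × Fin p, W x.1 x.2 * (∑ j : {j : C.ι // j ≠ j0}, ∑ l ∈ range p,
                R x.1 x.2 j l * Cs (C.g j0) (C.g j.1) l)
                + ∑ x : C.κ × Fin p, W x.1 x.2 * ∑ l ∈ range p, z x.1 x.2 l * dx (C.g j0) ^ l := by
            rw [← Finset.sum_add_distrib]
            exact Finset.sum_congr rfl fun x _ => by rw [hze, mul_add]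
          have e3 : ∑ j : {j : C.ι // j ≠ j0}, ∑ l ∈ range p, c j l * Cs (C.g j0) (C.g j.1) l
              = ∑ x : C.κ × Fin p, W x.1 x.2 * (∑ j : {j : C.ι // j ≠ j0}, ∑ l ∈ range p,
                R x.1 x.2 j l * Cs (C.g j0) (C.g j.1) l) := by
            have : ∀ j : {j : C.ι // j ≠ j0}, ∀ l ∈ range p, c j l * Cs (C.g j0) (C.g j.1) l
                = ∑ x : C.κ × Fin p, W x.1 x.2 * (R x.1 x.2 j l * Cs (C.g j0) (C.g j.1) l) := by
              intro j l hl
              rw [Finset.mem_range] at hl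
              rw [part1 j l hl, Finset.sum_mul]
              exact Finset.sum_congr rfl fun x _ => by rw [mul_assoc]
            rw [Finset.sum_congr rfl fun j _ => Finset.sum_congr rfl (this j)]
            simp only [Finset.mul_sum]
            rw [Finset.sum_congr rfl fun j _ => Finset.sum_comm]
            exact Finset.sum_comm
          have e4 : ∑ l ∈ range p, (∑ x : C.κ × Fin p, W x.1 x.2 * z x.1 x.2 l) * dx (C.g j0) ^ l
              = ∑ x : C.κ × Fin p, W x.1 x.2 * ∑ l ∈ range p, z x.1 x.2 l * dx (C.g j0) ^ l := by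
            simp only [Finset.mul_sum, Finset.sum_mul]
            rw [Finset.sum_comm]
            exact Finset.sum_congr rfl fun x _ => Finset.sum_congr rfl fun l _ => by
              rw [mul_assoc]
          rw [e2, e3, e4]; abel)
      intro l hl
      exact sub_eq_zero.1 (h1 l hl)
    refine ⟨fun x => W x.1 x.2, fun x => ?_, ?_⟩
    · exact ⟨hLK _ (hW x.1 x.2 x.2.2), hW x.1 x.2 x.2.2⟩
    · rintro (⟨j, l⟩ | _)
      · have h1 := part1 j l l.2
        simp only [c, dif_pos l.2] at h1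
        exact h1
      · have h1 := part2 (p - 1) (by omega)
        simp only [zp, if_true] at h1
        exact h1
  · intro t
    have h1 : ∑ a : C.NI p j0, t ^ C.ne p j0 a = (∑ i ∈ range p, t ^ (i * C.e j0)) *
        (∑ j : {j : C.ι // j ≠ j0}, t ^ C.e j.1) + t ^ (p * C.e j0) := by
      rw [sum_NI _ (fun j l => t ^ (C.e j.1 + l * C.e j0)) (fun j l => rfl)]
      congr 1
      rw [Finset.mul_sum]
      refine Finset.sum_congr rfl fun j _ => ?_
      rw [Finset.sum_mul]
      exact Finset.sum_congr rfl fun l _ => by rw [pow_add, mul_comm]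
    have h2 : ∑ x : C.κ × Fin p, t ^ (C.d x.1 + (x.2 : ℕ) * C.e j0)
        = (∑ i ∈ range p, t ^ (i * C.e j0)) * ∑ a, t ^ C.d a := by
      rw [Fintype.sum_prod_type, Finset.mul_sum]
      refine Finset.sum_congr rfl fun a _ => ?_
      rw [Finset.sum_range, Finset.sum_mul]
      exact Finset.sum_congr rfl fun l _ => by rw [pow_add, mul_comm]
    have h3 := geom t p (C.e j0)
    unfold D W WR
    change ∑ a : C.NI p j0, t ^ C.ne p j0 a - 1
      - ∑ x : C.κ × Fin p, t ^ (C.d x.1 + (x.2 : ℕ) * C.e j0) = _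
    rw [h1, h2, Fintype.sum_eq_add_sum_subtype_ne (fun i => t ^ C.e i) j0]
    linear_combination -h3

end Cert

end Pool.Agent.Helper904.GS
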