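import Pool.Agent.Helper904.GS.YStep

set_option autoImplicit false

namespace Pool.Agent.Helper904.GS

open Finset

lemma idx_facts {G : Type} [Group G] {p : ℕ} [Fact p.Prime] {K L : Subgroup G} (hLK : L ≤ K)
    (hn : (L.subgroupOf K).Normal) (hi : (L.subgroupOf K).index = p) {τ : G} (hτ : τ ∈ K)
    (hτL : τ ∉ L) :
    (∀ h ∈ K, ∃ l ∈ L, ∃ i < p, h = l * τ ^ i) ∧ (∀ i, 0 < i → i < p → τ ^ i ∉ L) ∧
      τ ^ p ∈ L ∧ ∀ l ∈ L, τ * l * τ⁻¹ ∈ L := by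
  classical
  have hp : p.Prime := Fact.out
  have hcard : Nat.card (K ⧸ L.subgroupOf K) = p := hi
  let q : K →* K ⧸ L.subgroupOf K := QuotientGroup.mk' _
  have h1 : q ⟨τ, hτ⟩ ≠ 1 := by
    intro h1
    rw [QuotientGroup.mk'_apply, QuotientGroup.eq_one_iff, Subgroup.mem_subgroupOf] at h1
    exact hτL h1
  have hfin : Finite (K ⧸ L.subgroupOf K) := Nat.finite_of_card_ne_zero (by
    rw [hcard]; exact hp.ne_zero)
  have hord : orderOf (q ⟨τ, hτ⟩) = p := orderOf_eq_prime (by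
    rw [← hcard]; exact pow_card_eq_one') h1
  refine ⟨?_, ?_, ?_, ?_⟩
  · intro h hh
    have h2 : q ⟨h, hh⟩ ∈ Subgroup.zpowers (q ⟨τ, hτ⟩) := mem_zpowers_of_prime_card hcard h1
    rw [← mem_powers_iff_mem_zpowers, mem_powers_iff_mem_range_orderOf, hord] at h2
    simp only [Finset.mem_image, Finset.mem_range] at h2
    obtain ⟨i, hi, hie⟩ := h2
    refine ⟨h * (τ ^ i)⁻¹, ?_, i, hi, by group⟩
    have h3 : q (⟨h, hh⟩ * (⟨τ, hτ⟩ ^ i)⁻¹) = 1 := by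
      rw [map_mul, map_inv, map_pow, hie, mul_inv_cancel]
    rw [QuotientGroup.mk'_apply, QuotientGroup.eq_one_iff, Subgroup.mem_subgroupOf] at h3
    exact h3
  · intro i h0 hip hmem
    have h2 : q ⟨τ, hτ⟩ ^ i = 1 := by
      rw [← map_pow, QuotientGroup.mk'_apply, QuotientGroup.eq_one_iff, Subgroup.mem_subgroupOf]
      exact hmem
    have h3 := orderOf_dvd_of_pow_eq_one h2
    rw [hord] at h3
    exact absurd (Nat.le_of_dvd h0 h3) (by omega)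
  · have h2 : q ⟨τ, hτ⟩ ^ p = 1 := by
      rw [← hcard]; exact pow_card_eq_one'
    rw [← map_pow, QuotientGroup.mk'_apply, QuotientGroup.eq_one_iff,
      Subgroup.mem_subgroupOf] at h2
    exact h2
  · intro l hl
    exact hn.conj_mem ⟨l, hLK hl⟩ (Subgroup.mem_subgroupOf.2 hl) ⟨τ, hτ⟩

variable {k : Type} [Field k] {G : Type} [Group G] {K : Subgroup G}

/-- A weighted finite generating family of `Γ ⊓ K`. -/
def YF (C : Cert k K) (Γ : Subgroup G) (t δ : ℝ) : Prop :=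
  ∃ (β : Type) (_ : Fintype β) (y : β → G) (v : β → ℕ),
    (∀ b, 1 ≤ v b) ∧ (∀ b, dx (y b) ∈ C.J (v b)) ∧
    Subgroup.closure (Set.range y) = Γ ⊓ K ∧ ∑ b, t ^ v b ≤ 1 + δ

lemma YF.mono {C : Cert k K} {Γ : Subgroup G} {t δ δ' : ℝ} (h : δ ≤ δ') (Y : YF C Γ t δ) :
    YF C Γ t δ' := by
  obtain ⟨β, i, y, v, h1, h2, h3, h4⟩ := Y
  exact ⟨β, i, y, v, h1, h2, h3, h4.trans (by linarith)⟩

/-- A step which does not touch `Γ`. -/
lemma YF.untouched {C : Cert k K} {L : Subgroup G} (C' : Cert k L)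
    (hJ : ∀ n, C'.J n = C.J n ⊓ BK L) (hLK : L ≤ K) {Γ : Subgroup G} {t δ : ℝ}
    (hΓ : Γ ⊓ K ≤ L) (Y : YF C Γ t δ) : YF C' Γ t δ := by
  obtain ⟨β, i, y, v, h1, h2, h3, h4⟩ := Y
  refine ⟨β, i, y, v, h1, fun b => ?_, ?_, h4⟩
  · rw [hJ]
    refine ⟨h2 b, dx_mem_BK (hΓ ?_)⟩
    rw [← h3]; exact Subgroup.subset_closure ⟨b, rfl⟩
  · rw [h3]
    exact le_antisymm (le_inf inf_le_left hΓ) (inf_le_inf_left _ hLK)

lemma pow_mem_J (C : Cert k K) {e : ℕ} {x : GA k G} (hx : x ∈ C.J e) (m : ℕ) :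
    x ^ m ∈ C.J (m * e) := by
  induction m with
  | zero => simpa using C.one_mem
  | succ m ih =>
    rw [pow_succ, Nat.add_mul, one_mul]
    exact C.J_mul _ _ _ _ ih hx

open Cert in
/-- The behaviour of the family in a step of index `p`. -/
lemma YF.step {p : ℕ} [Fact p.Prime] [CharP k p] {C : Cert k K} {L : Subgroup G} (C' : Cert k L)
    (hJ : ∀ n, C'.J n = C.J n ⊓ BK L) (hLK : L ≤ K)
    (hn : (L.subgroupOf K).Normal) (hi : (L.subgroupOf K).index = p) {e : ℕ} (he1 : 1 ≤ e)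
    (hlev : ∀ h ∈ K, dx h ∈ C.J e) (he : ∀ h ∈ K, dx h ∈ C.J (e + 1) → h ∈ L)
    {Γ : Subgroup G} {t δ : ℝ} (t0 : 0 < t) (t1 : t ≤ 1) (hδ : 0 ≤ δ) (Y : YF C Γ t δ) :
    YF C' Γ t ((∑ i ∈ range p, t ^ (i * e)) * δ) := by
  classical
  have hp1 : 1 ≤ p := (Fact.out : p.Prime).one_lt.le
  set S : ℝ := ∑ i ∈ range p, t ^ (i * e) with hS
  have hS1 : 1 ≤ S := by
    rw [hS]
    have : (t : ℝ) ^ (0 * e) ≤ ∑ i ∈ range p, t ^ (i * e) :=
      Finset.single_le_sum (f := fun i => t ^ (i * e)) (fun i _ => by positivity)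
        (Finset.mem_range.2 hp1)
    simpa using this
  by_cases hΓ : Γ ⊓ K ≤ L
  · exact (YF.untouched C' hJ hLK hΓ Y).mono (by nlinarith)
  obtain ⟨β, hβ, y, v, h1, h2, h3, h4⟩ := Y
  have hyK : ∀ b, y b ∈ Γ ⊓ K := fun b => by
    rw [← h3]; exact Subgroup.subset_closure ⟨b, rfl⟩
  obtain ⟨b1, hb1⟩ : ∃ b, y b ∉ L := by
    by_contra hcon
    push Not at hcon
    refine hΓ ?_
    rw [← h3, Subgroup.closure_le]
    rintro _ ⟨b, rfl⟩
    exact hcon b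
  obtain ⟨hcov, hnm, hpow, hconj⟩ := idx_facts hLK hn hi (hyK b1).2 hb1
  have hdeg : ∀ b, y b ∉ L → v b ≤ e := by
    intro b hb
    by_contra hlt
    exact hb (he _ (hyK b).2 (C.J_le (by omega) (h2 b)))
  have hl : ∀ b : {b // b ≠ b1}, ∃ l ∈ L, l ∈ Γ ∧ dx l ∈ C.J (v b.1) ∧
      ∃ i : ℕ, y b.1 = l * y b1 ^ i := by
    intro b
    by_cases hb : y b.1 ∈ L
    · exact ⟨y b.1, hb, (hyK b.1).1, h2 b.1, 0, by simp⟩
    · obtain ⟨l, hl, i, hip, hli⟩ := hcov _ (hyK b.1).2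
      have e1 : l = y b.1 * (y b1 ^ i)⁻¹ := by rw [hli]; group
      refine ⟨l, hl, ?_, ?_, i, hli⟩
      · rw [e1]
        exact Γ.mul_mem (hyK b.1).1 (Γ.inv_mem (Γ.pow_mem (hyK b1).1 i))
      · rw [e1, dx_mul]
        refine Submodule.add_mem _ (h2 b.1) (C.mul_left_mem (C.o_mem (hyK b.1).2)
          (C.J_le (hdeg b.1 hb) (hlev _ (K.inv_mem (K.pow_mem (hyK b1).2 i)))))
  choose l hlL hlΓ hlJ hli using hl
  have hclos : Subgroup.closure ({y b1} ∪ Set.range l) = Γ ⊓ K := by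
    apply le_antisymm
    · rw [Subgroup.closure_le]
      rintro x (rfl | ⟨b, rfl⟩)
      · exact hyK b1
      · exact ⟨hlΓ b, hLK (hlL b)⟩
    · rw [← h3, Subgroup.closure_le]
      rintro _ ⟨b, rfl⟩
      by_cases hb : b = b1
      · rw [hb]; exact Subgroup.subset_closure (Or.inl rfl)
      · obtain ⟨i, hi⟩ := hli ⟨b, hb⟩
        simp only at hi
        change y b ∈ Subgroup.closure ({y b1} ∪ Set.range l)
        rw [hi]
        have hm1 : y b1 ∈ Subgroup.closure ({y b1} ∪ Set.range l) :=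
          Subgroup.subset_closure (Or.inl rfl)
        exact Subgroup.mul_mem _ (Subgroup.subset_closure (Or.inr ⟨_, rfl⟩))
          (Subgroup.pow_mem _ hm1 i)
  refine ⟨({b // b ≠ b1} × Fin p) ⊕ Unit, inferInstance,
    Sum.elim (fun x => hseq (y b1) (l x.1) x.2) (fun _ => y b1 ^ p),
    Sum.elim (fun x => v x.1.1 + x.2 * e) (fun _ => p * e), ?_, ?_, ?_, ?_⟩
  · rintro (⟨b, i⟩ | _)
    · have := h1 b.1
      change 1 ≤ v b.1 + (i : ℕ) * e
      omega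
    · exact Nat.mul_pos hp1 he1
  · rintro (⟨b, i⟩ | _)
    · rw [hJ]
      exact C.hseq_JL hLK (hyK b1).2 hconj (hlev _ (hyK b1).2) (hlL b) (hlJ b) i
    · rw [hJ]
      refine ⟨?_, dx_mem_BK hpow⟩
      change dx (y b1 ^ p) ∈ C.J (p * e)
      rw [dx_pow_char]
      exact pow_mem_J C (hlev _ (hyK b1).2) p
  · have e1 : Set.range (Sum.elim (fun x : {b // b ≠ b1} × Fin p => hseq (y b1) (l x.1) (x.2 : ℕ))
        (fun _ : Unit => y b1 ^ p)) = {y b1 ^ p} ∪ {x | ∃ b, ∃ i < p, x = hseq (y b1) (l b) i} := by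
      ext x
      constructor
      · rintro ⟨(⟨b, i⟩ | _), rfl⟩
        · exact Or.inr ⟨b, i, i.2, rfl⟩
        · exact Or.inl rfl
      · rintro (rfl | ⟨b, i, hi, rfl⟩)
        · exact ⟨Sum.inr (), rfl⟩
        · exact ⟨Sum.inl (b, ⟨i, hi⟩), rfl⟩
    rw [e1, ← closure_inf hp1 (y b1) l L hlL hconj hpow hnm, hclos, inf_assoc,
      inf_eq_right.2 hLK]
  · have e1 : ∑ b, t ^ v b = t ^ v b1 + ∑ b : {b // b ≠ b1}, t ^ v b.1 :=
      Fintype.sum_eq_add_sum_subtype_ne _ b1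
    have e2 : ∑ x : ({b // b ≠ b1} × Fin p) ⊕ Unit,
        t ^ (Sum.elim (fun x => v x.1.1 + x.2 * e) (fun _ => p * e) x : ℕ)
        = S * (∑ b : {b // b ≠ b1}, t ^ v b.1) + t ^ (p * e) := by
      rw [Fintype.sum_sum_type]
      simp only [Sum.elim_inl, Sum.elim_inr, Finset.univ_unique, Finset.sum_singleton]
      congr 1
      rw [Fintype.sum_prod_type, Finset.mul_sum]
      refine Finset.sum_congr rfl fun b _ => ?_
      rw [hS, Finset.sum_range, Finset.sum_mul]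
      exact Finset.sum_congr rfl fun i _ => by rw [pow_add, mul_comm]
    rw [e2]
    have e3 : t ^ e ≤ t ^ v b1 := pow_le_pow_of_le_one t0.le t1 (hdeg b1 hb1)
    have e4 := geom t p e
    rw [← hS] at e4
    have e5 : ∑ b : {b // b ≠ b1}, t ^ v b.1 ≤ 1 + δ - t ^ e := by linarith
    have e6 : S * ∑ b : {b // b ≠ b1}, t ^ v b.1 ≤ S * (1 + δ - t ^ e) :=
      mul_le_mul_of_nonneg_left e5 (by linarith)
    nlinarith

end Pool.Agent.Helper904.GS
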