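import Pool.Agent.Helper904.GS.HStep

set_option autoImplicit false

namespace Pool.Agent.Helper904.GS

open Finset

section grp

variable {G : Type} [Group G]

open Cert in
lemma conj_closure_le {S : Set G} {M : Subgroup G} {t : G}
    (h : ∀ s ∈ S, t * s * t⁻¹ ∈ M) : ∀ x ∈ Subgroup.closure S, t * x * t⁻¹ ∈ M := by
  intro x hx
  induction hx using Subgroup.closure_induction with
  | mem x hx => exact h x hx
  | one => simp
  | mul x y _ _ h1 h2 =>
    have : t * (x * y) * t⁻¹ = (t * x * t⁻¹) * (t * y * t⁻¹) := by group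
    rw [this]; exact M.mul_mem h1 h2
  | inv x _ h1 =>
    have : t * x⁻¹ * t⁻¹ = (t * x * t⁻¹)⁻¹ := by group
    rw [this]; exact M.inv_mem h1

open Cert in
lemma hseq_conj (t l : G) (i : ℕ) : t * hseq t l i * t⁻¹ = hseq t l (i + 1) * hseq t l i := by
  rw [hseq]; group

open Cert in
/-- The conjugates lie in the closure of the commutators. -/
lemma conj_mem_hseq (t l : G) (i : ℕ) :
    t ^ i * l * (t ^ i)⁻¹ ∈ Subgroup.closure {x | ∃ j ≤ i, x = hseq t l j} := by
  induction i with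
  | zero => exact Subgroup.subset_closure ⟨0, le_rfl, by simp [hseq]⟩
  | succ i ih =>
    have h1 : ∀ s ∈ {x | ∃ j ≤ i, x = hseq t l j},
        t * s * t⁻¹ ∈ Subgroup.closure {x | ∃ j ≤ i + 1, x = hseq t l j} := by
      rintro s ⟨j, hj, rfl⟩
      rw [hseq_conj]
      exact Subgroup.mul_mem _ (Subgroup.subset_closure ⟨j + 1, by omega, rfl⟩)
        (Subgroup.subset_closure ⟨j, by omega, rfl⟩)
    have h2 := conj_closure_le h1 _ ih
    have e : t ^ (i + 1) * l * (t ^ (i + 1))⁻¹ = t * (t ^ i * l * (t ^ i)⁻¹) * t⁻¹ := by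
      rw [pow_succ']; group
    rw [e]; exact h2

open Cert in
lemma hseq_mem_conj (t l : G) (i : ℕ) :
    hseq t l i ∈ Subgroup.closure {x | ∃ j ≤ i, x = t ^ j * l * (t ^ j)⁻¹} := by
  induction i with
  | zero => exact Subgroup.subset_closure ⟨0, le_rfl, by simp [hseq]⟩
  | succ i ih =>
    have h1 : ∀ s ∈ {x | ∃ j ≤ i, x = t ^ j * l * (t ^ j)⁻¹},
        t * s * t⁻¹ ∈ Subgroup.closure {x | ∃ j ≤ i + 1, x = t ^ j * l * (t ^ j)⁻¹} := by
      rintro s ⟨j, hj, rfl⟩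
      refine Subgroup.subset_closure ⟨j + 1, by omega, ?_⟩
      rw [pow_succ']; group
    have h2 := conj_closure_le h1 _ ih
    rw [hseq]
    refine Subgroup.mul_mem _ h2 (Subgroup.inv_mem _ (Subgroup.closure_mono ?_ ih))
    rintro x ⟨j, hj, rfl⟩
    exact ⟨j, by omega, rfl⟩

open Cert in
/-- Generators of the intersection with a subgroup of index `p`. -/
lemma closure_inf {β : Type} {p : ℕ} (hp : 1 ≤ p) (t : G) (l : β → G) (L : Subgroup G)
    (hl : ∀ b, l b ∈ L) (hconj : ∀ x ∈ L, t * x * t⁻¹ ∈ L) (hpow : t ^ p ∈ L)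
    (hnm : ∀ i, 0 < i → i < p → t ^ i ∉ L) :
    Subgroup.closure ({t} ∪ Set.range l) ⊓ L =
      Subgroup.closure ({t ^ p} ∪ {x | ∃ b, ∃ i < p, x = hseq t (l b) i}) := by
  set M := Subgroup.closure ({t ^ p} ∪ {x | ∃ b, ∃ i < p, x = hseq t (l b) i}) with hM
  have htp : t ^ p ∈ M := Subgroup.subset_closure (Or.inl rfl)
  have hh : ∀ b, ∀ i < p, hseq t (l b) i ∈ M := fun b i hi =>
    Subgroup.subset_closure (Or.inr ⟨b, i, hi, rfl⟩)
  have hc : ∀ b, ∀ i ≤ p, t ^ i * l b * (t ^ i)⁻¹ ∈ M := by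
    intro b i hi
    rcases Nat.lt_or_eq_of_le hi with h | rfl
    · refine (Subgroup.closure_le M).2 ?_ (conj_mem_hseq t (l b) i)
      rintro x ⟨j, hj, rfl⟩
      exact hh b j (by omega)
    · have h0 : l b ∈ M := by simpa [hseq] using hh b 0 (by omega)
      exact M.mul_mem (M.mul_mem htp h0) (M.inv_mem htp)
  have hup : ∀ x ∈ M, t * x * t⁻¹ ∈ M := by
    refine conj_closure_le ?_
    rintro x (rfl | ⟨b, i, hi, rfl⟩)
    · have : t * t ^ p * t⁻¹ = t ^ p := by rw [← pow_succ', pow_succ]; group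
      rw [this]; exact htp
    · refine conj_closure_le ?_ _ (hseq_mem_conj t (l b) i)
      rintro x ⟨j, hj, rfl⟩
      have : t * (t ^ j * l b * (t ^ j)⁻¹) * t⁻¹ = t ^ (j + 1) * l b * (t ^ (j + 1))⁻¹ := by
        rw [pow_succ']; group
      rw [this]; exact hc b (j + 1) (by omega)
  have hupn : ∀ n : ℕ, ∀ x ∈ M, t ^ n * x * (t ^ n)⁻¹ ∈ M := by
    intro n
    induction n with
    | zero => intro x hx; simpa using hx
    | succ n ih =>
      intro x hx
      have : t ^ (n + 1) * x * (t ^ (n + 1))⁻¹ = t * (t ^ n * x * (t ^ n)⁻¹) * t⁻¹ := by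
        rw [pow_succ']; group
      rw [this]; exact hup _ (ih x hx)
  have hdown : ∀ n : ℕ, ∀ x ∈ M, (t ^ n)⁻¹ * x * t ^ n ∈ M := by
    intro n x hx
    -- t^{-n} = t^{(p-1) n} t^{-p n}
    have h1 : (t ^ p) ^ n ∈ M := M.pow_mem htp n
    have h2 : ((t ^ p) ^ n)⁻¹ * x * (t ^ p) ^ n ∈ M := M.mul_mem (M.mul_mem (M.inv_mem h1) hx) h1
    have h3 := hupn ((p - 1) * n) _ h2
    have e : (t ^ p) ^ n = t ^ ((p - 1) * n) * t ^ n := by
      rw [← pow_mul, ← pow_add]
      congr 1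
      obtain ⟨q, rfl⟩ : ∃ q, p = q + 1 := ⟨p - 1, by omega⟩
      simp only [Nat.add_sub_cancel]; ring
    have e2 : t ^ n * t ^ ((p - 1) * n) = t ^ ((p - 1) * n) * t ^ n := by
      rw [← pow_add, ← pow_add, add_comm]
    have e3 : t ^ ((p - 1) * n) * (((t ^ p) ^ n)⁻¹ * x * (t ^ p) ^ n) * (t ^ ((p - 1) * n))⁻¹
        = (t ^ n)⁻¹ * x * t ^ n := by
      rw [e]
      have e4 : (t ^ ((p - 1) * n) * t ^ n)⁻¹ = (t ^ ((p - 1) * n))⁻¹ * (t ^ n)⁻¹ := by
        rw [← e2]; group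
      rw [e4]
      have e5 : t ^ ((p - 1) * n) * t ^ n * (t ^ ((p - 1) * n))⁻¹ = t ^ n := by
        rw [← e2]; group
      calc t ^ ((p - 1) * n) * ((t ^ ((p - 1) * n))⁻¹ * (t ^ n)⁻¹ * x *
            (t ^ ((p - 1) * n) * t ^ n)) * (t ^ ((p - 1) * n))⁻¹
          = (t ^ n)⁻¹ * x * (t ^ ((p - 1) * n) * t ^ n * (t ^ ((p - 1) * n))⁻¹) := by group
        _ = (t ^ n)⁻¹ * x * t ^ n := by rw [e5]
    rw [← e3]; exact h3
  have hz : ∀ i : ℤ, ∀ x ∈ M, t ^ i * x * (t ^ i)⁻¹ ∈ M := by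
    intro i x hx
    rcases i with n | n
    · simpa using hupn n x hx
    · have := hdown (n + 1) x hx
      rw [zpow_negSucc, inv_inv]
      exact this
  apply le_antisymm
  · rintro x ⟨hx, hxL⟩
    have h1 : ∃ m ∈ M, ∃ i : ℤ, x = m * t ^ i := by
      clear hxL
      induction hx using Subgroup.closure_induction with
      | mem x hx =>
        rcases hx with rfl | ⟨b, rfl⟩
        · exact ⟨1, M.one_mem, 1, by simp⟩
        · exact ⟨l b, by simpa [hseq] using hh b 0 (by omega), 0, by simp⟩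
      | one => exact ⟨1, M.one_mem, 0, by simp⟩
      | mul x y _ _ h1 h2 =>
        obtain ⟨m, hm, i, rfl⟩ := h1
        obtain ⟨m', hm', j, rfl⟩ := h2
        refine ⟨m * (t ^ i * m' * (t ^ i)⁻¹), M.mul_mem hm (hz i _ hm'), i + j, ?_⟩
        rw [zpow_add]; group
      | inv x _ h1 =>
        obtain ⟨m, hm, i, rfl⟩ := h1
        refine ⟨t ^ (-i) * m⁻¹ * (t ^ (-i))⁻¹, hz (-i) _ (M.inv_mem hm), -i, ?_⟩
        group
    obtain ⟨m, hm, i, rfl⟩ := h1
    have hML : M ≤ L := by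
      rw [hM, Subgroup.closure_le]
      rintro y (rfl | ⟨b, j, hj, rfl⟩)
      · exact hpow
      · exact hseq_mem hconj (hl b) j
    have h2 : t ^ i ∈ L := by
      have := L.mul_mem (L.inv_mem (hML hm)) hxL
      simpa using this
    have h3 : t ^ i = (t ^ p) ^ (i / p) * t ^ (i % p) := by
      rw [← zpow_natCast t p, ← zpow_mul, ← zpow_add]
      congr 1
      rw [Int.mul_ediv_add_emod]
    have h4 : t ^ (i % p) ∈ L := by
      have h5 := L.mul_mem (L.inv_mem (L.zpow_mem hpow (i / p))) h2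
      rw [h3] at h5
      simpa using h5
    have h5 : 0 ≤ i % p := Int.emod_nonneg _ (by omega)
    have h6 : i % p < p := Int.emod_lt_of_pos _ (by omega)
    obtain ⟨r, hr⟩ : ∃ r : ℕ, i % p = r := ⟨(i % p).toNat, by omega⟩
    have h7 : r = 0 := by
      by_contra h8
      refine hnm r (by omega) (by omega) ?_
      rw [hr, zpow_natCast] at h4
      exact h4
    rw [h3, hr, h7]
    simp only [Nat.cast_zero, zpow_zero, mul_one]
    exact M.mul_mem hm (M.zpow_mem htp _)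
  · rw [hM, Subgroup.closure_le]
    have ht : t ∈ Subgroup.closure ({t} ∪ Set.range l) := Subgroup.subset_closure (Or.inl rfl)
    rintro y (rfl | ⟨b, j, hj, rfl⟩)
    · exact ⟨Subgroup.pow_mem _ ht p, hpow⟩
    · have hin : ∀ x ∈ Subgroup.closure ({t} ∪ Set.range l),
          t * x * t⁻¹ ∈ Subgroup.closure ({t} ∪ Set.range l) := fun x hx =>
        Subgroup.mul_mem _ (Subgroup.mul_mem _ ht hx) (Subgroup.inv_mem _ ht)
      exact ⟨hseq_mem hin (Subgroup.subset_closure (Or.inr ⟨b, rfl⟩)) j,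
        hseq_mem hconj (hl b) j⟩

end grp

end Pool.Agent.Helper904.GS
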